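import Mathlib

/-!
Ratio lemma: for two sum processes `H ≤ H'` the reflected likelihood ratio `N_Q / N_P` is larger
for `H` than for `H'`.
-/

namespace Helper11.Conn

/-- One unit step of the backward operator. -/
def U (F : ℤ → ℝ) : ℤ → ℝ := fun a => F a + F (a + 1)

/-- Shift (time tick). -/
def Sh (F : ℤ → ℝ) : ℤ → ℝ := fun a => F (a - 1)

/-- Truncation to `[0, L]`. -/
noncomputable def Tr (L : ℤ) (F : ℤ → ℝ) : ℤ → ℝ := fun a => if 0 ≤ a ∧ a ≤ L then F a else 0

/-- Reflected ratio is monotone (cross multiplied). -/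
def Mono (L : ℤ) (F : ℤ → ℝ) : Prop := ∀ a b, a ≤ b → F a * F (L - b) ≤ F b * F (L - a)

structure Rel (L : ℤ) (F G : ℤ → ℝ) : Prop where
  nn : ∀ a, 0 ≤ F a
  le : ∀ a, F a ≤ G a
  r1 : ∀ x y, y ≤ x → L ≤ x + y →
    (F x + F (L - x)) * (G y + G (L - y)) ≤ (F y + F (L - y)) * (G x + G (L - x))
  r2 : ∀ x, L ≤ 2 * x → F x * G (L - x) ≤ F (L - x) * G x
  r3 : Mono L G

lemma Rel.gnn {L : ℤ} {F G : ℤ → ℝ} (h : Rel L F G) (a : ℤ) : 0 ≤ G a :=
  (h.nn a).trans (h.le a)

lemma Mono.step {L : ℤ} {F : ℤ → ℝ} (h : Mono L F) : Mono (L - 1) (U F) := by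
  intro a b hab
  rcases eq_or_lt_of_le hab with rfl | hlt
  · exact le_refl _
  · have e1 := h a b hab
    have e2 := h (a + 1) (b + 1) (by omega)
    have e3 := h a (b + 1) (by omega)
    have e4 := h (a + 1) b (by omega)
    simp only [U]
    have i1 : L - 1 - b = L - (b + 1) := by ring
    have i2 : L - 1 - b + 1 = L - b := by ring
    have i3 : L - 1 - a = L - (a + 1) := by ring
    have i4 : L - 1 - a + 1 = L - a := by ring
    rw [i2, i4, i1, i3]
    nlinarith

lemma Mono.shift {L : ℤ} {F : ℤ → ℝ} (h : Mono L F) : Mono (L + 2) (Sh F) := by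
  intro a b hab
  simp only [Sh]
  have := h (a - 1) (b - 1) (by omega)
  have i1 : L + 2 - b - 1 = L - (b - 1) := by ring
  have i2 : L + 2 - a - 1 = L - (a - 1) := by ring
  rw [i1, i2]; exact this

lemma Mono.trunc {L : ℤ} {F : ℤ → ℝ} (hF : ∀ a, 0 ≤ F a) (h : Mono L F) : Mono L (Tr L F) := by
  intro a b hab
  simp only [Tr]
  by_cases h1 : 0 ≤ a ∧ a ≤ L
  · by_cases h2 : 0 ≤ L - b ∧ L - b ≤ L
    · have h3 : 0 ≤ b ∧ b ≤ L := by omega
      have h4 : 0 ≤ L - a ∧ L - a ≤ L := by omega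
      rw [if_pos h1, if_pos h2, if_pos h3, if_pos h4]
      exact h a b hab
    · rw [if_neg h2]
      simp only [mul_zero]
      apply mul_nonneg <;> split_ifs <;> simp [hF]
  · rw [if_neg h1]
    simp only [zero_mul]
    apply mul_nonneg <;> split_ifs <;> simp [hF]

lemma U_nn {F : ℤ → ℝ} (hF : ∀ a, 0 ≤ F a) (a : ℤ) : 0 ≤ U F a := by
  simp only [U]; exact add_nonneg (hF _) (hF _)

lemma Sh_nn {F : ℤ → ℝ} (hF : ∀ a, 0 ≤ F a) (a : ℤ) : 0 ≤ Sh F a := hF _

lemma Tr_nn {L : ℤ} {F : ℤ → ℝ} (hF : ∀ a, 0 ≤ F a) (a : ℤ) : 0 ≤ Tr L F a := by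
  simp only [Tr]; split_ifs <;> simp [hF]

lemma Ui_nn {F : ℤ → ℝ} (hF : ∀ a, 0 ≤ F a) (k : ℕ) : ∀ a, 0 ≤ (U^[k] F) a := by
  induction k with
  | zero => simpa using hF
  | succ k ih =>
    intro a
    rw [Function.iterate_succ_apply']
    exact U_nn ih a

lemma Mono.iter {L : ℤ} {F : ℤ → ℝ} (h : Mono L F) (k : ℕ) :
    Mono (L - k) (U^[k] F) := by
  induction k with
  | zero => simpa using h
  | succ k ih =>
    rw [Function.iterate_succ_apply']
    have := Mono.step ih
    have e : L - ((k + 1 : ℕ) : ℤ) = L - k - 1 := by push_cast; ring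
    rw [e]; exact this

/-- the algebraic cross inequality -/
lemma cross_ineq {f f' fb fb' g g' gb gb' : ℝ}
    (hf : 0 ≤ f) (hf' : 0 ≤ f') (hfb : 0 ≤ fb) (hfb' : 0 ≤ fb')
    (lf : f ≤ g) (lf' : f' ≤ g') (lfb : fb ≤ gb) (lfb' : fb' ≤ gb')
    (h2 : f * gb ≤ fb * g) (h2' : f' * gb' ≤ fb' * g')
    (h1 : (f' + fb') * (g + gb) ≤ (f + fb) * (g' + gb'))
    (h3 : g * gb' ≤ g' * gb) :
    f * gb' + f' * gb ≤ fb' * g + fb * g' := by
  -- A = g + gb, B = g' + gb'
  have hg : 0 ≤ g := hf.trans lf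
  have hg' : 0 ≤ g' := hf'.trans lf'
  have hgb : 0 ≤ gb := hfb.trans lfb
  have hgb' : 0 ≤ gb' := hfb'.trans lfb'
  rcases (add_nonneg hg hgb).eq_or_lt with hA | hA
  · have g0 : g = 0 := by linarith
    have gb0 : gb = 0 := by linarith
    have f0 : f = 0 := by linarith
    have fb0 : fb = 0 := by linarith
    rw [g0, gb0, f0, fb0]; simp
  rcases (add_nonneg hg' hgb').eq_or_lt with hB | hB
  · have g0 : g' = 0 := by linarith
    have gb0 : gb' = 0 := by linarith
    have f0 : f' = 0 := by linarith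
    have fb0 : fb' = 0 := by linarith
    rw [g0, gb0, f0, fb0]; simp
  -- odd/even parts
  set A := g + gb with hAdef
  set Bq := g' + gb' with hBdef
  -- u = f - fb, u' = f' - fb', γ = g - gb, γ' = g' - gb'
  have k2 : (f - fb) * A ≤ (g - gb) * (f + fb) := by rw [hAdef]; nlinarith
  have k2' : (f' - fb') * Bq ≤ (g' - gb') * (f' + fb') := by rw [hBdef]; nlinarith
  have k3 : (g - gb) * Bq ≤ (g' - gb') * A := by rw [hAdef, hBdef]; nlinarith
  have k1 : (f' + fb') * A ≤ (f + fb) * Bq := h1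
  have key : ((f - fb) * Bq + (f' - fb') * A) ≤ ((g - gb) * (f' + fb') + (g' - gb') * (f + fb)) := by
    have m1 : (f - fb) * A * Bq ^ 2 ≤ (g - gb) * (f + fb) * Bq ^ 2 :=
      mul_le_mul_of_nonneg_right k2 (by positivity)
    have m2 : (f' - fb') * Bq * A ^ 2 ≤ (g' - gb') * (f' + fb') * A ^ 2 :=
      mul_le_mul_of_nonneg_right k2' (by positivity)
    have m3 : 0 ≤ ((g' - gb') * A - (g - gb) * Bq) * ((f + fb) * Bq - (f' + fb') * A) :=
      mul_nonneg (by linarith) (by linarith)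
    have hAB : 0 < A * Bq := mul_pos hA hB
    have : ((f - fb) * Bq + (f' - fb') * A) * (A * Bq) ≤
        ((g - gb) * (f' + fb') + (g' - gb') * (f + fb)) * (A * Bq) := by nlinarith
    exact le_of_mul_le_mul_right this hAB
  rw [hAdef, hBdef] at key
  nlinarith

lemma Rel.step {L : ℤ} {F G : ℤ → ℝ} (h : Rel L F G) : Rel (L - 1) (U F) (U G) := by
  refine ⟨U_nn h.nn, fun a => add_le_add (h.le _) (h.le _), ?_, ?_, Mono.step h.r3⟩
  · intro x y hyx hxy
    have sF : ∀ z, U F z + U F (L - 1 - z) = (F z + F (L - z)) + (F (z + 1) + F (L - (z + 1))) := by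
      intro z
      simp only [U]
      have i1 : L - 1 - z = L - (z + 1) := by ring
      have i2 : L - 1 - z + 1 = L - z := by ring
      rw [i2, i1]; ring
    have sG : ∀ z, U G z + U G (L - 1 - z) = (G z + G (L - z)) + (G (z + 1) + G (L - (z + 1))) := by
      intro z
      simp only [U]
      have i1 : L - 1 - z = L - (z + 1) := by ring
      have i2 : L - 1 - z + 1 = L - z := by ring
      rw [i2, i1]; ring
    rcases eq_or_lt_of_le hyx with rfl | hlt
    · exact le_refl _
    rcases eq_or_lt_of_le hxy with heq | hgt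
    · have e : y = L - 1 - x := by omega
      have e' : L - 1 - y = x := by omega
      rw [e', e]
      have : L - 1 - (L - 1 - x) = x := by ring
      rw [add_comm (U G (L - 1 - x)), add_comm (U F (L - 1 - x))]
    rw [sF, sF, sG, sG]
    have e1 := h.r1 x y (by omega) (by omega)
    have e2 := h.r1 x (y + 1) (by omega) (by omega)
    have e3 := h.r1 (x + 1) y (by omega) (by omega)
    have e4 := h.r1 (x + 1) (y + 1) (by omega) (by omega)
    nlinarith
  · intro x hx
    simp only [U]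
    have i1 : L - 1 - x = L - (x + 1) := by ring
    have i2 : L - 1 - x + 1 = L - x := by ring
    rcases eq_or_lt_of_le hx with heq | hgt
    · have e : L - 1 - x = x := by omega
      rw [e]
    rw [i2, i1]
    have a1 := h.r2 x (by omega)
    have a2 := h.r2 (x + 1) (by omega)
    have a3 := h.r1 (x + 1) x (by omega) (by omega)
    have a4 := h.r3 x (x + 1) (by omega)
    have := cross_ineq (h.nn x) (h.nn (x + 1)) (h.nn (L - x)) (h.nn (L - (x + 1)))
      (h.le x) (h.le (x + 1)) (h.le (L - x)) (h.le (L - (x + 1))) a1 a2 a3 a4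
    nlinarith

lemma Rel.iter {L : ℤ} {F G : ℤ → ℝ} (h : Rel L F G) (k : ℕ) : Rel (L - k) (U^[k] F) (U^[k] G) := by
  induction k with
  | zero => simpa using h
  | succ k ih =>
    rw [Function.iterate_succ_apply', Function.iterate_succ_apply']
    have := Rel.step ih
    have e : L - ((k + 1 : ℕ) : ℤ) = L - k - 1 := by push_cast; ring
    rw [e]; exact this

lemma Rel.shift {L : ℤ} {F G : ℤ → ℝ} (h : Rel L F G) : Rel (L + 2) (Sh F) (Sh G) := by
  refine ⟨fun a => h.nn _, fun a => h.le _, ?_, ?_, Mono.shift h.r3⟩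
  · intro x y hyx hxy
    simp only [Sh]
    have := h.r1 (x - 1) (y - 1) (by omega) (by omega)
    have i1 : L + 2 - x - 1 = L - (x - 1) := by ring
    have i2 : L + 2 - y - 1 = L - (y - 1) := by ring
    rw [i1, i2]; exact this
  · intro x hx
    simp only [Sh]
    have := h.r2 (x - 1) (by omega)
    have i1 : L + 2 - x - 1 = L - (x - 1) := by ring
    rw [i1]; exact this

/-- Truncate the lower function, and replace the upper one by one which agrees on `[0,L]`. -/
lemma Rel.trunc {L : ℤ} {F G G' : ℤ → ℝ} (h : Rel L F G) (hG' : Mono L G') (hn : ∀ a, 0 ≤ G' a)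
    (heq : ∀ a, 0 ≤ a → a ≤ L → G' a = G a) : Rel L (Tr L F) G' := by
  refine ⟨Tr_nn h.nn, ?_, ?_, ?_, hG'⟩
  · intro a
    simp only [Tr]
    split_ifs with h1
    · rw [heq a h1.1 h1.2]; exact h.le a
    · exact hn a
  · intro x y hyx hxy
    by_cases hxL : x ≤ L
    · have t1 : 0 ≤ x ∧ x ≤ L := by omega
      have t2 : 0 ≤ y ∧ y ≤ L := by omega
      have t3 : 0 ≤ L - x ∧ L - x ≤ L := by omega
      have t4 : 0 ≤ L - y ∧ L - y ≤ L := by omega
      simp only [Tr, if_pos t1, if_pos t2, if_pos t3, if_pos t4]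
      rw [heq x t1.1 t1.2, heq y t2.1 t2.2, heq _ t3.1 t3.2, heq _ t4.1 t4.2]
      exact h.r1 x y hyx hxy
    · have t1 : ¬ (0 ≤ x ∧ x ≤ L) := by omega
      have t3 : ¬ (0 ≤ L - x ∧ L - x ≤ L) := by omega
      have z1 : Tr L F x = 0 := by simp only [Tr, if_neg t1]
      have z2 : Tr L F (L - x) = 0 := by simp only [Tr, if_neg t3]
      rw [z1, z2]
      simp only [add_zero, zero_mul]
      exact mul_nonneg (add_nonneg (Tr_nn h.nn _) (Tr_nn h.nn _)) (add_nonneg (hn _) (hn _))
  · intro x hx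
    by_cases hxL : x ≤ L
    · have t1 : 0 ≤ x ∧ x ≤ L := by omega
      have t3 : 0 ≤ L - x ∧ L - x ≤ L := by omega
      simp only [Tr, if_pos t1, if_pos t3]
      rw [heq x t1.1 t1.2, heq _ t3.1 t3.2]
      exact h.r2 x hx
    · have t1 : ¬ (0 ≤ x ∧ x ≤ L) := by omega
      have z1 : Tr L F x = 0 := by simp only [Tr, if_neg t1]
      rw [z1, zero_mul]
      exact mul_nonneg (Tr_nn h.nn _) (hn _)

lemma Rel.zero {L : ℤ} {G : ℤ → ℝ} (hG : Mono L G) (hn : ∀ a, 0 ≤ G a) : Rel L (fun _ => 0) G :=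
  ⟨fun _ => le_refl _, hn, fun _ _ _ _ => by simp, fun _ _ => by simp, hG⟩

/-- backward vectors for a sum process `H` -/
noncomputable def FH : ℕ → (ℕ → ℕ) → ℤ → ℝ
  | 0, H => fun a => if a = (H 0 : ℤ) ∧ H 0 ≤ 1 then 1 else 0
  | n + 1, H => if H 0 ≤ H 1 + 2 then
      Tr (H 0) (U^[H 1 + 2 - H 0] (Sh (FH n (fun i => H (i + 1))))) else fun _ => 0

lemma FH_nn (n : ℕ) : ∀ (H : ℕ → ℕ) (a : ℤ), 0 ≤ FH n H a := by
  induction n with
  | zero =>
    intro H a
    simp only [FH]; split_ifs <;> simp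
  | succ n ih =>
    intro H a
    simp only [FH]
    split_ifs with h
    · exact Tr_nn (Ui_nn (Sh_nn (ih _)) _) a
    · exact le_refl _

lemma FH_mono (n : ℕ) : ∀ (H : ℕ → ℕ), Mono (H 0) (FH n H) := by
  induction n with
  | zero =>
    intro H a b hab
    simp only [FH]
    by_cases h1 : a = (H 0 : ℤ) ∧ H 0 ≤ 1
    · by_cases h2 : (H 0 : ℤ) - b = (H 0 : ℤ) ∧ H 0 ≤ 1
      · have hb : b = 0 := by omega
        have ha : a = 0 := by omega
        have hH : H 0 = 0 := by omega
        rw [hb, ha, hH]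
      · rw [if_neg h2]
        simp only [mul_zero]
        split_ifs <;> simp
    · rw [if_neg h1]
      simp only [zero_mul]
      split_ifs <;> simp
  | succ n ih =>
    intro H
    simp only [FH]
    split_ifs with h
    · apply Mono.trunc (Ui_nn (Sh_nn (FH_nn n _)) _)
      have := Mono.iter (Mono.shift (ih (fun i => H (i + 1)))) (H 1 + 2 - H 0)
      have e : ((H (0 + 1) : ℕ) : ℤ) + 2 - ((H 1 + 2 - H 0 : ℕ) : ℤ) = (H 0 : ℤ) := by
        push_cast [Nat.cast_sub h]; simp
      rw [e] at this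
      exact this
    · intro a b _; simp

lemma U_Sh (F : ℤ → ℝ) : U (Sh F) = Sh (U F) := by
  funext a; simp only [U, Sh]; congr 2; ring

lemma Ui_Sh (k : ℕ) (F : ℤ → ℝ) : U^[k] (Sh F) = Sh (U^[k] F) := by
  induction k with
  | zero => rfl
  | succ k ih => rw [Function.iterate_succ_apply', Function.iterate_succ_apply', ih, U_Sh]

lemma Ui_Tr (k : ℕ) (N : ℤ) (F : ℤ → ℝ) :
    ∀ a, 0 ≤ a → a + k ≤ N → (U^[k] (Tr N F)) a = (U^[k] F) a := by
  induction k with
  | zero =>
    intro a h0 h1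
    simp only [Function.iterate_zero, id, Tr]
    rw [if_pos]
    constructor
    · exact h0
    · simpa using h1
  | succ k ih =>
    intro a h0 h1
    rw [Function.iterate_succ_apply', Function.iterate_succ_apply']
    push_cast at h1
    have e1 := ih a h0 (by omega)
    have e2 := ih (a + 1) (by omega) (by omega)
    show (U^[k] (Tr N F)) a + (U^[k] (Tr N F)) (a + 1) = (U^[k] F) a + (U^[k] F) (a + 1)
    rw [e1, e2]

/-- Main comparison. -/
theorem FH_rel (n : ℕ) : ∀ (H H' : ℕ → ℕ), (∀ i ≤ n, H i ≤ H' i) → (∀ i < n, H' i ≤ H' (i + 1) + 2) →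
    H' n ≤ 1 → Rel (H 0) (FH n H) (U^[H' 0 - H 0] (FH n H')) := by
  induction n with
  | zero =>
    intro H H' hle _ hn
    have h0 := hle 0 le_rfl
    have m := Mono.iter (FH_mono 0 H') (H' 0 - H 0)
    have e : ((H' 0 : ℕ) : ℤ) - ((H' 0 - H 0 : ℕ) : ℤ) = H 0 := by
      push_cast [Nat.cast_sub h0]; ring
    rw [e] at m
    rcases Nat.lt_or_ge (H 0) (H' 0) with hlt | hge
    · -- H 0 = 0, H' 0 = 1
      have a0 : H 0 = 0 := by omega
      have a1 : H' 0 = 1 := by omega
      rw [a0, a1] at m ⊢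
      simp only [Nat.sub_zero, Function.iterate_one, Nat.cast_zero] at m ⊢
      have hF : ∀ a : ℤ, FH 0 H a = if a = 0 then 1 else 0 := by
        intro a; simp [FH, a0]
      have hG : ∀ a : ℤ, FH 0 H' a = if a = 1 then 1 else 0 := by
        intro a; simp [FH, a1]
      have hUG : ∀ a : ℤ, U (FH 0 H') a = (if a = 1 then 1 else 0) + (if a + 1 = 1 then 1 else 0) := by
        intro a; simp only [U, hG]
      refine ⟨FH_nn 0 H, ?_, ?_, ?_, m⟩
      · intro a
        rw [hF, hUG]
        split_ifs <;> first | omega | norm_num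
      · intro x y hyx hxy
        rw [hF, hF, hF, hF, hUG, hUG, hUG, hUG]
        by_cases hx : x = 0
        · have hy : y = 0 := by omega
          rw [hx, hy]
        · have hx' : ¬ ((0 : ℤ) - x = 0) := by omega
          rw [if_neg hx, if_neg hx']
          simp only [add_zero, zero_mul]
          apply mul_nonneg
          · split_ifs <;> norm_num
          · split_ifs <;> norm_num
      · intro x hx
        rw [hF, hF, hUG, hUG]
        by_cases hx0 : x = 0
        · rw [hx0]; simp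
        · rw [if_neg hx0]
          simp only [zero_mul]
          split_ifs <;> norm_num
    · have a0 : H' 0 = H 0 := le_antisymm hge h0
      have hk : H' 0 - H 0 = 0 := by omega
      rw [hk] at m ⊢
      simp only [Function.iterate_zero, id] at m ⊢
      have hFG : FH 0 H = FH 0 H' := by
        funext a; simp only [FH, a0]
      rw [hFG]
      refine ⟨FH_nn 0 H', fun a => le_refl _, fun x y _ _ => ?_, fun x _ => ?_, m⟩
      · rw [mul_comm]
      · rw [mul_comm]
  | succ n ih =>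
    intro H H' hle hval hn
    have h0 := hle 0 (by omega)
    have h1 := hle 1 (by omega)
    have hv := hval 0 (by omega)
    have m := Mono.iter (FH_mono (n + 1) H') (H' 0 - H 0)
    have e : ((H' 0 : ℕ) : ℤ) - ((H' 0 - H 0 : ℕ) : ℤ) = H 0 := by
      push_cast [Nat.cast_sub h0]; ring
    rw [e] at m
    have mn := Ui_nn (FH_nn (n + 1) H') (H' 0 - H 0)
    by_cases hH : H 0 ≤ H 1 + 2
    · have ih' := ih (fun i => H (i + 1)) (fun i => H' (i + 1))
        (fun i hi => hle (i + 1) (by omega)) (fun i hi => hval (i + 1) (by omega)) hn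
      have r1 := Rel.iter (Rel.shift ih') (H 1 + 2 - H 0)
      have e2 : ((H (0 + 1) : ℕ) : ℤ) + 2 - ((H 1 + 2 - H 0 : ℕ) : ℤ) = (H 0 : ℤ) := by
        push_cast [Nat.cast_sub hH]; simp
      rw [e2] at r1
      have r2 := Rel.trunc r1 m mn ?_
      · have eF : FH (n + 1) H = Tr (H 0) (U^[H 1 + 2 - H 0] (Sh (FH n (fun i => H (i + 1))))) := by
          simp only [FH, if_pos hH]
        rw [eF]
        exact r2
      · intro a ha0 ha1
        have eF' : FH (n + 1) H' =
            Tr (H' 0) (U^[H' 1 + 2 - H' 0] (Sh (FH n (fun i => H' (i + 1))))) := by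
          have : H' 0 ≤ H' 1 + 2 := hv
          simp only [FH, if_pos this]
        rw [eF', Ui_Tr _ _ _ a ha0 (by push_cast [Nat.cast_sub h0]; omega)]
        rw [← Ui_Sh, ← Function.iterate_add_apply, ← Function.iterate_add_apply]
        have : H' 0 - H 0 + (H' 1 + 2 - H' 0) = H 1 + 2 - H 0 + (H' (0 + 1) - H (0 + 1)) := by
          have hv' : H' 0 ≤ H' 1 + 2 := hv
          simp only [Nat.zero_add]
          omega
        rw [this]
    · have eF : FH (n + 1) H = fun _ => 0 := by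
        simp only [FH, if_neg hH]
      rw [eF]
      exact Rel.zero m mn

lemma Ui_apply (k : ℕ) (F : ℤ → ℝ) (a : ℤ) :
    (U^[k] F) a = ∑ s ∈ Finset.range (k + 1), (k.choose s : ℝ) * F (a + s) := by
  induction k generalizing a with
  | zero => simp
  | succ k ih =>
    rw [Function.iterate_succ_apply']
    show (U^[k] F) a + (U^[k] F) (a + 1) = _
    rw [ih a, ih (a + 1)]
    rw [Finset.sum_range_succ' (fun s => ((k + 1).choose s : ℝ) * F (a + s))]
    simp only [Nat.choose_succ_succ, Nat.cast_add, add_mul, Finset.sum_add_distrib]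
    have e1 : ∀ s : ℕ, F (a + 1 + (s : ℤ)) = F (a + ((s + 1 : ℕ) : ℤ)) := by
      intro s; congr 1; push_cast; ring
    simp only [e1]
    have e2 : ∑ s ∈ Finset.range (k + 1), (k.choose s : ℝ) * F (a + s) =
        ∑ s ∈ Finset.range (k + 1), (k.choose (s + 1) : ℝ) * F (a + ((s + 1 : ℕ) : ℤ)) + F a := by
      rw [Finset.sum_range_succ' (fun s => (k.choose s : ℝ) * F (a + s))]
      rw [Finset.sum_range_succ (fun s => (k.choose (s + 1) : ℝ) * F (a + ((s + 1 : ℕ) : ℤ)))]
      simp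
    rw [e2]
    simp
    ring

lemma FH_zero_le (n : ℕ) (H : ℕ → ℕ) : FH n H 0 ≤ FH n H (H 0) := by
  have h := FH_mono n H 0 (H 0) (by positivity)
  simp only [sub_self, sub_zero] at h
  have a1 := FH_nn n H 0
  have a2 := FH_nn n H (H 0)
  nlinarith

/-- The comparison of reflected likelihood ratios. -/
theorem FH_ratio (n : ℕ) (H H' : ℕ → ℕ) (hle : ∀ i ≤ n, H i ≤ H' i)
    (hval : ∀ i < n, H' i ≤ H' (i + 1) + 2) (hn : H' n ≤ 1) :
    FH n H (H 0) * FH n H' 0 ≤ FH n H 0 * FH n H' (H' 0) := by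
  have hr := FH_rel n H H' hle hval hn
  have h0 := hle 0 (by omega)
  set k := H' 0 - H 0 with hk
  have hkL : (H' 0 : ℤ) = H 0 + k := by
    rw [hk]; push_cast [Nat.cast_sub h0]; ring
  set G := U^[k] (FH n H') with hG
  have c2 := hr.r2 (H 0) (by positivity |> fun (h : (0:ℤ) ≤ (H 0 : ℤ)) => by linarith)
  rw [sub_self] at c2
  -- G(L) F'(0) ≤ G(0) F'(L')
  have c3 : G (H 0) * FH n H' 0 ≤ G 0 * FH n H' (H' 0) := by
    rw [hG, Ui_apply, Ui_apply, Finset.sum_mul, Finset.sum_mul]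
    rw [← Finset.sum_range_reflect]
    apply Finset.sum_le_sum
    intro s hs
    have hs' : s ≤ k := by simpa [Nat.lt_succ_iff] using hs
    have e1 : k + 1 - 1 - s = k - s := by omega
    rw [e1, Nat.choose_symm hs', mul_assoc, mul_assoc]
    apply mul_le_mul_of_nonneg_left _ (by positivity)
    have m := FH_mono n H' ((H' 0 : ℤ) - s) (H' 0) (by omega)
    rw [sub_self] at m
    have e2 : (H' 0 : ℤ) - ((H' 0 : ℤ) - s) = 0 + s := by ring
    have e3 : (H 0 : ℤ) + ((k - s : ℕ) : ℤ) = (H' 0 : ℤ) - s := by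
      rw [hkL]; push_cast [Nat.cast_sub hs']; ring
    rw [e2] at m
    rw [e3]
    calc _ ≤ _ := m
      _ = _ := by ring
  have n1 := FH_nn n H (H 0)
  have n2 := FH_nn n H 0
  have n3 := FH_nn n H' (H' 0)
  have n4 := FH_nn n H' 0
  have g1 : 0 ≤ G (H 0) := hr.gnn _
  have g2 : 0 ≤ G 0 := hr.gnn _
  have l1 := hr.le (H 0)
  have l2 := hr.le 0
  rcases g1.eq_or_lt with h | h
  · have : FH n H (H 0) = 0 := by linarith
    rw [this, zero_mul]; positivity
  rcases g2.eq_or_lt with h' | h'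
  · -- G 0 = 0
    have z : FH n H' 0 = 0 := by
      rw [← h'] at c3
      have : G (H 0) * FH n H' 0 ≤ 0 := by simpa using c3
      nlinarith
    rw [z, mul_zero]; positivity
  have c4 : (FH n H (H 0) * FH n H' 0) * (G 0 * G (H 0)) ≤
      (FH n H 0 * FH n H' (H' 0)) * (G 0 * G (H 0)) := by
    calc (FH n H (H 0) * FH n H' 0) * (G 0 * G (H 0))
        = (FH n H (H 0) * G 0) * (G (H 0) * FH n H' 0) := by ring
      _ ≤ (FH n H 0 * G (H 0)) * (G 0 * FH n H' (H' 0)) :=
          mul_le_mul c2 c3 (by positivity) (by positivity)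
      _ = _ := by ring
  exact le_of_mul_le_mul_right c4 (by positivity)

end Helper11.Conn
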