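import Mathlib
import Pool.Agent.Helper11_Conn.Ratio

/-!
Path sums on a finite state space, and the sum over pairs of paths with prescribed sum process.
-/

open Finset

namespace Helper11.Conn

section Tdef
variable {S : Type*} [Fintype S]

/-- backward transfer vectors -/
def T (κ : S → S → ℝ) (v : S → ℝ) : ℕ → (ℕ → S → ℝ) → S → ℝ
  | 0, ψ => fun s => ψ 0 s * v s
  | n + 1, ψ => fun s => ψ 0 s * ∑ t, κ s t * T κ v n (fun i => ψ (i + 1)) t

theorem path_sum (κ : S → S → ℝ) (v : S → ℝ) (n : ℕ) : ∀ (ψ : ℕ → S → ℝ) (u : S → ℝ),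
    ∑ p : Fin (n + 1) → S, u (p 0) * (∏ i : Fin n, κ (p i.castSucc) (p i.succ)) *
      (∏ i : Fin (n + 1), ψ i (p i)) * v (p (Fin.last n)) = ∑ s, u s * T κ v n ψ s := by
  induction n with
  | zero =>
    intro ψ u
    rw [← Fintype.sum_equiv (Equiv.funUnique (Fin 1) S).symm
      (fun s => u s * (ψ 0 s * v s)) _ ?_]
    · rfl
    · intro s
      simp [Equiv.funUnique]
      ring
  | succ n ih =>
    intro ψ u
    rw [← Fintype.sum_equiv (Fin.consEquiv (fun _ : Fin (n + 2) => S))
      (fun sp => u sp.1 * (κ sp.1 (sp.2 0) * ∏ i : Fin n, κ (sp.2 i.castSucc) (sp.2 i.succ)) *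
      (ψ 0 sp.1 * ∏ i : Fin (n + 1), ψ (i + 1) (sp.2 i)) * v (sp.2 (Fin.last n))) _ ?_]
    · rw [Fintype.sum_prod_type]
      apply Finset.sum_congr rfl
      intro s _
      have := ih (fun i => ψ (i + 1)) (fun t => κ s t)
      simp only [T]
      rw [← this]
      rw [Finset.mul_sum, Finset.mul_sum]
      apply Finset.sum_congr rfl
      intro p _
      ring
    · rintro ⟨s, p⟩
      have h0 : (Fin.consEquiv (fun _ : Fin (n + 2) => S)) (s, p) = (Fin.cons s p : Fin (n + 2) → S) :=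
        rfl
      rw [h0]
      have h1 : ∏ i : Fin (n + 1), κ ((Fin.cons s p : Fin (n + 2) → S) i.castSucc)
          ((Fin.cons s p : Fin (n + 2) → S) i.succ) =
          κ s (p 0) * ∏ i : Fin n, κ (p i.castSucc) (p i.succ) := by
        rw [Fin.prod_univ_succ]
        congr 1
      have h2 : ∏ i : Fin (n + 2), ψ i ((Fin.cons s p : Fin (n + 2) → S) i) =
          ψ 0 s * ∏ i : Fin (n + 1), ψ (i + 1) (p i) := by
        rw [Fin.prod_univ_succ]
        congr 1
      have h3 : (Fin.cons s p : Fin (n + 2) → S) (Fin.last (n + 1)) = p (Fin.last n) := rfl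
      rw [h1, h2, h3]
      rfl

end Tdef

/-- step weight -/
noncomputable def gg (a b : ℕ) : ℝ := if a ≤ b + 1 then 1 / ((b + 1 - a).factorial : ℝ) else 0

lemma gg_nn (a b : ℕ) : 0 ≤ gg a b := by
  unfold gg; split_ifs <;> positivity

lemma FH_supp (n : ℕ) (H : ℕ → ℕ) (a : ℤ) (h : FH n H a ≠ 0) : 0 ≤ a ∧ a ≤ H 0 := by
  cases n with
  | zero =>
    simp only [FH] at h
    split_ifs at h with h1
    · omega
    · exact absurd rfl h
  | succ n =>
    simp only [FH] at h
    split_ifs at h with h1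
    · simp only [Tr] at h
      split_ifs at h with h2
      · exact h2
      · exact absurd rfl h
    · exact absurd rfl h

lemma conv_sum (F : ℤ → ℝ) (H0 H1 s1 s2 : ℕ) (hF : ∀ a, F a ≠ 0 → 0 ≤ a ∧ a ≤ (H1 : ℤ))
    (hs : s1 + s2 = H0) (hX : H0 ≤ H1 + 2) :
    ∑ b ∈ range (H1 + 1), gg s1 b * gg s2 (H1 - b) * F b =
      1 / ((H1 + 2 - H0).factorial : ℝ) * (U^[H1 + 2 - H0] (Sh F)) s1 := by
  rw [Ui_apply, Finset.mul_sum]
  set X := H1 + 2 - H0 with hXdef
  have l : ∑ b ∈ range (H1 + 1), gg s1 b * gg s2 (H1 - b) * F b =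
      ∑ b ∈ (range (H1 + 1)).filter (fun b => s1 ≤ b + 1 ∧ s2 + b ≤ H1 + 1),
        gg s1 b * gg s2 (H1 - b) * F b := by
    rw [Finset.sum_filter_of_ne]
    intro b hb hne
    have hb' : b ≤ H1 := by simpa [Nat.lt_succ_iff] using hb
    have n1 : gg s1 b ≠ 0 := fun h => hne (by rw [h]; ring)
    have n2 : gg s2 (H1 - b) ≠ 0 := fun h => hne (by rw [h]; ring)
    unfold gg at n1 n2
    constructor
    · by_contra hc
      exact n1 (if_neg hc)
    · by_contra hc
      exact n2 (if_neg (by omega))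
  have r : ∑ i ∈ range (X + 1), 1 / (X.factorial : ℝ) * ((X.choose i : ℝ) * Sh F (s1 + i)) =
      ∑ i ∈ (range (X + 1)).filter (fun i => 1 ≤ s1 + i ∧ s1 + i ≤ H1 + 1),
        1 / (X.factorial : ℝ) * ((X.choose i : ℝ) * Sh F (s1 + i)) := by
    rw [Finset.sum_filter_of_ne]
    intro i hi hne
    have n1 : Sh F (s1 + i) ≠ 0 := fun h => hne (by rw [h]; ring)
    have := hF _ n1
    omega
  rw [l, r]
  apply Finset.sum_nbij' (fun b => b + 1 - s1) (fun i => s1 + i - 1)
  · intro b hb
    simp only [mem_filter, mem_range] at hb ⊢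
    omega
  · intro i hi
    simp only [mem_filter, mem_range] at hi ⊢
    omega
  · intro b hb
    simp only [mem_filter, mem_range] at hb ⊢
    omega
  · intro i hi
    simp only [mem_filter, mem_range] at hi ⊢
    omega
  · intro b hb
    simp only [mem_filter, mem_range] at hb
    have e1 : gg s1 b = 1 / ((b + 1 - s1).factorial : ℝ) := by
      unfold gg; rw [if_pos hb.2.1]
    have e2 : gg s2 (H1 - b) = 1 / ((X - (b + 1 - s1)).factorial : ℝ) := by
      unfold gg
      rw [if_pos (by omega)]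
      congr 3
      omega
    have e3 : Sh F ((s1 : ℤ) + ((b + 1 - s1 : ℕ) : ℤ)) = F b := by
      simp only [Sh]
      congr 1
      push_cast [Nat.cast_sub hb.2.1]
      ring
    rw [e1, e2, e3]
    have hle : b + 1 - s1 ≤ X := by omega
    rw [Nat.cast_choose ℝ hle]
    have f1 : (X.factorial : ℝ) ≠ 0 := by positivity
    field_simp

/-- constants -/
noncomputable def cH : ℕ → (ℕ → ℕ) → ℝ
  | 0, _ => 1
  | n + 1, H => 1 / ((H 1 + 2 - H 0).factorial : ℝ) * cH n (fun i => H (i + 1))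

lemma cH_pos (n : ℕ) : ∀ H, 0 < cH n H := by
  induction n with
  | zero => intro H; simp [cH]
  | succ n ih => intro H; simp only [cH]; have := ih (fun i => H (i + 1)); positivity

abbrev St (M : ℕ) := Fin (M + 1) × Fin (M + 1)

/-- total height -/
def dg {M : ℕ} (s : St M) : ℕ := (s.1 : ℕ) + (s.2 : ℕ)

noncomputable def k2 {M : ℕ} (s t : St M) : ℝ := gg s.1 t.1 * gg s.2 t.2

noncomputable def vP {M : ℕ} (s : St M) : ℝ := if (s.1 : ℕ) ≤ 1 ∧ (s.2 : ℕ) = 0 then 1 else 0

noncomputable def vQ {M : ℕ} (s : St M) : ℝ := if (s.1 : ℕ) = 0 ∧ (s.2 : ℕ) ≤ 1 then 1 else 0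

noncomputable def psiH {M : ℕ} (H : ℕ → ℕ) (i : ℕ) (s : St M) : ℝ := if dg s = H i then 1 else 0

lemma T_fiber {M : ℕ} (n : ℕ) : ∀ (H : ℕ → ℕ), (∀ i ≤ n, H i ≤ M) → ∀ s : St M,
    T k2 vP n (psiH H) s = if dg s = H 0 then cH n H * FH n H (s.1 : ℕ) else 0 := by
  induction n with
  | zero =>
    intro H hH s
    simp only [T, psiH, vP, cH, FH]
    by_cases h : dg s = H 0
    · rw [if_pos h, if_pos h]
      have hs : (s.1 : ℕ) + (s.2 : ℕ) = H 0 := h
      by_cases h2 : (s.1 : ℕ) ≤ 1 ∧ (s.2 : ℕ) = 0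
      · rw [if_pos h2, if_pos (by omega)]
      · rw [if_neg h2, if_neg (by omega)]
    · rw [if_neg h, if_neg h, zero_mul]
  | succ n ih =>
    intro H hH s
    have ih' := ih (fun i => H (i + 1)) (fun i hi => hH (i + 1) (by omega))
    simp only [T]
    have hshift : (fun i => psiH (M := M) H (i + 1)) = psiH (fun i => H (i + 1)) := rfl
    rw [hshift]
    have hp0 : psiH H 0 s = if dg s = H 0 then 1 else 0 := rfl
    rw [hp0]
    by_cases h : dg s = H 0
    swap
    · rw [if_neg h, if_neg h]; ring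
    rw [if_pos h, if_pos h, one_mul]
    have e1 : ∑ t : St M, k2 s t * T k2 vP n (psiH (fun i => H (i + 1))) t =
        ∑ t : St M, (if dg t = H 1 then
          k2 s t * (cH n (fun i => H (i + 1)) * FH n (fun i => H (i + 1)) (t.1 : ℕ)) else 0) := by
      apply Finset.sum_congr rfl
      intro t _
      rw [ih' t]
      simp only [Nat.zero_add]
      split_ifs
      · rfl
      · ring
    rw [e1, ← Finset.sum_filter]
    have e2 : ∑ t ∈ univ.filter (fun t : St M => dg t = H 1),
        k2 s t * (cH n (fun i => H (i + 1)) * FH n (fun i => H (i + 1)) (t.1 : ℕ)) =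
        cH n (fun i => H (i + 1)) * ∑ b ∈ range (H 1 + 1), gg s.1 b * gg s.2 (H 1 - b) *
          FH n (fun i => H (i + 1)) b := by
      rw [Finset.mul_sum]
      have hM : H 1 ≤ M := hH 1 (by omega)
      refine Finset.sum_bij' (fun t _ => (t.1 : ℕ)) (fun b hb => (⟨b, by
        have := mem_range.1 hb; omega⟩, ⟨H 1 - b, by omega⟩)) ?_ ?_ ?_ ?_ ?_
      · intro t ht
        have ht : (t.1 : ℕ) + (t.2 : ℕ) = H 1 := (mem_filter.1 ht).2
        simp only [mem_range]
        omega
      · intro b hb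
        have := mem_range.1 hb
        refine mem_filter.2 ⟨mem_univ _, ?_⟩
        show b + (H 1 - b) = H 1
        omega
      · intro t ht
        have ht : (t.1 : ℕ) + (t.2 : ℕ) = H 1 := (mem_filter.1 ht).2
        ext
        · rfl
        · simp only; omega
      · intro b hb
        rfl
      · intro t ht
        have ht : (t.1 : ℕ) + (t.2 : ℕ) = H 1 := (mem_filter.1 ht).2
        have : (t.2 : ℕ) = H 1 - (t.1 : ℕ) := by omega
        simp only [k2, ← this]
        ring
    rw [e2]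
    have hs : (s.1 : ℕ) + (s.2 : ℕ) = H 0 := h
    by_cases hX : H 0 ≤ H 1 + 2
    · rw [conv_sum _ (H 0) (H 1) s.1 s.2 (fun a ha => FH_supp n _ a ha) hs hX]
      simp only [cH, FH, if_pos hX]
      have : Tr (H 0) (U^[H 1 + 2 - H 0] (Sh (FH n fun i => H (i + 1)))) ((s.1 : ℕ) : ℤ) =
          (U^[H 1 + 2 - H 0] (Sh (FH n fun i => H (i + 1)))) ((s.1 : ℕ) : ℤ) := by
        simp only [Tr]
        rw [if_pos]
        omega
      rw [this]
      ring
    · simp only [FH, if_neg hX, mul_zero]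
      apply mul_eq_zero_of_right
      apply Finset.sum_eq_zero
      intro b hb
      have hb' : b ≤ H 1 := by simpa [Nat.lt_succ_iff] using hb
      have : gg s.1 b * gg s.2 (H 1 - b) = 0 := by
        unfold gg
        by_cases c1 : (s.1 : ℕ) ≤ b + 1
        · rw [if_neg (c := (s.2 : ℕ) ≤ H 1 - b + 1) (by omega), mul_zero]
        · rw [if_neg c1, zero_mul]
      rw [this, zero_mul]

lemma T_swap {M : ℕ} (n : ℕ) : ∀ (ψ : ℕ → St M → ℝ), (∀ i s, ψ i s = ψ i s.swap) → ∀ s : St M,
    T k2 vQ n ψ s = T k2 vP n ψ s.swap := by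
  induction n with
  | zero =>
    intro ψ hψ s
    simp only [T]
    rw [hψ 0 s]
    congr 1
    simp only [vQ, vP, Prod.fst_swap, Prod.snd_swap, and_comm]
  | succ n ih =>
    intro ψ hψ s
    simp only [T]
    rw [hψ 0 s]
    congr 1
    apply Fintype.sum_equiv (Equiv.prodComm (Fin (M + 1)) (Fin (M + 1)))
    intro t
    rw [ih (fun i => ψ (i + 1)) (fun i s => hψ (i + 1) s) t]
    simp only [k2, Equiv.prodComm_apply, Prod.fst_swap, Prod.snd_swap]
    rw [mul_comm (gg _ _)]

end Helper11.Conn
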