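import Mathlib
import Pool.Agent.Helper11_Conn.Path

/-!
The four functions theorem applied to pairs of excursions.
-/

open Finset

namespace Helper11.Conn

lemma fiber_swap {ι γ : Type*} [Fintype ι] [DecidableEq γ] (g : ι → γ) (a b : ι → ℝ) (φ : γ → ℝ)
    (h : ∀ c, ∑ p ∈ univ.filter (fun p => g p = c), a p = 0 →
      ∑ p ∈ univ.filter (fun p => g p = c), b p = 0) :
    ∑ p, a p * (φ (g p) * ((∑ p' ∈ univ.filter (fun p' => g p' = g p), b p') /
      (∑ p' ∈ univ.filter (fun p' => g p' = g p), a p'))) = ∑ p, b p * φ (g p) := by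
  classical
  have e1 : ∀ f : ι → ℝ, ∑ p, f p =
      ∑ c ∈ univ.image g, ∑ p ∈ univ.filter (fun p => g p = c), f p := by
    intro f
    exact (Finset.sum_fiberwise_of_maps_to (fun p _ => mem_image_of_mem g (mem_univ p)) f).symm
  rw [e1, e1 (fun p => b p * φ (g p))]
  apply Finset.sum_congr rfl
  intro c _
  have e2 : ∑ p ∈ univ.filter (fun p => g p = c), a p * (φ (g p) *
      ((∑ p' ∈ univ.filter (fun p' => g p' = g p), b p') /
      (∑ p' ∈ univ.filter (fun p' => g p' = g p), a p'))) =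
      ∑ p ∈ univ.filter (fun p => g p = c), a p * (φ c *
      ((∑ p' ∈ univ.filter (fun p' => g p' = c), b p') /
      (∑ p' ∈ univ.filter (fun p' => g p' = c), a p'))) := by
    apply Finset.sum_congr rfl
    intro p hp
    rw [(mem_filter.1 hp).2]
  have e3 : ∑ p ∈ univ.filter (fun p => g p = c), b p * φ (g p) =
      ∑ p ∈ univ.filter (fun p => g p = c), b p * φ c := by
    apply Finset.sum_congr rfl
    intro p hp
    rw [(mem_filter.1 hp).2]
  rw [e2, e3, ← Finset.sum_mul, ← Finset.sum_mul]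
  by_cases hA : ∑ p ∈ univ.filter (fun p => g p = c), a p = 0
  · rw [hA, h c hA]; simp
  · field_simp

lemma fact_ineq (m s t : ℕ) :
    (m + s).factorial * (m + t).factorial ≤ (m + s + t).factorial * m.factorial := by
  induction t with
  | zero => simp
  | succ t ih =>
    have e1 : (m + (t + 1)).factorial = (m + t + 1) * (m + t).factorial := by
      rw [← Nat.add_assoc, Nat.factorial_succ]
    have e2 : (m + s + (t + 1)).factorial = (m + s + t + 1) * (m + s + t).factorial := by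
      rw [← Nat.add_assoc, Nat.factorial_succ]
    rw [e1, e2]
    calc (m + s).factorial * ((m + t + 1) * (m + t).factorial)
        = (m + t + 1) * ((m + s).factorial * (m + t).factorial) := by ring
      _ ≤ (m + s + t + 1) * ((m + s + t).factorial * m.factorial) :=
          Nat.mul_le_mul (by omega) ih
      _ = _ := by ring

lemma gg_aux (a b c d : ℕ) (h1 : a ≤ c) (h2 : d ≤ b) :
    gg a b * gg c d ≤ gg a d * gg c b := by
  by_cases h : c ≤ d + 1
  · unfold gg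
    rw [if_pos (show a ≤ b + 1 by omega), if_pos h, if_pos (show a ≤ d + 1 by omega),
      if_pos (show c ≤ b + 1 by omega)]
    have key := fact_ineq (d + 1 - c) (c - a) (b - d)
    have e1 : d + 1 - c + (c - a) = d + 1 - a := by omega
    have e2 : d + 1 - c + (b - d) = b + 1 - c := by omega
    have e3 : d + 1 - c + (c - a) + (b - d) = b + 1 - a := by omega
    rw [e3, e1, e2] at key
    rw [div_mul_div_comm, div_mul_div_comm]
    apply div_le_div_of_nonneg_left (by norm_num) (by positivity)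
    exact_mod_cast key
  · have : gg c d = 0 := by unfold gg; rw [if_neg h]
    rw [this, mul_zero]
    exact mul_nonneg (gg_nn _ _) (gg_nn _ _)

lemma gg_tp2 (a b c d : ℕ) : gg a b * gg c d ≤ gg (min a c) (min b d) * gg (max a c) (max b d) := by
  rcases le_total a c with h1 | h1 <;> rcases le_total b d with h2 | h2
  · rw [min_eq_left h1, min_eq_left h2, max_eq_right h1, max_eq_right h2]
  · rw [min_eq_left h1, min_eq_right h2, max_eq_right h1, max_eq_left h2]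
    exact gg_aux a b c d h1 h2
  · rw [min_eq_right h1, min_eq_left h2, max_eq_left h1, max_eq_right h2]
    rw [mul_comm]
    exact gg_aux c d a b h1 h2
  · rw [min_eq_right h1, min_eq_right h2, max_eq_left h1, max_eq_left h2, mul_comm]

section
variable {M n : ℕ}

lemma k2_nn (s t : St M) : 0 ≤ k2 s t := mul_nonneg (gg_nn _ _) (gg_nn _ _)

lemma k2_tp2 (s t s' t' : St M) : k2 s t * k2 s' t' ≤ k2 (s ⊓ s') (t ⊓ t') * k2 (s ⊔ s') (t ⊔ t') := by
  unfold k2
  have h1 := gg_tp2 s.1 t.1 s'.1 t'.1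
  have h2 := gg_tp2 s.2 t.2 s'.2 t'.2
  have e1 : (((s ⊓ s').1 : Fin (M + 1)) : ℕ) = min (s.1 : ℕ) (s'.1 : ℕ) := by
    simp [Prod.fst_inf]
  have e2 : (((s ⊓ s').2 : Fin (M + 1)) : ℕ) = min (s.2 : ℕ) (s'.2 : ℕ) := by
    simp [Prod.snd_inf]
  have e3 : (((s ⊔ s').1 : Fin (M + 1)) : ℕ) = max (s.1 : ℕ) (s'.1 : ℕ) := by
    simp [Prod.fst_sup]
  have e4 : (((s ⊔ s').2 : Fin (M + 1)) : ℕ) = max (s.2 : ℕ) (s'.2 : ℕ) := by
    simp [Prod.snd_sup]
  have e5 : (((t ⊓ t').1 : Fin (M + 1)) : ℕ) = min (t.1 : ℕ) (t'.1 : ℕ) := by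
    simp [Prod.fst_inf]
  have e6 : (((t ⊓ t').2 : Fin (M + 1)) : ℕ) = min (t.2 : ℕ) (t'.2 : ℕ) := by
    simp [Prod.snd_inf]
  have e7 : (((t ⊔ t').1 : Fin (M + 1)) : ℕ) = max (t.1 : ℕ) (t'.1 : ℕ) := by
    simp [Prod.fst_sup]
  have e8 : (((t ⊔ t').2 : Fin (M + 1)) : ℕ) = max (t.2 : ℕ) (t'.2 : ℕ) := by
    simp [Prod.snd_sup]
  rw [e1, e2, e3, e4, e5, e6, e7, e8]
  calc gg s.1 t.1 * gg s.2 t.2 * (gg s'.1 t'.1 * gg s'.2 t'.2)
      = (gg s.1 t.1 * gg s'.1 t'.1) * (gg s.2 t.2 * gg s'.2 t'.2) := by ring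
    _ ≤ _ := mul_le_mul h1 h2 (mul_nonneg (gg_nn _ _) (gg_nn _ _))
        (mul_nonneg (gg_nn _ _) (gg_nn _ _))
    _ = _ := by ring

/-- initial weight -/
noncomputable def u2 (s : St M) : ℝ := if (s.2 : ℕ) = 0 then 1 / (((s.1 : ℕ) + 1).factorial : ℝ) else 0

lemma u2_nn (s : St M) : 0 ≤ u2 s := by unfold u2; split_ifs <;> positivity

lemma u2_mod (s s' : St M) : u2 s * u2 s' ≤ u2 (s ⊓ s') * u2 (s ⊔ s') := by
  unfold u2
  have e1 : (((s ⊓ s').1 : Fin (M + 1)) : ℕ) = min (s.1 : ℕ) (s'.1 : ℕ) := by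
    simp [Prod.fst_inf]
  have e2 : (((s ⊓ s').2 : Fin (M + 1)) : ℕ) = min (s.2 : ℕ) (s'.2 : ℕ) := by
    simp [Prod.snd_inf]
  have e3 : (((s ⊔ s').1 : Fin (M + 1)) : ℕ) = max (s.1 : ℕ) (s'.1 : ℕ) := by
    simp [Prod.fst_sup]
  have e4 : (((s ⊔ s').2 : Fin (M + 1)) : ℕ) = max (s.2 : ℕ) (s'.2 : ℕ) := by
    simp [Prod.snd_sup]
  rw [e1, e2, e3, e4]
  by_cases h1 : (s.2 : ℕ) = 0
  · by_cases h2 : (s'.2 : ℕ) = 0
    · rw [h1, h2]
      simp only [min_self, max_self, if_true]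
      rcases le_total (s.1 : ℕ) (s'.1 : ℕ) with h | h
      · rw [min_eq_left h, max_eq_right h]
      · rw [min_eq_right h, max_eq_left h, mul_comm]
    · rw [if_neg h2, mul_zero]
      apply mul_nonneg <;> split_ifs <;> positivity
  · rw [if_neg h1, zero_mul]
    apply mul_nonneg <;> split_ifs <;> positivity

lemma vP_nn (s : St M) : 0 ≤ vP s := by unfold vP; split_ifs <;> norm_num
lemma vQ_nn (s : St M) : 0 ≤ vQ s := by unfold vQ; split_ifs <;> norm_num

lemma vP_mod (s s' : St M) : vP s * vP s' ≤ vP (s ⊓ s') * vP (s ⊔ s') := by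
  unfold vP
  have e1 : (((s ⊓ s').1 : Fin (M + 1)) : ℕ) = min (s.1 : ℕ) (s'.1 : ℕ) := by
    simp [Prod.fst_inf]
  have e2 : (((s ⊓ s').2 : Fin (M + 1)) : ℕ) = min (s.2 : ℕ) (s'.2 : ℕ) := by
    simp [Prod.snd_inf]
  have e3 : (((s ⊔ s').1 : Fin (M + 1)) : ℕ) = max (s.1 : ℕ) (s'.1 : ℕ) := by
    simp [Prod.fst_sup]
  have e4 : (((s ⊔ s').2 : Fin (M + 1)) : ℕ) = max (s.2 : ℕ) (s'.2 : ℕ) := by
    simp [Prod.snd_sup]
  rw [e1, e2, e3, e4]
  by_cases h1 : (s.1 : ℕ) ≤ 1 ∧ (s.2 : ℕ) = 0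
  · by_cases h2 : (s'.1 : ℕ) ≤ 1 ∧ (s'.2 : ℕ) = 0
    · rw [if_pos h1, if_pos h2, if_pos (by omega), if_pos (by omega)]
    · rw [if_neg h2, mul_zero]
      apply mul_nonneg <;> split_ifs <;> norm_num
  · rw [if_neg h1, zero_mul]
    apply mul_nonneg <;> split_ifs <;> norm_num

/-- the weight without `q` and end condition -/
noncomputable def m0 (p : Fin (n + 1) → St M) : ℝ :=
  u2 (p 0) * ∏ i : Fin n, k2 (p i.castSucc) (p i.succ)

/-- total area -/
def DD (p : Fin (n + 1) → St M) : ℕ := ∑ i, dg (p i)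

noncomputable def muP (q : ℝ) (p : Fin (n + 1) → St M) : ℝ := m0 p * q ^ (DD p) * vP (p (Fin.last n))
noncomputable def muQ (q : ℝ) (p : Fin (n + 1) → St M) : ℝ := m0 p * q ^ (DD p) * vQ (p (Fin.last n))

lemma m0_nn (p : Fin (n + 1) → St M) : 0 ≤ m0 p :=
  mul_nonneg (u2_nn _) (Finset.prod_nonneg fun _ _ => k2_nn _ _)

lemma m0_mod (p p' : Fin (n + 1) → St M) : m0 p * m0 p' ≤ m0 (p ⊓ p') * m0 (p ⊔ p') := by
  unfold m0
  have h1 := u2_mod (p 0) (p' 0)
  have h2 : (∏ i : Fin n, k2 (p i.castSucc) (p i.succ)) * (∏ i : Fin n, k2 (p' i.castSucc) (p' i.succ))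
      ≤ (∏ i : Fin n, k2 ((p ⊓ p') i.castSucc) ((p ⊓ p') i.succ)) *
        (∏ i : Fin n, k2 ((p ⊔ p') i.castSucc) ((p ⊔ p') i.succ)) := by
    rw [← Finset.prod_mul_distrib, ← Finset.prod_mul_distrib]
    apply Finset.prod_le_prod
    · intro i _
      exact mul_nonneg (k2_nn _ _) (k2_nn _ _)
    · intro i _
      exact k2_tp2 _ _ _ _
  calc u2 (p 0) * (∏ i : Fin n, k2 (p i.castSucc) (p i.succ)) *
        (u2 (p' 0) * ∏ i : Fin n, k2 (p' i.castSucc) (p' i.succ))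
      = (u2 (p 0) * u2 (p' 0)) * ((∏ i : Fin n, k2 (p i.castSucc) (p i.succ)) *
        (∏ i : Fin n, k2 (p' i.castSucc) (p' i.succ))) := by ring
    _ ≤ (u2 (p 0 ⊓ p' 0) * u2 (p 0 ⊔ p' 0)) * _ :=
        mul_le_mul h1 h2 (mul_nonneg (Finset.prod_nonneg fun _ _ => k2_nn _ _)
          (Finset.prod_nonneg fun _ _ => k2_nn _ _)) (mul_nonneg (u2_nn _) (u2_nn _))
    _ = _ := by simp only [Pi.inf_apply, Pi.sup_apply]; ring

lemma dg_mod (s s' : St M) : dg s + dg s' = dg (s ⊓ s') + dg (s ⊔ s') := by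
  unfold dg
  have e1 : (((s ⊓ s').1 : Fin (M + 1)) : ℕ) = min (s.1 : ℕ) (s'.1 : ℕ) := by
    simp [Prod.fst_inf]
  have e2 : (((s ⊓ s').2 : Fin (M + 1)) : ℕ) = min (s.2 : ℕ) (s'.2 : ℕ) := by
    simp [Prod.snd_inf]
  have e3 : (((s ⊔ s').1 : Fin (M + 1)) : ℕ) = max (s.1 : ℕ) (s'.1 : ℕ) := by
    simp [Prod.fst_sup]
  have e4 : (((s ⊔ s').2 : Fin (M + 1)) : ℕ) = max (s.2 : ℕ) (s'.2 : ℕ) := by
    simp [Prod.snd_sup]
  rw [e1, e2, e3, e4]
  omega

lemma dg_mono {s s' : St M} (h : s ≤ s') : dg s ≤ dg s' := by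
  unfold dg
  have h1 : (s.1 : ℕ) ≤ s'.1 := h.1
  have h2 : (s.2 : ℕ) ≤ s'.2 := h.2
  omega

lemma DD_mod (p p' : Fin (n + 1) → St M) : DD p + DD p' = DD (p ⊓ p') + DD (p ⊔ p') := by
  unfold DD
  rw [← Finset.sum_add_distrib, ← Finset.sum_add_distrib]
  exact Finset.sum_congr rfl fun i _ => dg_mod _ _

lemma DD_mono {p p' : Fin (n + 1) → St M} (h : p ≤ p') : DD p ≤ DD p' :=
  Finset.sum_le_sum fun i _ => dg_mono (h i)

lemma muP_nn {q : ℝ} (hq : 0 ≤ q) (p : Fin (n + 1) → St M) : 0 ≤ muP q p :=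
  mul_nonneg (mul_nonneg (m0_nn _) (pow_nonneg hq _)) (vP_nn _)

lemma muQ_nn {q : ℝ} (hq : 0 ≤ q) (p : Fin (n + 1) → St M) : 0 ≤ muQ q p :=
  mul_nonneg (mul_nonneg (m0_nn _) (pow_nonneg hq _)) (vQ_nn _)

lemma muP_mod {q : ℝ} (hq : 0 ≤ q) (p p' : Fin (n + 1) → St M) :
    muP q p * muP q p' ≤ muP q (p ⊓ p') * muP q (p ⊔ p') := by
  unfold muP
  have h1 := m0_mod p p'
  have h2 := vP_mod (p (Fin.last n)) (p' (Fin.last n))
  have h3 : q ^ DD p * q ^ DD p' = q ^ DD (p ⊓ p') * q ^ DD (p ⊔ p') := by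
    rw [← pow_add, ← pow_add, DD_mod]
  calc m0 p * q ^ (DD p) * vP (p (Fin.last n)) * (m0 p' * q ^ (DD p') * vP (p' (Fin.last n)))
      = (m0 p * m0 p') * (q ^ DD p * q ^ DD p') * (vP (p (Fin.last n)) * vP (p' (Fin.last n))) := by
        ring
    _ = (m0 p * m0 p') * (q ^ DD (p ⊓ p') * q ^ DD (p ⊔ p')) *
        (vP (p (Fin.last n)) * vP (p' (Fin.last n))) := by rw [h3]
    _ ≤ (m0 (p ⊓ p') * m0 (p ⊔ p')) * (q ^ DD (p ⊓ p') * q ^ DD (p ⊔ p')) *
        (vP (p (Fin.last n) ⊓ p' (Fin.last n)) * vP (p (Fin.last n) ⊔ p' (Fin.last n))) := by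
        apply mul_le_mul
        · exact mul_le_mul_of_nonneg_right h1 (by positivity)
        · exact h2
        · exact mul_nonneg (vP_nn _) (vP_nn _)
        · have := m0_nn (p ⊓ p')
          have := m0_nn (p ⊔ p')
          positivity
    _ = _ := by simp only [Pi.inf_apply, Pi.sup_apply]; ring

/-- sum sequence extended by zero -/
def ext (c : Fin (n + 1) → ℕ) : ℕ → ℕ := fun i => if h : i < n + 1 then c ⟨i, h⟩ else 0

lemma ext_fin (c : Fin (n + 1) → ℕ) (i : Fin (n + 1)) : ext c i = c i := by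
  unfold ext; rw [dif_pos i.2]

/-- sum sequence of a pair of paths -/
def gs (p : Fin (n + 1) → St M) : Fin (n + 1) → ℕ := fun i => dg (p i)

lemma m0_supp (p : Fin (n + 1) → St M) (h : m0 p ≠ 0) :
    ∀ i < n, ext (gs p) i ≤ ext (gs p) (i + 1) + 2 := by
  intro i hi
  have h1 : ∏ i : Fin n, k2 (p i.castSucc) (p i.succ) ≠ 0 := fun h0 => h (by
    unfold m0; rw [h0, mul_zero])
  have h2 := Finset.prod_ne_zero_iff.1 h1 ⟨i, hi⟩ (mem_univ _)
  unfold k2 at h2
  have h3 : gg (p (Fin.castSucc ⟨i, hi⟩)).1 (p (Fin.succ ⟨i, hi⟩)).1 ≠ 0 := left_ne_zero_of_mul h2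
  have h4 : gg (p (Fin.castSucc ⟨i, hi⟩)).2 (p (Fin.succ ⟨i, hi⟩)).2 ≠ 0 := right_ne_zero_of_mul h2
  unfold gg at h3 h4
  have h5 : ((p (Fin.castSucc ⟨i, hi⟩)).1 : ℕ) ≤ (p (Fin.succ ⟨i, hi⟩)).1 + 1 := by
    by_contra hc; exact h3 (if_neg hc)
  have h6 : ((p (Fin.castSucc ⟨i, hi⟩)).2 : ℕ) ≤ (p (Fin.succ ⟨i, hi⟩)).2 + 1 := by
    by_contra hc; exact h4 (if_neg hc)
  unfold ext
  rw [dif_pos (by omega : i < n + 1), dif_pos (by omega : i + 1 < n + 1)]
  unfold gs dg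
  have e1 : (⟨i, by omega⟩ : Fin (n + 1)) = Fin.castSucc ⟨i, hi⟩ := rfl
  have e2 : (⟨i + 1, by omega⟩ : Fin (n + 1)) = Fin.succ ⟨i, hi⟩ := rfl
  rw [e1, e2]
  omega

lemma bound_of_val (H : ℕ → ℕ) (n : ℕ) (h : ∀ i < n, H i ≤ H (i + 1) + 2) (hn : H n ≤ 1) :
    ∀ i ≤ n, H i ≤ 2 * (n - i) + 1 := by
  intro i hi
  induction hk : n - i generalizing i with
  | zero =>
    have : i = n := by omega
    rw [this]; omega
  | succ k ih =>
    have h1 := ih (i + 1) (by omega) (by omega)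
    have h2 := h i (by omega)
    omega

lemma prod_psiH (c : Fin (n + 1) → ℕ) (p : Fin (n + 1) → St M) :
    ∏ i : Fin (n + 1), psiH (ext c) i (p i) = if gs p = c then 1 else 0 := by
  unfold psiH
  have : ∀ i : Fin (n + 1), (if dg (p i) = ext c i then (1 : ℝ) else 0) =
      if dg (p i) = c i then 1 else 0 := by
    intro i; rw [ext_fin]
  rw [Finset.prod_congr rfl (fun i _ => this i), Fintype.prod_ite_zero]
  simp only [Finset.prod_const_one]
  congr 1
  rw [eq_iff_iff, funext_iff]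
  rfl

lemma sum_fiber_aux (v : St M → ℝ) (q : ℝ) (c : Fin (n + 1) → ℕ) :
    ∑ p ∈ univ.filter (fun p : Fin (n + 1) → St M => gs p = c),
      m0 p * q ^ (DD p) * v (p (Fin.last n)) =
    q ^ (∑ i, c i) * ∑ s, u2 s * T k2 v n (psiH (ext c)) s := by
  rw [← path_sum, Finset.sum_filter, Finset.mul_sum]
  apply Finset.sum_congr rfl
  intro p _
  rw [prod_psiH]
  by_cases h : gs p = c
  · rw [if_pos h, if_pos h]
    have : DD p = ∑ i, c i := by
      unfold DD; rw [← h]; rfl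
    rw [this]
    unfold m0
    ring
  · rw [if_neg h, if_neg h]; ring

/-- constants in the fibre formula -/
noncomputable def gc (q : ℝ) (c : Fin (n + 1) → ℕ) : ℝ :=
  q ^ (∑ i, c i) * (1 / ((c 0 + 1).factorial : ℝ) * cH n (ext c))

lemma gc_pos {q : ℝ} (hq : 0 < q) (c : Fin (n + 1) → ℕ) : 0 < gc q c := by
  unfold gc
  have := cH_pos n (ext c)
  positivity

lemma sum_u2 (f : St M → ℝ) (H0 : ℕ) (hM : H0 ≤ M) :
    ∑ s : St M, u2 s * (if dg s = H0 then f s else 0) =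
      1 / ((H0 + 1).factorial : ℝ) * f (⟨H0, by omega⟩, ⟨0, by omega⟩) := by
  rw [Finset.sum_eq_single (⟨H0, by omega⟩, ⟨0, by omega⟩)]
  · have : dg ((⟨H0, by omega⟩, ⟨0, by omega⟩) : St M) = H0 := rfl
    rw [if_pos this]
    unfold u2
    rw [if_pos rfl]
  · intro s _ hs
    by_cases h1 : dg s = H0
    · have h2 : ¬ (s.2 : ℕ) = 0 := by
        intro h2
        apply hs
        have h3 : (s.1 : ℕ) + (s.2 : ℕ) = H0 := h1
        ext
        · show (s.1 : ℕ) = H0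
          omega
        · show (s.2 : ℕ) = 0
          exact h2
      unfold u2
      rw [if_neg h2, zero_mul]
    · rw [if_neg h1, mul_zero]
  · intro h; exact absurd (mem_univ _) h

lemma NP_eq (q : ℝ) (c : Fin (n + 1) → ℕ) (hc : ∀ i ≤ n, ext c i ≤ M) :
    ∑ p ∈ univ.filter (fun p : Fin (n + 1) → St M => gs p = c), muP q p =
      gc q c * FH n (ext c) (ext c 0) := by
  have h1 : ∑ p ∈ univ.filter (fun p : Fin (n + 1) → St M => gs p = c), muP q p =
    ∑ p ∈ univ.filter (fun p : Fin (n + 1) → St M => gs p = c),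
      m0 p * q ^ (DD p) * vP (p (Fin.last n)) := rfl
  rw [h1, sum_fiber_aux]
  have h2 : ∀ s : St M, u2 s * T k2 vP n (psiH (ext c)) s =
      u2 s * (if dg s = ext c 0 then cH n (ext c) * FH n (ext c) ((s.1 : ℕ) : ℤ) else 0) := by
    intro s; rw [T_fiber n (ext c) hc s]
  rw [Finset.sum_congr rfl (fun s _ => h2 s)]
  rw [sum_u2 (fun s => cH n (ext c) * FH n (ext c) ((s.1 : ℕ) : ℤ)) (ext c 0) (hc 0 (by omega))]
  have e0 : ext c 0 = c 0 := ext_fin c 0
  unfold gc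
  simp only [e0]
  ring

lemma NQ_eq (q : ℝ) (c : Fin (n + 1) → ℕ) (hc : ∀ i ≤ n, ext c i ≤ M) :
    ∑ p ∈ univ.filter (fun p : Fin (n + 1) → St M => gs p = c), muQ q p =
      gc q c * FH n (ext c) 0 := by
  have h1 : ∑ p ∈ univ.filter (fun p : Fin (n + 1) → St M => gs p = c), muQ q p =
    ∑ p ∈ univ.filter (fun p : Fin (n + 1) → St M => gs p = c),
      m0 p * q ^ (DD p) * vQ (p (Fin.last n)) := rfl
  rw [h1, sum_fiber_aux]
  have hsw : ∀ (i : ℕ) (s : St M), psiH (ext c) i s = psiH (ext c) i s.swap := by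
    intro i s
    unfold psiH dg
    simp only [Prod.fst_swap, Prod.snd_swap]
    rw [Nat.add_comm]
  have h2 : ∀ s : St M, u2 s * T k2 vQ n (psiH (ext c)) s =
      u2 s * (if dg s = ext c 0 then cH n (ext c) * FH n (ext c) ((s.2 : ℕ) : ℤ) else 0) := by
    intro s
    rw [T_swap n _ hsw s, T_fiber n (ext c) hc s.swap]
    have : dg s.swap = dg s := by
      unfold dg
      simp only [Prod.fst_swap, Prod.snd_swap]
      rw [Nat.add_comm]
    rw [this]
    rfl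
  rw [Finset.sum_congr rfl (fun s _ => h2 s)]
  rw [sum_u2 (fun s => cH n (ext c) * FH n (ext c) ((s.2 : ℕ) : ℤ)) (ext c 0) (hc 0 (by omega))]
  have e0 : ext c 0 = c 0 := ext_fin c 0
  unfold gc
  simp only [e0]
  simp
  ring

/-- ratio -/
noncomputable def eta (q : ℝ) (p : Fin (n + 1) → St M) : ℝ :=
  (∑ p' ∈ univ.filter (fun p' : Fin (n + 1) → St M => gs p' = gs p), muQ q p') /
      (∑ p' ∈ univ.filter (fun p' : Fin (n + 1) → St M => gs p' = gs p), muP q p')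

lemma last_ext (p : Fin (n + 1) → St M) : ext (gs p) n = dg (p (Fin.last n)) := by
  unfold ext; rw [dif_pos (by omega)]; rfl

lemma supp_of_muP {q : ℝ} (p : Fin (n + 1) → St M) (h : muP q p ≠ 0) :
    (∀ i < n, ext (gs p) i ≤ ext (gs p) (i + 1) + 2) ∧ ext (gs p) n ≤ 1 := by
  constructor
  · apply m0_supp
    intro h0
    exact h (by unfold muP; rw [h0]; ring)
  · rw [last_ext]
    have : vP (p (Fin.last n)) ≠ 0 := fun h0 => h (by unfold muP; rw [h0]; ring)
    unfold vP at this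
    have h2 : ((p (Fin.last n)).1 : ℕ) ≤ 1 ∧ ((p (Fin.last n)).2 : ℕ) = 0 := by
      by_contra hc; exact this (if_neg hc)
    unfold dg
    omega

lemma supp_of_muQ {q : ℝ} (p : Fin (n + 1) → St M) (h : muQ q p ≠ 0) :
    (∀ i < n, ext (gs p) i ≤ ext (gs p) (i + 1) + 2) ∧ ext (gs p) n ≤ 1 := by
  constructor
  · apply m0_supp
    intro h0
    exact h (by unfold muQ; rw [h0]; ring)
  · rw [last_ext]
    have : vQ (p (Fin.last n)) ≠ 0 := fun h0 => h (by unfold muQ; rw [h0]; ring)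
    unfold vQ at this
    have h2 : ((p (Fin.last n)).1 : ℕ) = 0 ∧ ((p (Fin.last n)).2 : ℕ) ≤ 1 := by
      by_contra hc; exact this (if_neg hc)
    unfold dg
    omega

lemma eta_nn {q : ℝ} (hq : 0 ≤ q) (p : Fin (n + 1) → St M) : 0 ≤ eta q p :=
  div_nonneg (Finset.sum_nonneg fun _ _ => muQ_nn hq _) (Finset.sum_nonneg fun _ _ => muP_nn hq _)

lemma eta_anti {q : ℝ} (hq : 0 < q) (hM : 2 * n + 1 ≤ M) (p p' : Fin (n + 1) → St M) (hle : p ≤ p')
    (h : muP q p ≠ 0) (h' : muP q p' ≠ 0) : eta q p' ≤ eta q p := by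
  obtain ⟨s1, s2⟩ := supp_of_muP p h
  obtain ⟨s1', s2'⟩ := supp_of_muP p' h'
  have b := bound_of_val _ n s1 s2
  have b' := bound_of_val _ n s1' s2'
  have hc : ∀ i ≤ n, ext (gs p) i ≤ M := fun i hi => (b i hi).trans (by omega)
  have hc' : ∀ i ≤ n, ext (gs p') i ≤ M := fun i hi => (b' i hi).trans (by omega)
  have pos : 0 < ∑ p'' ∈ univ.filter (fun p'' : Fin (n + 1) → St M => gs p'' = gs p), muP q p'' := by
    apply Finset.sum_pos' (fun _ _ => muP_nn hq.le _)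
    exact ⟨p, mem_filter.2 ⟨mem_univ _, rfl⟩, lt_of_le_of_ne (muP_nn hq.le _) (Ne.symm h)⟩
  have pos' : 0 < ∑ p'' ∈ univ.filter (fun p'' : Fin (n + 1) → St M => gs p'' = gs p'), muP q p'' := by
    apply Finset.sum_pos' (fun _ _ => muP_nn hq.le _)
    exact ⟨p', mem_filter.2 ⟨mem_univ _, rfl⟩, lt_of_le_of_ne (muP_nn hq.le _) (Ne.symm h')⟩
  unfold eta
  rw [div_le_div_iff₀ pos' pos]
  rw [NP_eq q _ hc, NP_eq q _ hc', NQ_eq q _ hc, NQ_eq q _ hc']
  have hle' : ∀ i ≤ n, ext (gs p) i ≤ ext (gs p') i := by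
    intro i hi
    unfold ext
    rw [dif_pos (by omega), dif_pos (by omega)]
    exact dg_mono (hle _)
  have key := FH_ratio n (ext (gs p)) (ext (gs p')) hle' s1' s2'
  have g1 := gc_pos hq (gs p)
  have g2 := gc_pos hq (gs p')
  calc gc q (gs p') * FH n (ext (gs p')) 0 * (gc q (gs p) * FH n (ext (gs p)) (ext (gs p) 0))
      = (gc q (gs p) * gc q (gs p')) * (FH n (ext (gs p)) (ext (gs p) 0) * FH n (ext (gs p')) 0) := by
        ring
    _ ≤ (gc q (gs p) * gc q (gs p')) * (FH n (ext (gs p)) 0 * FH n (ext (gs p')) (ext (gs p') 0)) :=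
        mul_le_mul_of_nonneg_left key (by positivity)
    _ = _ := by ring

lemma NQ_zero {q : ℝ} (hq : 0 < q) (hM : 2 * n + 1 ≤ M) (c : Fin (n + 1) → ℕ)
    (h : ∑ p ∈ univ.filter (fun p : Fin (n + 1) → St M => gs p = c), muP q p = 0) :
    ∑ p ∈ univ.filter (fun p : Fin (n + 1) → St M => gs p = c), muQ q p = 0 := by
  by_contra hne
  obtain ⟨p, hp, hp2⟩ := Finset.exists_ne_zero_of_sum_ne_zero hne
  have hgp : gs p = c := (mem_filter.1 hp).2
  obtain ⟨s1, s2⟩ := supp_of_muQ p hp2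
  have b := bound_of_val _ n s1 s2
  have hc : ∀ i ≤ n, ext (gs p) i ≤ M := fun i hi => (b i hi).trans (by omega)
  rw [hgp] at hc
  rw [NP_eq q c hc] at h
  apply hne
  rw [NQ_eq q c hc]
  have g1 := gc_pos hq c
  have z : FH n (ext c) (ext c 0) = 0 := by
    rcases mul_eq_zero.1 h with h | h
    · exact absurd h g1.ne'
    · exact h
  have l := FH_zero_le n (ext c)
  have l2 := FH_nn n (ext c) 0
  have : FH n (ext c) 0 = 0 := by linarith
  rw [this, mul_zero]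

/-- The area inequality for pairs of paths. -/
theorem fkg_area {q : ℝ} (hq : 0 < q) (hM : 2 * n + 1 ≤ M) :
    (∑ p : Fin (n + 1) → St M, muQ q p * (DD p : ℝ)) * (∑ p : Fin (n + 1) → St M, muP q p) ≤
    (∑ p : Fin (n + 1) → St M, muQ q p) * (∑ p : Fin (n + 1) → St M, muP q p * (DD p : ℝ)) := by
  have A : ∀ φ : (Fin (n + 1) → ℕ) → ℝ, ∑ p : Fin (n + 1) → St M, muP q p * (φ (gs p) * eta q p) =
      ∑ p : Fin (n + 1) → St M, muQ q p * φ (gs p) := by
    intro φ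
    exact fiber_swap gs (muP q) (muQ q) φ (fun c h => NQ_zero hq hM c h)
  have hDD : ∀ p : Fin (n + 1) → St M, (DD p : ℝ) = (fun c : Fin (n + 1) → ℕ => ((∑ i, c i : ℕ) : ℝ)) (gs p) := by
    intro p; rfl
  have A1 : ∑ p : Fin (n + 1) → St M, muQ q p * (DD p : ℝ) =
      ∑ p : Fin (n + 1) → St M, muP q p * ((DD p : ℝ) * eta q p) := by
    have := A (fun c => ((∑ i, c i : ℕ) : ℝ))
    exact this.symm
  have A2 : ∑ p : Fin (n + 1) → St M, muQ q p =
      ∑ p : Fin (n + 1) → St M, muP q p * eta q p := by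
    have := A (fun c => 1)
    simp only [one_mul, mul_one] at this
    exact this.symm
  rw [A1, A2]
  apply four_functions_theorem_univ (fun p : Fin (n + 1) → St M => muP q p * ((DD p : ℝ) * eta q p))
    (fun p => muP q p) (fun p => muP q p * eta q p) (fun p => muP q p * (DD p : ℝ))
  · intro p
    have := muP_nn hq.le p
    have := eta_nn hq.le p
    show (0 : ℝ) ≤ _
    positivity
  · intro p; exact muP_nn hq.le p
  · intro p
    have := muP_nn hq.le p
    have := eta_nn hq.le p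
    show (0 : ℝ) ≤ _
    positivity
  · intro p
    have := muP_nn hq.le p
    show (0 : ℝ) ≤ _
    positivity
  · intro p p'
    have n1 := muP_nn hq.le p
    have n2 := muP_nn hq.le p'
    have n3 := muP_nn hq.le (p ⊓ p')
    have n4 := muP_nn hq.le (p ⊔ p')
    have n5 := eta_nn hq.le p
    have n6 := eta_nn hq.le (p ⊓ p')
    by_cases h1 : muP q p = 0
    · simp only [h1, zero_mul]; positivity
    by_cases h2 : muP q p' = 0
    · simp only [h2, mul_zero]; positivity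
    have hmod := muP_mod hq.le p p'
    have hpos : 0 < muP q p * muP q p' := by
      have a1 := lt_of_le_of_ne n1 (Ne.symm h1)
      have a2 := lt_of_le_of_ne n2 (Ne.symm h2)
      positivity
    have h3 : muP q (p ⊓ p') ≠ 0 := by
      intro h0; rw [h0, zero_mul] at hmod; linarith
    have he := eta_anti hq hM (p ⊓ p') p inf_le_left h3 h1
    have hd : (DD p : ℝ) ≤ DD (p ⊔ p') := by exact_mod_cast DD_mono le_sup_left
    calc muP q p * ((DD p : ℝ) * eta q p) * muP q p'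
        = (muP q p * muP q p') * (eta q p * DD p) := by ring
      _ ≤ (muP q (p ⊓ p') * muP q (p ⊔ p')) * (eta q (p ⊓ p') * DD (p ⊔ p')) := by
          apply mul_le_mul hmod
          · exact mul_le_mul he hd (by positivity) n6
          · positivity
          · positivity
      _ = _ := by ring

end

end Helper11.Conn
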