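import Mathlib
import Pool.Agent.Helper11_Conn.Fkg

/-!
The weighted path numbers `B q n x` and convexity of the logarithmic derivative of
`Z_m(q) = B q (m+1) 1`.
-/

open Finset

namespace Helper11.Conn

/-- weights of paths from `x` to `0` in `n` steps -/
noncomputable def B (q : ℝ) : ℕ → ℕ → ℝ
  | 0, x => if x = 0 then 1 else 0
  | _ + 1, 0 => 0
  | n + 1, x + 1 => q ^ x * ∑ k ∈ range (n + 1), 1 / (k.factorial : ℝ) * B q n (x + k)

lemma B_zero_of_lt (q : ℝ) (n : ℕ) : ∀ x, n < x → B q n x = 0 := by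
  induction n with
  | zero =>
    intro x hx
    simp only [B]
    rw [if_neg (by omega)]
  | succ n ih =>
    intro x hx
    obtain ⟨y, rfl⟩ : ∃ y, x = y + 1 := ⟨x - 1, by omega⟩
    simp only [B]
    rw [Finset.sum_eq_zero, mul_zero]
    intro k _
    rw [ih (y + k) (by omega), mul_zero]

lemma B_nn {q : ℝ} (hq : 0 ≤ q) (n : ℕ) : ∀ x, 0 ≤ B q n x := by
  induction n with
  | zero => intro x; simp only [B]; split_ifs <;> norm_num
  | succ n ih =>
    intro x
    cases x with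
    | zero => simp only [B]; exact le_refl _
    | succ x =>
      simp only [B]
      apply mul_nonneg (pow_nonneg hq _)
      apply Finset.sum_nonneg
      intro k _
      exact mul_nonneg (by positivity) (ih _)

lemma B_diag_pos {q : ℝ} (hq : 0 < q) (n : ℕ) : 0 < B q n n := by
  induction n with
  | zero => simp [B]
  | succ n ih =>
    simp only [B]
    apply mul_pos (pow_pos hq _)
    apply Finset.sum_pos' (fun k _ => mul_nonneg (by positivity) (B_nn hq.le _ _))
    exact ⟨0, by simp, by simpa using ih⟩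

lemma B_pos {q : ℝ} (hq : 0 < q) (n x : ℕ) (hx : x ≤ n) : 0 < B q (n + 1) (x + 1) := by
  simp only [B]
  apply mul_pos (pow_pos hq _)
  apply Finset.sum_pos' (fun k _ => mul_nonneg (by positivity) (B_nn hq.le _ _))
  refine ⟨n - x, by simp, ?_⟩
  have : x + (n - x) = n := by omega
  rw [this]
  have := B_diag_pos hq n
  positivity

lemma B_diff (n : ℕ) : ∀ x, Differentiable ℝ (fun q : ℝ => B q n x) := by
  induction n with
  | zero => intro x; simp only [B]; exact differentiable_const _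
  | succ n ih =>
    intro x
    cases x with
    | zero => simp only [B]; exact differentiable_const _
    | succ x =>
      simp only [B]
      apply Differentiable.mul
      · exact differentiable_pow x
      · apply Differentiable.fun_sum
        intro k _
        exact (ih _).const_mul _

/-- `Z_m(q)` -/
noncomputable def Zs (q : ℝ) (m : ℕ) : ℝ := B q (m + 1) 1

lemma Zs_pos {q : ℝ} (hq : 0 < q) (m : ℕ) : 0 < Zs q m := B_pos hq m 0 (Nat.zero_le _)

lemma Zs_diff (m : ℕ) : Differentiable ℝ (fun q : ℝ => Zs q m) := B_diff _ _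

lemma Zs_zero (q : ℝ) : Zs q 0 = 1 := by simp [Zs, B]

lemma Zs_one (q : ℝ) : Zs q 1 = 1 := by
  simp [Zs, B, Finset.sum_range_succ]

lemma gsum (f : ℕ → ℝ) (a M K Y : ℕ) (hf0 : f 0 = 0) (hfY : ∀ y, Y < y → f y = 0) (hY : Y ≤ M + 1)
    (hK : Y < K) :
    ∑ b : Fin (M + 1), gg a b * f ((b : ℕ) + 1) =
      ∑ k ∈ range K, 1 / (k.factorial : ℝ) * f (a + k) := by
  rw [Fin.sum_univ_eq_sum_range (fun b => gg a b * f (b + 1)) (M + 1)]
  have l : ∑ b ∈ range (M + 1), gg a b * f (b + 1) =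
      ∑ b ∈ (range (M + 1)).filter (fun b => a ≤ b + 1 ∧ b + 1 ≤ Y), gg a b * f (b + 1) := by
    rw [Finset.sum_filter_of_ne]
    intro b _ hne
    have n1 : gg a b ≠ 0 := fun h => hne (by rw [h]; ring)
    have n2 : f (b + 1) ≠ 0 := fun h => hne (by rw [h]; ring)
    unfold gg at n1
    constructor
    · by_contra hc
      exact n1 (if_neg hc)
    · by_contra hc
      exact n2 (hfY _ (by omega))
  have r : ∑ k ∈ range K, 1 / (k.factorial : ℝ) * f (a + k) =
      ∑ k ∈ (range K).filter (fun k => 1 ≤ a + k ∧ a + k ≤ Y), 1 / (k.factorial : ℝ) * f (a + k) := by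
    rw [Finset.sum_filter_of_ne]
    intro k _ hne
    have n2 : f (a + k) ≠ 0 := fun h => hne (by rw [h]; ring)
    constructor
    · by_contra hc
      have : a + k = 0 := by omega
      rw [this] at n2
      exact n2 hf0
    · by_contra hc
      exact n2 (hfY _ (by omega))
  rw [l, r]
  apply Finset.sum_nbij' (fun b => b + 1 - a) (fun k => a + k - 1)
  · intro b hb
    simp only [mem_filter, mem_range] at hb ⊢
    omega
  · intro k hk
    simp only [mem_filter, mem_range] at hk ⊢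
    omega
  · intro b hb
    simp only [mem_filter, mem_range] at hb ⊢
    omega
  · intro k hk
    simp only [mem_filter, mem_range] at hk ⊢
    omega
  · intro b hb
    simp only [mem_filter, mem_range] at hb
    unfold gg
    rw [if_pos hb.2.1]
    have : a + (b + 1 - a) = b + 1 := by omega
    rw [this]

section
variable {M : ℕ}

noncomputable def v0 (a : Fin (M + 1)) : ℝ := if (a : ℕ) = 0 then 1 else 0
noncomputable def v1 (a : Fin (M + 1)) : ℝ := if (a : ℕ) ≤ 1 then 1 else 0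
noncomputable def u1 (a : Fin (M + 1)) : ℝ := 1 / (((a : ℕ) + 1).factorial : ℝ)

/-- single path backward vector -/
noncomputable def T1 (q : ℝ) (v : Fin (M + 1) → ℝ) (n : ℕ) : Fin (M + 1) → ℝ :=
  T (fun a b : Fin (M + 1) => gg a b) v n (fun _ a => q ^ (a : ℕ))

lemma T1_succ (q : ℝ) (v : Fin (M + 1) → ℝ) (n : ℕ) (a : Fin (M + 1)) :
    T1 q v (n + 1) a = q ^ (a : ℕ) * ∑ b : Fin (M + 1), gg a b * T1 q v n b := rfl

lemma T1_zero (q : ℝ) (v : Fin (M + 1) → ℝ) (a : Fin (M + 1)) :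
    T1 q v 0 a = q ^ (a : ℕ) * v a := rfl

lemma T1_v0 (q : ℝ) (n : ℕ) (hn : n ≤ M) : ∀ a : Fin (M + 1),
    T1 q v0 n a = B q (n + 1) ((a : ℕ) + 1) := by
  induction n with
  | zero =>
    intro a
    rw [T1_zero]
    simp [B, v0]
  | succ n ih =>
    intro a
    rw [T1_succ]
    have h1 : ∀ b : Fin (M + 1), gg a b * T1 q v0 n b = gg a b * B q (n + 1) ((b : ℕ) + 1) := by
      intro b; rw [ih (by omega) b]
    rw [Finset.sum_congr rfl (fun b _ => h1 b)]
    rw [gsum (B q (n + 1)) a M (n + 2) (n + 1) rfl (fun y hy => B_zero_of_lt q _ y hy) (by omega)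
      (by omega)]
    simp only [B]

lemma T1_v1 (q : ℝ) (n : ℕ) (hn : n + 1 ≤ M) : ∀ a : Fin (M + 1),
    T1 q v1 n a = B q (n + 2) ((a : ℕ) + 1) := by
  induction n with
  | zero =>
    intro a
    rw [T1_zero]
    simp only [B, v1]
    congr 1
    rw [Finset.sum_range_succ, Finset.sum_range_one]
    rcases a with ⟨a, ha⟩
    simp only
    rcases a with _ | _ | a
    · simp [B]
    · simp [B]
    · rw [if_neg (by omega)]
      simp [B]
  | succ n ih =>
    intro a
    rw [T1_succ]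
    have h1 : ∀ b : Fin (M + 1), gg a b * T1 q v1 n b = gg a b * B q (n + 2) ((b : ℕ) + 1) := by
      intro b; rw [ih (by omega) b]
    rw [Finset.sum_congr rfl (fun b _ => h1 b)]
    rw [gsum (B q (n + 2)) a M (n + 3) (n + 2) rfl (fun y hy => B_zero_of_lt q _ y hy) (by omega)
      (by omega)]
    rw [show n + 1 + 2 = (n + 2) + 1 from rfl]
    rw [show B q (n + 2 + 1) ((a : ℕ) + 1) = q ^ (a : ℕ) * ∑ k ∈ range (n + 2 + 1),
      1 / (k.factorial : ℝ) * B q (n + 2) ((a : ℕ) + k) from rfl]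

lemma T_prod (q : ℝ) (v v' : Fin (M + 1) → ℝ) (n : ℕ) : ∀ s : St M,
    T k2 (fun s => v s.1 * v' s.2) n (fun _ s => q ^ (dg s)) s = T1 q v n s.1 * T1 q v' n s.2 := by
  induction n with
  | zero =>
    intro s
    rw [T1_zero, T1_zero]
    simp only [T, dg]
    rw [pow_add]; ring
  | succ n ih =>
    intro s
    rw [T1_succ, T1_succ]
    simp only [T]
    have h1 : ∀ t : St M, k2 s t * T k2 (fun s => v s.1 * v' s.2) n (fun _ s => q ^ (dg s)) t =
        (gg s.1 t.1 * T1 q v n t.1) * (gg s.2 t.2 * T1 q v' n t.2) := by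
      intro t; rw [ih t]; unfold k2; ring
    rw [Finset.sum_congr rfl (fun t _ => h1 t)]
    rw [Fintype.sum_prod_type]
    simp only [dg]
    rw [pow_add]
    rw [← Finset.sum_mul_sum]
    ring

lemma sum_mu (q : ℝ) (v v' : Fin (M + 1) → ℝ) (n : ℕ) :
    ∑ p : Fin (n + 1) → St M, m0 p * q ^ (DD p) * (v (p (Fin.last n)).1 * v' (p (Fin.last n)).2) =
      (∑ a, u1 a * T1 q v n a) * T1 q v' n 0 := by
  have h := path_sum (S := St M) k2 (fun s => v s.1 * v' s.2) n (fun _ s => q ^ (dg s)) u2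
  have h1 : ∀ p : Fin (n + 1) → St M, m0 p * q ^ (DD p) * (v (p (Fin.last n)).1 * v' (p (Fin.last n)).2)
      = u2 (p 0) * (∏ i : Fin n, k2 (p i.castSucc) (p i.succ)) *
      (∏ i : Fin (n + 1), q ^ (dg (p i))) * (v (p (Fin.last n)).1 * v' (p (Fin.last n)).2) := by
    intro p
    rw [Finset.prod_pow_eq_pow_sum]
    rfl
  rw [Finset.sum_congr rfl (fun p _ => h1 p), h]
  rw [Finset.sum_congr rfl (fun s _ => by rw [T_prod])]
  rw [Fintype.sum_prod_type, Finset.sum_mul]
  apply Finset.sum_congr rfl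
  intro a _
  rw [Finset.sum_eq_single 0]
  · simp only [u2, u1]
    rw [if_pos (by simp)]
    ring
  · intro b _ hb
    have : ¬ ((b : ℕ) = 0) := fun h => hb (Fin.ext h)
    simp only [u2]
    rw [if_neg this, zero_mul]
  · intro h; exact absurd (mem_univ _) h

lemma sum_u1_v0 (q : ℝ) (n : ℕ) (hn : n ≤ M) :
    ∑ a : Fin (M + 1), u1 a * T1 q v0 n a = Zs q (n + 1) := by
  have h1 : ∀ a : Fin (M + 1), u1 a * T1 q v0 n a = gg 0 a * B q (n + 1) ((a : ℕ) + 1) := by
    intro a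
    rw [T1_v0 q n hn a]
    congr 1
  rw [Finset.sum_congr rfl (fun a _ => h1 a)]
  rw [gsum (B q (n + 1)) 0 M (n + 2) (n + 1) rfl (fun y hy => B_zero_of_lt q _ y hy) (by omega)
      (by omega)]
  rw [Zs, show B q (n + 1 + 1) 1 = q ^ 0 * ∑ k ∈ range (n + 1 + 1),
      1 / (k.factorial : ℝ) * B q (n + 1) (0 + k) from rfl]
  rw [pow_zero, one_mul]

lemma sum_u1_v1 (q : ℝ) (n : ℕ) (hn : n + 1 ≤ M) :
    ∑ a : Fin (M + 1), u1 a * T1 q v1 n a = Zs q (n + 2) := by
  have h1 : ∀ a : Fin (M + 1), u1 a * T1 q v1 n a = gg 0 a * B q (n + 2) ((a : ℕ) + 1) := by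
    intro a
    rw [T1_v1 q n hn a]
    congr 1
  rw [Finset.sum_congr rfl (fun a _ => h1 a)]
  rw [gsum (B q (n + 2)) 0 M (n + 3) (n + 2) rfl (fun y hy => B_zero_of_lt q _ y hy) (by omega)
      (by omega)]
  rw [Zs, show B q (n + 2 + 1) 1 = q ^ 0 * ∑ k ∈ range (n + 2 + 1),
      1 / (k.factorial : ℝ) * B q (n + 2) (0 + k) from rfl]
  rw [pow_zero, one_mul]

lemma sum_muP (q : ℝ) (n : ℕ) (hn : n + 1 ≤ M) :
    ∑ p : Fin (n + 1) → St M, muP q p = Zs q (n + 2) * Zs q n := by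
  have h := sum_mu (M := M) q v1 v0 n
  rw [sum_u1_v1 q n hn, T1_v0 q n (by omega)] at h
  have e : B q (n + 1) (((0 : Fin (M + 1)) : ℕ) + 1) = Zs q n := rfl
  rw [e] at h
  rw [← h]
  apply Finset.sum_congr rfl
  intro p _
  unfold muP vP v1 v0
  congr 1
  by_cases h1 : ((p (Fin.last n)).1 : ℕ) ≤ 1
  · by_cases h2 : ((p (Fin.last n)).2 : ℕ) = 0
    · rw [if_pos ⟨h1, h2⟩, if_pos h1, if_pos h2, mul_one]
    · rw [if_neg (fun hh => h2 hh.2), if_neg h2, mul_zero]
  · rw [if_neg (fun hh => h1 hh.1), if_neg h1, zero_mul]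

lemma sum_muQ (q : ℝ) (n : ℕ) (hn : n + 1 ≤ M) :
    ∑ p : Fin (n + 1) → St M, muQ q p = Zs q (n + 1) * Zs q (n + 1) := by
  have h := sum_mu (M := M) q v0 v1 n
  rw [sum_u1_v0 q n (by omega), T1_v1 q n hn] at h
  have e : B q (n + 2) (((0 : Fin (M + 1)) : ℕ) + 1) = Zs q (n + 1) := rfl
  rw [e] at h
  rw [← h]
  apply Finset.sum_congr rfl
  intro p _
  unfold muQ vQ v1 v0
  congr 1
  by_cases h1 : ((p (Fin.last n)).1 : ℕ) = 0
  · by_cases h2 : ((p (Fin.last n)).2 : ℕ) ≤ 1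
    · rw [if_pos ⟨h1, h2⟩, if_pos h1, if_pos h2, mul_one]
    · rw [if_neg (fun hh => h2 hh.2), if_neg h2, mul_zero]
  · rw [if_neg (fun hh => h1 hh.1), if_neg h1, zero_mul]

end

/-- derivative of `Z_m` -/
noncomputable def Zd (q : ℝ) (m : ℕ) : ℝ := deriv (fun q : ℝ => Zs q m) q

lemma Zs_hasDeriv (q : ℝ) (m : ℕ) : HasDerivAt (fun q : ℝ => Zs q m) (Zd q m) q :=
  (Zs_diff m q).hasDerivAt

lemma hasDeriv_sum {ι : Type*} [Fintype ι] (a : ι → ℝ) (d : ι → ℕ) (b : ι → ℝ) (q : ℝ) (hq : 0 < q) :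
    HasDerivAt (fun q : ℝ => ∑ p, a p * q ^ (d p) * b p)
      ((∑ p, a p * q ^ (d p) * b p * (d p : ℝ)) / q) q := by
  rw [Finset.sum_div]
  apply HasDerivAt.fun_sum
  intro p _
  have h := ((hasDerivAt_pow (d p) q).const_mul (a p)).mul_const (b p)
  have e : a p * q ^ (d p) * b p * (d p : ℝ) / q = a p * (↑(d p) * q ^ (d p - 1)) * b p := by
    rcases Nat.eq_zero_or_pos (d p) with h0 | h0
    · rw [h0]; simp
    · have : q ^ (d p) = q ^ (d p - 1) * q := by
        rw [← pow_succ]; congr 1; omega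
      rw [this]
      field_simp
  rw [e]; exact h

/-- log-derivative -/
noncomputable def zeta (q : ℝ) (m : ℕ) : ℝ := Zd q m / Zs q m

theorem zeta_convex {q : ℝ} (hq : 0 < q) (n : ℕ) :
    2 * zeta q (n + 1) ≤ zeta q (n + 2) + zeta q n := by
  have key := fkg_area (M := 2 * n + 1) (n := n) hq le_rfl
  have sP : ∀ q : ℝ, ∑ p : Fin (n + 1) → St (2 * n + 1), muP q p = Zs q (n + 2) * Zs q n :=
    fun q => sum_muP q n (by omega)
  have sQ : ∀ q : ℝ, ∑ p : Fin (n + 1) → St (2 * n + 1), muQ q p = Zs q (n + 1) * Zs q (n + 1) :=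
    fun q => sum_muQ q n (by omega)
  have dP : HasDerivAt (fun q : ℝ => Zs q (n + 2) * Zs q n)
      ((∑ p : Fin (n + 1) → St (2 * n + 1), muP q p * (DD p : ℝ)) / q) q := by
    have := hasDeriv_sum (fun p : Fin (n + 1) → St (2 * n + 1) => m0 p) DD
      (fun p => vP (p (Fin.last n))) q hq
    have e : (fun q : ℝ => Zs q (n + 2) * Zs q n) = fun q : ℝ =>
        ∑ p : Fin (n + 1) → St (2 * n + 1), m0 p * q ^ (DD p) * vP (p (Fin.last n)) := by
      funext q; rw [← sP q]; rfl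
    rw [e]; exact this
  have dQ : HasDerivAt (fun q : ℝ => Zs q (n + 1) * Zs q (n + 1))
      ((∑ p : Fin (n + 1) → St (2 * n + 1), muQ q p * (DD p : ℝ)) / q) q := by
    have := hasDeriv_sum (fun p : Fin (n + 1) → St (2 * n + 1) => m0 p) DD
      (fun p => vQ (p (Fin.last n))) q hq
    have e : (fun q : ℝ => Zs q (n + 1) * Zs q (n + 1)) = fun q : ℝ =>
        ∑ p : Fin (n + 1) → St (2 * n + 1), m0 p * q ^ (DD p) * vQ (p (Fin.last n)) := by
      funext q; rw [← sQ q]; rfl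
    rw [e]; exact this
  have eP := dP.unique ((Zs_hasDeriv q (n + 2)).mul (Zs_hasDeriv q n))
  have eQ := dQ.unique ((Zs_hasDeriv q (n + 1)).mul (Zs_hasDeriv q (n + 1)))
  rw [sP, sQ] at key
  rw [div_eq_iff hq.ne'] at eP eQ
  rw [eP, eQ] at key
  have z0 := Zs_pos hq n
  have z1 := Zs_pos hq (n + 1)
  have z2 := Zs_pos hq (n + 2)
  unfold zeta
  set A0 := Zs q n
  set A1 := Zs q (n + 1)
  set A2 := Zs q (n + 2)
  set D0 := Zd q n
  set D1 := Zd q (n + 1)
  set D2 := Zd q (n + 2)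
  have k2 : (2 * D1 * A1 * (A2 * A0)) * q ≤ (A1 * A1 * (D2 * A0 + A2 * D0)) * q := by
    calc _ = (D1 * A1 + A1 * D1) * q * (A2 * A0) := by ring
      _ ≤ _ := key
      _ = _ := by ring
  have k3 := le_of_mul_le_mul_right k2 hq
  rw [div_add_div _ _ z2.ne' z0.ne', ← mul_div_assoc, div_le_div_iff₀ z1 (by positivity)]
  have k4 : A1 * (2 * D1 * (A2 * A0)) ≤ A1 * ((D2 * A0 + A2 * D0) * A1) := by
    calc _ = 2 * D1 * A1 * (A2 * A0) := by ring
      _ ≤ _ := k3
      _ = _ := by ring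
  exact le_of_mul_le_mul_left k4 z1

lemma zeta_zero (q : ℝ) : zeta q 0 = 0 := by
  have : (fun q : ℝ => Zs q 0) = fun _ => 1 := by funext q; exact Zs_zero q
  unfold zeta Zd
  rw [this]; simp

lemma zeta_one (q : ℝ) : zeta q 1 = 0 := by
  have : (fun q : ℝ => Zs q 1) = fun _ => 1 := by funext q; exact Zs_one q
  unfold zeta Zd
  rw [this]; simp

end Helper11.Conn
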