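import Mathlib
import Pool.Agent.Helper11_Conn.Zseq

/-!
Power series identities for the weighted numbers of connected graphs.
-/

open Finset PowerSeries

namespace Helper11.Conn

/-- `Φ(z) = ∑ q^(m choose 2) z^m / m!` -/
noncomputable def Phi (q : ℝ) : ℝ⟦X⟧ := PowerSeries.mk fun m => q ^ (m.choose 2) / (m.factorial : ℝ)

lemma coeff_Phi (q : ℝ) (m : ℕ) : coeff m (Phi q) = q ^ (m.choose 2) / (m.factorial : ℝ) := by
  simp [Phi]

lemma const_Phi (q : ℝ) : constantCoeff (Phi q) = 1 := by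
  rw [← coeff_zero_eq_constantCoeff_apply, coeff_Phi]; simp

lemma Phi_ne (q : ℝ) : Phi q ≠ 0 := by
  intro h
  have := const_Phi q
  rw [h] at this
  simp at this

/-- `P_x = Φ(q^x z) / Φ(z)` -/
noncomputable def P (q : ℝ) (x : ℕ) : ℝ⟦X⟧ := rescale (q ^ x) (Phi q) * (Phi q)⁻¹

lemma P_mul (q : ℝ) (x : ℕ) : P q x * Phi q = rescale (q ^ x) (Phi q) := by
  unfold P
  rw [mul_assoc, PowerSeries.inv_mul_cancel _ (by rw [const_Phi]; norm_num), mul_one]

lemma deriv_Phi (q : ℝ) : d⁄dX ℝ (Phi q) = rescale q (Phi q) := by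
  ext m
  rw [coeff_derivative, coeff_rescale, coeff_Phi, coeff_Phi]
  have e : (m + 1).choose 2 = m + m.choose 2 := by
    rw [Nat.choose_succ_succ' m 1, Nat.choose_one_right]
  rw [e, pow_add, Nat.factorial_succ]
  have h1 : (m.factorial : ℝ) ≠ 0 := by positivity
  have h2 : ((m : ℝ) + 1) ≠ 0 := by positivity
  push_cast
  field_simp

lemma deriv_rescale (a : ℝ) (f : ℝ⟦X⟧) : d⁄dX ℝ (rescale a f) = C a * rescale a (d⁄dX ℝ f) := by
  ext m
  rw [coeff_derivative, coeff_rescale, coeff_C_mul, coeff_rescale, coeff_derivative]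
  ring

lemma deriv_P (q : ℝ) (x : ℕ) : d⁄dX ℝ (P q x) = C (q ^ x) * P q (x + 1) - P q x * P q 1 := by
  apply mul_right_cancel₀ (Phi_ne q)
  have h := congrArg (d⁄dX ℝ) (P_mul q x)
  rw [Derivation.leibniz, deriv_rescale, deriv_Phi] at h
  simp only [smul_eq_mul] at h
  have h1 := P_mul q 1
  rw [pow_one] at h1
  have h2 := P_mul q (x + 1)
  have h3 : rescale (q ^ x) (rescale q (Phi q)) = rescale (q ^ (x + 1)) (Phi q) := by
    rw [rescale_rescale, pow_succ', ]
  rw [h3, ← h2, ← h1] at h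
  rw [sub_mul]
  linear_combination h

lemma P_add (q : ℝ) (x y : ℕ) : P q (x + y) = rescale (q ^ y) (P q x) * P q y := by
  apply mul_right_cancel₀ (Phi_ne q)
  rw [mul_assoc, P_mul, P_mul, ← map_mul, P_mul, rescale_rescale, ← pow_add]

/-- `Ψ_x` -/
noncomputable def Psi (α : ℝ) (x : ℕ) : ℝ⟦X⟧ := PowerSeries.mk fun i => α ^ i * B (1 + α) (x + i) x

lemma coeff_mul_congr (f g h : ℝ⟦X⟧) (m : ℕ) (hfg : ∀ i ≤ m, coeff i f = coeff i g) :
    coeff m (f * h) = coeff m (g * h) := by
  rw [coeff_mul, coeff_mul]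
  apply Finset.sum_congr rfl
  intro p hp
  rw [hfg p.1 (by have := mem_antidiagonal.1 hp; omega)]

lemma Psi_zero (α : ℝ) : Psi α 0 = 1 := by
  ext i
  unfold Psi
  rw [coeff_mk, coeff_one]
  rcases i with _ | i
  · simp [B]
  · rw [if_neg (by omega)]
    simp [B]

lemma Psi_succ (α : ℝ) (x m i : ℕ) (hi : i ≤ m) :
    coeff i (Psi α (x + 1)) = coeff i (C ((1 + α) ^ x) *
      ∑ k ∈ range (m + 1), C (α ^ k / (k.factorial : ℝ)) * (X ^ k * Psi α (x + k))) := by
  rw [coeff_C_mul, map_sum]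
  simp only [coeff_C_mul, coeff_X_pow_mul']
  have h1 : ∀ k ∈ range (m + 1), α ^ k / (k.factorial : ℝ) *
      (if k ≤ i then coeff (i - k) (Psi α (x + k)) else 0) =
      if k ≤ i then α ^ i * (1 / (k.factorial : ℝ) * B (1 + α) (x + i) (x + k)) else 0 := by
    intro k _
    split_ifs with h
    · unfold Psi
      rw [coeff_mk]
      have e1 : x + k + (i - k) = x + i := by omega
      have e2 : α ^ i = α ^ k * α ^ (i - k) := by rw [← pow_add]; congr 1; omega
      rw [e1, e2]
      ring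
    · ring
  rw [Finset.sum_congr rfl h1, ← Finset.sum_filter]
  have h2 : (range (m + 1)).filter (fun k => k ≤ i) = range (i + 1) := by
    ext k; simp only [mem_filter, mem_range]; omega
  rw [h2, ← Finset.mul_sum]
  unfold Psi
  rw [coeff_mk]
  rw [show x + 1 + i = (x + i) + 1 by ring]
  simp only [B]
  have h3 : ∑ k ∈ range (x + i + 1), 1 / (k.factorial : ℝ) * B (1 + α) (x + i) (x + k) =
      ∑ k ∈ range (i + 1), 1 / (k.factorial : ℝ) * B (1 + α) (x + i) (x + k) := by
    symm
    apply Finset.sum_subset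
    · intro k hk
      simp only [mem_range] at hk ⊢
      omega
    · intro k _ hk
      simp only [mem_range] at hk
      rw [B_zero_of_lt _ _ _ (by omega), mul_zero]
  rw [h3]
  ring

theorem Psi_Phi (α : ℝ) (N : ℕ) : ∀ x m : ℕ, x + m = N →
    coeff m (Psi α x * Phi (1 + α)) = (1 + α) ^ (N.choose 2) / (m.factorial : ℝ) := by
  induction N with
  | zero =>
    intro x m h
    have hx : x = 0 := by omega
    have hm : m = 0 := by omega
    subst hx; subst hm
    rw [Psi_zero, one_mul, coeff_Phi]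
  | succ N ih =>
    intro x m h
    rcases x with _ | x
    · rw [Psi_zero, one_mul, coeff_Phi]
      have : m = N + 1 := by omega
      rw [this]
    · rw [coeff_mul_congr _ _ _ m (fun i hi => Psi_succ α x m i hi)]
      rw [mul_assoc, coeff_C_mul, Finset.sum_mul, map_sum]
      have h1 : ∀ k ∈ range (m + 1),
          coeff m (C (α ^ k / (k.factorial : ℝ)) * (X ^ k * Psi α (x + k)) * Phi (1 + α)) =
          (1 + α) ^ (N.choose 2) / (m.factorial : ℝ) * (α ^ k * 1 ^ (m - k) * (m.choose k : ℝ)) := by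
        intro k hk
        have hk' : k ≤ m := by simpa [Nat.lt_succ_iff] using hk
        rw [mul_assoc, mul_assoc, coeff_C_mul, coeff_X_pow_mul', if_pos hk']
        rw [ih (x + k) (m - k) (by omega)]
        rw [Nat.cast_choose ℝ hk']
        have f1 : (m.factorial : ℝ) ≠ 0 := by positivity
        have f2 : (k.factorial : ℝ) ≠ 0 := by positivity
        have f3 : ((m - k).factorial : ℝ) ≠ 0 := by positivity
        field_simp
        ring
      rw [Finset.sum_congr rfl h1, ← Finset.mul_sum]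
      rw [← add_pow]
      have e : (N + 1).choose 2 = N + N.choose 2 := by
        rw [Nat.choose_succ_succ' N 1, Nat.choose_one_right]
      have e2 : N = x + m := by omega
      rw [e, pow_add]
      have e3 : (1 + α) ^ N = (1 + α) ^ x * (α + 1) ^ m := by
        rw [e2, pow_add, add_comm α 1]
      rw [e3]
      ring

lemma P_one_eq (α : ℝ) : P (1 + α) 1 = Psi α 1 := by
  apply mul_right_cancel₀ (Phi_ne (1 + α))
  rw [P_mul]
  ext m
  rw [Psi_Phi α (1 + m) 1 m rfl, coeff_rescale, coeff_Phi, pow_one]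
  have e : (1 + m).choose 2 = m + m.choose 2 := by
    rw [add_comm 1 m, Nat.choose_succ_succ' m 1, Nat.choose_one_right]
  rw [e, pow_add]
  ring

/-- `κ_m` -/
noncomputable def kap (α : ℝ) (m : ℕ) : ℝ := coeff m (P (1 + α) 1)

lemma kap_eq (α : ℝ) (m : ℕ) : kap α m = α ^ m * Zs (1 + α) m := by
  unfold kap
  rw [P_one_eq]
  unfold Psi Zs
  rw [coeff_mk, add_comm 1 m]

end Helper11.Conn
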