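import Mathlib
import Pool.Agent.Helper11_Conn.Series

/-!
Chebyshev's sum inequality and the two numerical inequalities (adjacent and disjoint edges).
-/

open Finset PowerSeries

namespace Helper11.Conn

lemma cheb {ι : Type*} (I : Finset ι) (s f g : ι → ℝ) (hs : ∀ i ∈ I, 0 ≤ s i)
    (h : ∀ i ∈ I, ∀ j ∈ I, 0 ≤ (f i - f j) * (g i - g j)) :
    (∑ i ∈ I, s i * f i) * (∑ i ∈ I, s i * g i) ≤ (∑ i ∈ I, s i) * (∑ i ∈ I, s i * (f i * g i)) := by
  have h0 : 0 ≤ ∑ i ∈ I, ∑ j ∈ I, s i * s j * ((f i - f j) * (g i - g j)) := by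
    apply Finset.sum_nonneg; intro i hi
    apply Finset.sum_nonneg; intro j hj
    exact mul_nonneg (mul_nonneg (hs i hi) (hs j hj)) (h i hi j hj)
  have e : ∑ i ∈ I, ∑ j ∈ I, s i * s j * ((f i - f j) * (g i - g j)) =
      2 * ((∑ i ∈ I, s i) * (∑ i ∈ I, s i * (f i * g i)) -
        (∑ i ∈ I, s i * f i) * (∑ i ∈ I, s i * g i)) := by
    have e1 : ∀ i j, s i * s j * ((f i - f j) * (g i - g j)) =
        (s i * (f i * g i)) * s j + s i * (s j * (f j * g j)) - (s i * f i) * (s j * g j)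
          - (s i * g i) * (s j * f j) := by intro i j; ring
    simp only [e1, Finset.sum_sub_distrib, Finset.sum_add_distrib]
    rw [← Finset.sum_mul_sum, ← Finset.sum_mul_sum, ← Finset.sum_mul_sum, ← Finset.sum_mul_sum]
    ring
  linarith

lemma conv_shift (g : ℕ → ℝ) (hg : ∀ m, 2 * g (m + 1) ≤ g m + g (m + 2)) (i l : ℕ) (hil : i ≤ l)
    (t : ℕ) : g (i + t) + g l ≤ g i + g (l + t) := by
  have mono : ∀ a b, a ≤ b → g (a + 1) - g a ≤ g (b + 1) - g b := by
    intro a b hab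
    induction b, hab using Nat.le_induction with
    | base => exact le_refl _
    | succ b _ ih =>
      have := hg b
      have e : g (b + 1 + 1) = g (b + 2) := rfl
      rw [e]; linarith
  induction t with
  | zero => simp
  | succ t ih =>
    have := mono (i + t) (l + t) (by omega)
    have e1 : i + (t + 1) = i + t + 1 := by ring
    have e2 : l + (t + 1) = l + t + 1 := by ring
    rw [e1, e2]; linarith

lemma conv_pair (g : ℕ → ℝ) (hg : ∀ m, 2 * g (m + 1) ≤ g m + g (m + 2)) (i j k l : ℕ)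
    (h : i + j = k + l) (hm : min i j ≤ min k l) : g k + g l ≤ g i + g j := by
  rcases le_total i j with h1 | h1 <;> rcases le_total k l with h2 | h2
  · have := conv_shift g hg i l (by omega) (k - i)
    have e1 : i + (k - i) = k := by omega
    have e2 : l + (k - i) = j := by omega
    rw [e1, e2] at this; exact this
  · have := conv_shift g hg i k (by omega) (l - i)
    have e1 : i + (l - i) = l := by omega
    have e2 : k + (l - i) = j := by omega
    rw [e1, e2] at this; linarith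
  · have := conv_shift g hg j l (by omega) (k - j)
    have e1 : j + (k - j) = k := by omega
    have e2 : l + (k - j) = i := by omega
    rw [e1, e2] at this; linarith
  · have := conv_shift g hg j k (by omega) (l - j)
    have e1 : j + (l - j) = l := by omega
    have e2 : k + (l - j) = i := by omega
    rw [e1, e2] at this; linarith

lemma similarly_ordered (f g : ℕ → ℝ) (hf : ∀ m, 2 * f (m + 1) ≤ f m + f (m + 2))
    (hg : ∀ m, 2 * g (m + 1) ≤ g m + g (m + 2)) (i j k l : ℕ) (h : i + j = k + l) :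
    0 ≤ ((f i + f j) - (f k + f l)) * ((g i + g j) - (g k + g l)) := by
  rcases le_total (min i j) (min k l) with hm | hm
  · have h1 := conv_pair f hf i j k l h hm
    have h2 := conv_pair g hg i j k l h hm
    apply mul_nonneg <;> linarith
  · have h1 := conv_pair f hf k l i j h.symm hm
    have h2 := conv_pair g hg k l i j h.symm hm
    apply mul_nonneg_of_nonpos_of_nonpos <;> linarith

section
variable (α : ℝ)

noncomputable def rho (m : ℕ) : ℝ := coeff m (P (1 + α) 2)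

/-- expected degree -/
noncomputable def dd : ℕ → ℝ
  | 0 => 0
  | m + 1 => α * rho α m / kap α (m + 1)

noncomputable def aa (m : ℕ) : ℝ := ((m : ℝ) - 1) * dd α m

noncomputable def ww (m : ℕ) : ℝ := (1 + α) ^ (m + 1) - 1

variable {α}

lemma kap_pos (hα : 0 < α) (m : ℕ) : 0 < kap α m := by
  rw [kap_eq]
  have := Zs_pos (show 0 < 1 + α by linarith) m
  positivity

lemma dd_kap (hα : 0 < α) (m : ℕ) : dd α (m + 1) * kap α (m + 1) = α * rho α m := by
  have := kap_pos hα (m + 1)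
  simp only [dd]
  field_simp

/-- `(N+1) κ_{N+1} = ∑ w_i κ_i κ_j` -/
lemma c1 (N : ℕ) : ((N : ℝ) + 1) * kap α (N + 1) =
    ∑ p ∈ antidiagonal N, (kap α p.1 * kap α p.2) * ww α p.1 := by
  have h := congrArg (coeff N) (deriv_P (1 + α) 1)
  rw [coeff_derivative, P_add (1 + α) 1 1, pow_one, map_sub, coeff_C_mul, coeff_mul, coeff_mul] at h
  unfold kap
  rw [mul_comm, h, Finset.mul_sum, ← Finset.sum_sub_distrib]
  apply Finset.sum_congr rfl
  intro p _
  rw [coeff_rescale]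
  unfold ww
  ring

lemma c5 (N : ℕ) : (1 + α) * rho α N = ((N : ℝ) + 1) * kap α (N + 1) +
    ∑ p ∈ antidiagonal N, (kap α p.1 * kap α p.2) := by
  have h := congrArg (coeff N) (deriv_P (1 + α) 1)
  rw [coeff_derivative, pow_one, map_sub, coeff_C_mul, coeff_mul] at h
  unfold kap rho
  linarith

/-- `α N ρ_N` -/
lemma c2 (hα : 0 < α) (M : ℕ) : α * (((M : ℝ) + 1) * rho α (M + 1)) =
    ∑ p ∈ antidiagonal (M + 1), (kap α p.1 * kap α p.2) * (ww α p.1 * dd α p.1) := by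
  have h := congrArg (coeff M) (deriv_P (1 + α) 2)
  rw [coeff_derivative, P_add (1 + α) 2 1, pow_one, map_sub, coeff_C_mul, coeff_mul, coeff_mul] at h
  rw [Finset.Nat.sum_antidiagonal_succ]
  simp only [dd, mul_zero, zero_add]
  have e : ∀ p ∈ antidiagonal M, kap α (p.1 + 1) * kap α p.2 * (ww α (p.1 + 1) *
      (α * rho α p.1 / kap α (p.1 + 1))) =
      α * ((1 + α) ^ 2 * (coeff p.1 (rescale (1 + α) (P (1 + α) 2)) * coeff p.2 (P (1 + α) 1)) -
        coeff p.1 (P (1 + α) 2) * coeff p.2 (P (1 + α) 1)) := by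
    intro p _
    have := kap_pos hα (p.1 + 1)
    rw [coeff_rescale]
    unfold ww rho kap at *
    field_simp
    ring
  rw [Finset.sum_congr rfl e, ← Finset.mul_sum, Finset.sum_sub_distrib, ← Finset.mul_sum, ← h]
  unfold rho
  ring

lemma c3 (hα : 0 < α) (M : ℕ) : α * coeff M (P (1 + α) 2 * P (1 + α) 1) =
    ∑ p ∈ antidiagonal (M + 1), (kap α p.1 * kap α p.2) * dd α p.1 := by
  rw [coeff_mul, Finset.Nat.sum_antidiagonal_succ]
  simp only [dd, mul_zero, zero_add]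
  rw [Finset.mul_sum]
  apply Finset.sum_congr rfl
  intro p _
  have := kap_pos hα (p.1 + 1)
  unfold rho
  show α * (coeff p.1 (P (1 + α) 2) * kap α p.2) = _
  field_simp

lemma c4 (M : ℕ) : (1 + α) ^ 2 * coeff M (P (1 + α) 3) = ((M : ℝ) + 1) * rho α (M + 1) +
    coeff M (P (1 + α) 2 * P (1 + α) 1) := by
  have h := congrArg (coeff M) (deriv_P (1 + α) 2)
  rw [coeff_derivative, map_sub, coeff_C_mul] at h
  unfold rho
  linarith

/-- adjacent case from Chebyshev -/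
theorem adj_ineq (hα : 0 < α) (hd : ∀ m, dd α m ≤ dd α (m + 1)) (M : ℕ) :
    ((M : ℝ) + 2) * kap α (M + 2) * ((1 + α) * coeff M (P (1 + α) 3)) ≤
      ((M : ℝ) + 1) * rho α (M + 1) ^ 2 := by
  have hdm : Monotone (dd α) := monotone_nat_of_le_succ hd
  have hwm : Monotone (ww α) := by
    apply monotone_nat_of_le_succ
    intro m
    unfold ww
    have : (1 + α) ^ (m + 1) ≤ (1 + α) ^ (m + 1 + 1) := pow_le_pow_right₀ (by linarith) (by omega)
    linarith
  have ch := cheb (antidiagonal (M + 1)) (fun p => kap α p.1 * kap α p.2) (fun p => ww α p.1)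
    (fun p => dd α p.1) (fun p _ => (mul_pos (kap_pos hα _) (kap_pos hα _)).le) (by
      intro p _ p' _
      rcases le_total p.1 p'.1 with h | h
      · exact mul_nonneg_of_nonpos_of_nonpos (by linarith [hwm h]) (by linarith [hdm h])
      · exact mul_nonneg (by linarith [hwm h]) (by linarith [hdm h]))
  have e1 := c1 (α := α) (M + 1)
  have e5 := c5 (α := α) (M + 1)
  rw [← c2 hα M, ← c3 hα M, ← e1] at ch
  push_cast at e1 e5 ch
  have e4 := c4 (α := α) M
  set V := ∑ p ∈ antidiagonal (M + 1), (kap α p.1 * kap α p.2) with hV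
  set v' := coeff M (P (1 + α) 2 * P (1 + α) 1) with hv'
  set R := rho α (M + 1) with hR
  set K := kap α (M + 1 + 1) with hK
  have hq : 0 < 1 + α := by linarith
  have ch2 : ((M : ℝ) + 1 + 1) * K * v' ≤ V * (((M : ℝ) + 1) * R) := by
    have : α * (((M : ℝ) + 1 + 1) * K * v') ≤ α * (V * (((M : ℝ) + 1) * R)) := by
      calc _ = ((M : ℝ) + 1 + 1) * K * (α * v') := by ring
        _ ≤ _ := ch
        _ = _ := by ring
    exact le_of_mul_le_mul_left this hα
  have goal' : (1 + α) * (((M : ℝ) + 2) * K * ((1 + α) * coeff M (P (1 + α) 3))) ≤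
      (1 + α) * (((M : ℝ) + 1) * R ^ 2) := by
    calc (1 + α) * (((M : ℝ) + 2) * K * ((1 + α) * coeff M (P (1 + α) 3)))
        = ((M : ℝ) + 2) * K * ((1 + α) ^ 2 * coeff M (P (1 + α) 3)) := by ring
      _ = ((M : ℝ) + 2) * K * (((M : ℝ) + 1) * R + v') := by rw [e4]
      _ ≤ ((M : ℝ) + 1) * R * (((M : ℝ) + 1 + 1) * K + V) := by nlinarith
      _ = ((M : ℝ) + 1) * R * ((1 + α) * R) := by rw [← e5]
      _ = _ := by ring
  exact le_of_mul_le_mul_left goal' hq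

lemma dd2 : d⁄dX ℝ (d⁄dX ℝ (P (1 + α) 2)) = C ((1 + α) ^ 3) * (rescale (1 + α) (d⁄dX ℝ (P (1 + α) 2)) *
    P (1 + α) 1) + C (1 + α) * (rescale (1 + α) (P (1 + α) 1) * d⁄dX ℝ (P (1 + α) 2)) -
    2 * (d⁄dX ℝ (P (1 + α) 2) * P (1 + α) 1) := by
  have h1 := deriv_P (1 + α) 1
  have h2 := deriv_P (1 + α) 2
  have p2 := P_add (1 + α) 1 1
  have p3 := P_add (1 + α) 2 1
  rw [pow_one] at p2 p3
  norm_num at p2 p3
  have h3 : d⁄dX ℝ (d⁄dX ℝ (P (1 + α) 2)) = C ((1 + α) ^ 2) * (C (1 + α) *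
      rescale (1 + α) (d⁄dX ℝ (P (1 + α) 2)) * P (1 + α) 1 + rescale (1 + α) (P (1 + α) 2) *
      d⁄dX ℝ (P (1 + α) 1)) - (d⁄dX ℝ (P (1 + α) 2) * P (1 + α) 1 + P (1 + α) 2 *
      d⁄dX ℝ (P (1 + α) 1)) := by
    conv_lhs => rw [h2]
    rw [show (2 : ℕ) + 1 = 3 from rfl, p3]
    rw [map_sub, Derivation.leibniz, Derivation.leibniz, Derivation.leibniz, derivative_C,
      deriv_rescale]
    simp only [smul_eq_mul, mul_zero, add_zero]
    ring
  rw [h3]
  have h1' : d⁄dX ℝ (P (1 + α) 1) = P (1 + α) 1 * (C (1 + α) * rescale (1 + α) (P (1 + α) 1) -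
      P (1 + α) 1) := by
    rw [h1, pow_one, show (1 : ℕ) + 1 = 2 from rfl, p2]; ring
  have h2' : d⁄dX ℝ (P (1 + α) 2) = P (1 + α) 1 * (C ((1 + α) ^ 2) * rescale (1 + α) (P (1 + α) 2) -
      P (1 + α) 2) := by
    rw [h2, show (2 : ℕ) + 1 = 3 from rfl, p3]; ring
  have hC : (C ((1 + α) ^ 3) : ℝ⟦X⟧) = C ((1 + α) ^ 2) * C (1 + α) := by
    rw [← map_mul]; congr 1
  rw [hC]
  linear_combination (C ((1 + α) ^ 2) * rescale (1 + α) (P (1 + α) 2) - P (1 + α) 2) * h1' -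
    (C (1 + α) * rescale (1 + α) (P (1 + α) 1) - P (1 + α) 1) * h2'

lemma dd2' : d⁄dX ℝ (d⁄dX ℝ (P (1 + α) 2)) = C (1 + α) * (C ((1 + α) ^ 4) * P (1 + α) 4 -
    P (1 + α) 2 * P (1 + α) 2) - 2 * (d⁄dX ℝ (P (1 + α) 2) * P (1 + α) 1) := by
  have h1 := deriv_P (1 + α) 1
  have h2 := deriv_P (1 + α) 2
  have h3 := deriv_P (1 + α) 3
  rw [pow_one] at h1
  norm_num at h1 h2 h3
  have e : d⁄dX ℝ (d⁄dX ℝ (P (1 + α) 2)) = C ((1 + α) ^ 2) * d⁄dX ℝ (P (1 + α) 3) -
      (d⁄dX ℝ (P (1 + α) 2) * P (1 + α) 1 + P (1 + α) 2 * d⁄dX ℝ (P (1 + α) 1)) := by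
    conv_lhs => rw [deriv_P (1 + α) 2]
    rw [map_sub, Derivation.leibniz, Derivation.leibniz, derivative_C]
    simp only [smul_eq_mul, mul_zero, add_zero]
    ring
  have hC1 : (C ((1 + α) ^ 4) : ℝ⟦X⟧) = C (1 + α) ^ 4 := by rw [map_pow]
  have hC2 : (C ((1 + α) ^ 2) : ℝ⟦X⟧) = C (1 + α) ^ 2 := by rw [map_pow]
  have hC3 : (C ((1 + α) ^ 3) : ℝ⟦X⟧) = C (1 + α) ^ 3 := by rw [map_pow]
  rw [deriv_P (1 + α) 3, deriv_P (1 + α) 1] at e
  rw [e, hC1, hC2, hC3, pow_one]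
  have h2' := deriv_P (1 + α) 2
  rw [hC2] at h2'
  norm_num at h2' ⊢
  linear_combination (P (1 + α) 1) * h2'

lemma aa_zero : aa α 0 = 0 := by simp [aa, dd]
lemma aa_one : aa α 1 = 0 := by simp [aa]

lemma aa_kap (hα : 0 < α) (M : ℕ) :
    aa α (M + 2) * kap α (M + 2) = α * (rho α (M + 1) * ((M : ℝ) + 1)) := by
  have := dd_kap hα (M + 1)
  have e : aa α (M + 2) = ((M : ℝ) + 1) * dd α (M + 2) := by
    unfold aa; push_cast; ring
  rw [e]
  have h2 : dd α (M + 1 + 1) = dd α (M + 2) := rfl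
  have h3 : kap α (M + 1 + 1) = kap α (M + 2) := rfl
  rw [h2, h3] at this
  linear_combination ((M : ℝ) + 1) * this

lemma c6 (hα : 0 < α) (M : ℕ) : α * (((M : ℝ) + 2) * ((M : ℝ) + 1) * rho α (M + 2)) =
    ∑ p ∈ antidiagonal (M + 2), (kap α p.1 * kap α p.2) * ((ww α p.1 + ww α p.2) * aa α p.1) := by
  have h := congrArg (coeff M) (dd2 (α := α))
  rw [coeff_derivative, coeff_derivative] at h
  have e2 : (2 : ℝ⟦X⟧) * (d⁄dX ℝ (P (1 + α) 2) * P (1 + α) 1) =
      C 2 * (d⁄dX ℝ (P (1 + α) 2) * P (1 + α) 1) := by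
    congr 1
  rw [e2, map_sub, map_add, coeff_C_mul, coeff_C_mul, coeff_C_mul] at h
  have e3 : rescale (1 + α) (P (1 + α) 1) * d⁄dX ℝ (P (1 + α) 2) =
      d⁄dX ℝ (P (1 + α) 2) * rescale (1 + α) (P (1 + α) 1) := mul_comm _ _
  rw [e3, coeff_mul, coeff_mul, coeff_mul] at h
  rw [Finset.Nat.sum_antidiagonal_succ, Finset.Nat.sum_antidiagonal_succ]
  simp only [zero_add, aa_zero, aa_one, mul_zero]
  have e : ∀ p ∈ antidiagonal M, kap α (p.1 + 1 + 1) * kap α p.2 *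
      ((ww α (p.1 + 1 + 1) + ww α p.2) * aa α (p.1 + 1 + 1)) =
      α * ((1 + α) ^ 3 * (coeff p.1 (rescale (1 + α) (d⁄dX ℝ (P (1 + α) 2))) * coeff p.2 (P (1 + α) 1))
      + (1 + α) * (coeff p.1 (d⁄dX ℝ (P (1 + α) 2)) * coeff p.2 (rescale (1 + α) (P (1 + α) 1)))
      - 2 * (coeff p.1 (d⁄dX ℝ (P (1 + α) 2)) * coeff p.2 (P (1 + α) 1))) := by
    intro p _
    have := aa_kap hα p.1
    rw [coeff_rescale, coeff_rescale, coeff_derivative]
    have h2 : aa α (p.1 + 1 + 1) = aa α (p.1 + 2) := rfl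
    have h3 : kap α (p.1 + 1 + 1) = kap α (p.1 + 2) := rfl
    rw [h2, h3]
    have h4 : coeff (p.1 + 1) (P (1 + α) 2) = rho α (p.1 + 1) := rfl
    have h5 : coeff p.2 (P (1 + α) 1) = kap α p.2 := rfl
    rw [h4, h5]
    unfold ww
    linear_combination (kap α p.2 * ((1 + α) ^ (p.1 + 1 + 1 + 1) - 1 + ((1 + α) ^ (p.2 + 1) - 1))) * this
  rw [Finset.sum_congr rfl e, ← Finset.mul_sum, Finset.sum_sub_distrib, Finset.sum_add_distrib,
    ← Finset.mul_sum, ← Finset.mul_sum, ← Finset.mul_sum, ← h]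
  unfold rho
  push_cast
  ring

lemma c7 (hα : 0 < α) (M : ℕ) : α * coeff M (d⁄dX ℝ (P (1 + α) 2) * P (1 + α) 1) =
    ∑ p ∈ antidiagonal (M + 2), (kap α p.1 * kap α p.2) * aa α p.1 := by
  rw [coeff_mul, Finset.Nat.sum_antidiagonal_succ, Finset.Nat.sum_antidiagonal_succ]
  simp only [zero_add, aa_zero, aa_one, mul_zero]
  rw [Finset.mul_sum]
  apply Finset.sum_congr rfl
  intro p _
  have := aa_kap hα p.1
  rw [coeff_derivative]
  have h2 : aa α (p.1 + 1 + 1) = aa α (p.1 + 2) := rfl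
  have h3 : kap α (p.1 + 1 + 1) = kap α (p.1 + 2) := rfl
  rw [h2, h3]
  have h4 : coeff (p.1 + 1) (P (1 + α) 2) = rho α (p.1 + 1) := rfl
  have h5 : coeff p.2 (P (1 + α) 1) = kap α p.2 := rfl
  rw [h4, h5]
  linear_combination -(kap α p.2) * this

/-- `D_M = [z^M] (q^4 P_4 - P_2^2)` -/
noncomputable def Dq (α : ℝ) (M : ℕ) : ℝ :=
  (1 + α) ^ 4 * coeff M (P (1 + α) 4) - coeff M (P (1 + α) 2 * P (1 + α) 2)

lemma c8 (M : ℕ) : (1 + α) * Dq α M = ((M : ℝ) + 2) * ((M : ℝ) + 1) * rho α (M + 2) +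
    2 * coeff M (d⁄dX ℝ (P (1 + α) 2) * P (1 + α) 1) := by
  have h := congrArg (coeff M) (dd2' (α := α))
  rw [coeff_derivative, coeff_derivative] at h
  have e2 : (2 : ℝ⟦X⟧) * (d⁄dX ℝ (P (1 + α) 2) * P (1 + α) 1) =
      C 2 * (d⁄dX ℝ (P (1 + α) 2) * P (1 + α) 1) := by
    congr 1
  rw [e2, map_sub, coeff_C_mul, coeff_C_mul, map_sub, coeff_C_mul] at h
  unfold Dq rho
  push_cast at h
  have e3 : M + 1 + 1 = M + 2 := rfl
  rw [e3] at h
  linarith

lemma sum_symm (N : ℕ) (f : ℕ → ℝ) :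
    ∑ p ∈ antidiagonal N, (kap α p.1 * kap α p.2) * f p.1 =
      (∑ p ∈ antidiagonal N, (kap α p.1 * kap α p.2) * (f p.1 + f p.2)) / 2 := by
  have h : ∑ p ∈ antidiagonal N, (kap α p.1 * kap α p.2) * f p.1 =
      ∑ p ∈ antidiagonal N, (kap α p.1 * kap α p.2) * f p.2 := by
    rw [← Finset.Nat.sum_antidiagonal_swap]
    apply Finset.sum_congr rfl
    intro p _
    simp only [Prod.fst_swap, Prod.snd_swap]
    ring
  simp only [mul_add, Finset.sum_add_distrib]
  rw [← h]; ring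

lemma sum_symm2 (N : ℕ) (f g : ℕ → ℝ) :
    ∑ p ∈ antidiagonal N, (kap α p.1 * kap α p.2) * ((g p.1 + g p.2) * f p.1) =
      (∑ p ∈ antidiagonal N, (kap α p.1 * kap α p.2) * ((g p.1 + g p.2) * (f p.1 + f p.2))) / 2 := by
  have h : ∑ p ∈ antidiagonal N, (kap α p.1 * kap α p.2) * ((g p.1 + g p.2) * f p.1) =
      ∑ p ∈ antidiagonal N, (kap α p.1 * kap α p.2) * ((g p.1 + g p.2) * f p.2) := by
    rw [← Finset.Nat.sum_antidiagonal_swap]
    apply Finset.sum_congr rfl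
    intro p _
    simp only [Prod.fst_swap, Prod.snd_swap]
    ring
  simp only [mul_add, Finset.sum_add_distrib] at h ⊢
  rw [← h]; ring

/-- disjoint case from Chebyshev -/
theorem disj_ineq (hα : 0 < α) (ha : ∀ m, 2 * aa α (m + 1) ≤ aa α m + aa α (m + 2)) (M : ℕ) :
    ((M : ℝ) + 3) * kap α (M + 3) * Dq α M ≤
      ((M : ℝ) + 2) * ((M : ℝ) + 1) * rho α (M + 2) ^ 2 := by
  have hw : ∀ m, 2 * ww α (m + 1) ≤ ww α m + ww α (m + 2) := by
    intro m
    unfold ww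
    have : 0 ≤ (1 + α) ^ (m + 1) * α ^ 2 := by positivity
    have e1 : (1 + α) ^ (m + 1 + 1) = (1 + α) ^ (m + 1) * (1 + α) := pow_succ _ _
    have e2 : (1 + α) ^ (m + 2 + 1) = (1 + α) ^ (m + 1) * (1 + α) ^ 2 := by
      rw [← pow_add]
    rw [e1, e2]
    nlinarith
  have ch := cheb (antidiagonal (M + 2)) (fun p => kap α p.1 * kap α p.2)
    (fun p => ww α p.1 + ww α p.2) (fun p => aa α p.1 + aa α p.2)
    (fun p _ => (mul_pos (kap_pos hα _) (kap_pos hα _)).le) (by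
      intro p hp p' hp'
      exact similarly_ordered (ww α) (aa α) hw ha p.1 p.2 p'.1 p'.2 (by
        have := mem_antidiagonal.1 hp
        have := mem_antidiagonal.1 hp'
        omega))
  have s1 := sum_symm (α := α) (M + 2) (ww α)
  have s2 := sum_symm (α := α) (M + 2) (aa α)
  have s3 := sum_symm2 (α := α) (M + 2) (aa α) (ww α)
  have e1 := c1 (α := α) (M + 2)
  have e5 := c5 (α := α) (M + 2)
  have e6 := c6 hα M
  have e7 := c7 hα M
  have e8 := c8 (α := α) M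
  rw [← e1] at s1
  rw [← e7] at s2
  rw [← e6] at s3
  set V := ∑ p ∈ antidiagonal (M + 2), (kap α p.1 * kap α p.2) with hV
  set v' := coeff M (d⁄dX ℝ (P (1 + α) 2) * P (1 + α) 1) with hv'
  set R := rho α (M + 2) with hR
  set K := kap α (M + 2 + 1) with hK
  push_cast at s1 e5
  have hq : 0 < 1 + α := by linarith
  have ch2 : 2 * (((M : ℝ) + 2 + 1) * K * v') ≤ V * (((M : ℝ) + 2) * ((M : ℝ) + 1) * R) := by
    have e : (∑ i ∈ antidiagonal (M + 2), kap α i.1 * kap α i.2 * (ww α i.1 + ww α i.2)) =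
        2 * (((M : ℝ) + 2 + 1) * K) := by linarith
    have e' : (∑ i ∈ antidiagonal (M + 2), kap α i.1 * kap α i.2 * (aa α i.1 + aa α i.2)) =
        2 * (α * v') := by linarith
    have e'' : (∑ i ∈ antidiagonal (M + 2), kap α i.1 * kap α i.2 *
        ((ww α i.1 + ww α i.2) * (aa α i.1 + aa α i.2))) =
        2 * (α * (((M : ℝ) + 2) * ((M : ℝ) + 1) * R)) := by linarith
    rw [e, e', e''] at ch
    have : (2 * α) * (2 * (((M : ℝ) + 2 + 1) * K * v')) ≤
        (2 * α) * (V * (((M : ℝ) + 2) * ((M : ℝ) + 1) * R)) := by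
      calc _ = 2 * (((M : ℝ) + 2 + 1) * K) * (2 * (α * v')) := by ring
        _ ≤ _ := ch
        _ = _ := by ring
    exact le_of_mul_le_mul_left this (by linarith)
  have goal' : (1 + α) * (((M : ℝ) + 3) * K * Dq α M) ≤
      (1 + α) * (((M : ℝ) + 2) * ((M : ℝ) + 1) * R ^ 2) := by
    calc (1 + α) * (((M : ℝ) + 3) * K * Dq α M)
        = ((M : ℝ) + 3) * K * ((1 + α) * Dq α M) := by ring
      _ = ((M : ℝ) + 3) * K * (((M : ℝ) + 2) * ((M : ℝ) + 1) * R + 2 * v') := by rw [e8]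
      _ ≤ (((M : ℝ) + 2) * ((M : ℝ) + 1) * R) * (((M : ℝ) + 2 + 1) * K + V) := by nlinarith
      _ = (((M : ℝ) + 2) * ((M : ℝ) + 1) * R) * ((1 + α) * R) := by rw [← e5]
      _ = _ := by ring
  exact le_of_mul_le_mul_left goal' hq

/-- The edge count identity (hypothesis form). -/
def EdgeId (α : ℝ) : Prop := ∀ m : ℕ, ((m : ℝ) + 1) * dd α m = 2 * ((m : ℝ) + α * zeta (1 + α) m)

lemma zeta_slope (hα : 0 < α) (m : ℕ) :
    0 ≤ zeta (1 + α) (m + 1) - zeta (1 + α) m ∧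
    zeta (1 + α) m ≤ ((m : ℝ) + 1) * (zeta (1 + α) (m + 1) - zeta (1 + α) m) := by
  have hq : 0 < 1 + α := by linarith
  induction m with
  | zero =>
    have h0 := zeta_zero (1 + α)
    have h1 := zeta_one (1 + α)
    rw [h0, show (0 : ℕ) + 1 = 1 from rfl, h1]
    simp
  | succ m ih =>
    have h := zeta_convex hq m
    have e : zeta (1 + α) (m + 1 + 1) = zeta (1 + α) (m + 2) := rfl
    rw [e]
    obtain ⟨i1, i2⟩ := ih
    constructor
    · linarith
    · push_cast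
      have : ((m : ℝ) + 1 + 1) * (zeta (1 + α) (m + 1) - zeta (1 + α) m) ≤
          ((m : ℝ) + 1 + 1) * (zeta (1 + α) (m + 2) - zeta (1 + α) (m + 1)) :=
        mul_le_mul_of_nonneg_left (by linarith) (by positivity)
      nlinarith

lemma dd_mono (hα : 0 < α) (hE : EdgeId α) (m : ℕ) : dd α m ≤ dd α (m + 1) := by
  have h1 := hE m
  have h2 := hE (m + 1)
  push_cast at h2
  obtain ⟨s1, s2⟩ := zeta_slope hα m
  have p1 : (0 : ℝ) < (m : ℝ) + 1 := by positivity
  have p2 : (0 : ℝ) < (m : ℝ) + 1 + 1 := by positivity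
  have key : 0 ≤ (((m : ℝ) + 1) * ((m : ℝ) + 1 + 1)) * (dd α (m + 1) - dd α m) := by
    have e : (((m : ℝ) + 1) * ((m : ℝ) + 1 + 1)) * (dd α (m + 1) - dd α m) =
        2 * (1 + α * (((m : ℝ) + 1) * (zeta (1 + α) (m + 1) - zeta (1 + α) m) -
          zeta (1 + α) m)) := by
      linear_combination ((m : ℝ) + 1) * h2 - ((m : ℝ) + 1 + 1) * h1
    rw [e]
    have : 0 ≤ α * (((m : ℝ) + 1) * (zeta (1 + α) (m + 1) - zeta (1 + α) m) -
          zeta (1 + α) m) := mul_nonneg hα.le (by linarith)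
    linarith
  have := nonneg_of_mul_nonneg_right key (by positivity)
  linarith

lemma aa_convex (hα : 0 < α) (hE : EdgeId α) (m : ℕ) : 2 * aa α (m + 1) ≤ aa α m + aa α (m + 2) := by
  have h0 := hE m
  have h1 := hE (m + 1)
  have h2 := hE (m + 2)
  push_cast at h1 h2
  have hz := zeta_convex (show 0 < 1 + α by linarith) m
  have hδ := dd_mono hα hE m
  unfold aa
  push_cast
  have hconv : 0 ≤ ((m : ℝ) + 3) * (dd α (m + 2) - dd α (m + 1)) -
      ((m : ℝ) + 1) * (dd α (m + 1) - dd α m) := by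
    have e : ((m : ℝ) + 3) * (dd α (m + 2) - dd α (m + 1)) -
      ((m : ℝ) + 1) * (dd α (m + 1) - dd α m) = 2 * α * (zeta (1 + α) (m + 2) + zeta (1 + α) m -
        2 * zeta (1 + α) (m + 1)) := by
      linear_combination h2 - 2 * h1 + h0
    rw [e]
    exact mul_nonneg (by linarith) (by linarith)
  have p3 : (0 : ℝ) < (m : ℝ) + 3 := by positivity
  have key : 0 ≤ ((m : ℝ) + 3) * (((m : ℝ) + 1) * (dd α (m + 2) - dd α (m + 1)) -
      ((m : ℝ) - 1) * (dd α (m + 1) - dd α m)) := by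
    have e : ((m : ℝ) + 3) * (((m : ℝ) + 1) * (dd α (m + 2) - dd α (m + 1)) -
      ((m : ℝ) - 1) * (dd α (m + 1) - dd α m)) =
      ((m : ℝ) + 1) * (((m : ℝ) + 3) * (dd α (m + 2) - dd α (m + 1)) -
      ((m : ℝ) + 1) * (dd α (m + 1) - dd α m)) + 4 * (dd α (m + 1) - dd α m) := by ring
    rw [e]
    have : 0 ≤ ((m : ℝ) + 1) * (((m : ℝ) + 3) * (dd α (m + 2) - dd α (m + 1)) -
      ((m : ℝ) + 1) * (dd α (m + 1) - dd α m)) := mul_nonneg (by positivity) hconv
    linarith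
  have := nonneg_of_mul_nonneg_right key p3
  linarith

end

end Helper11.Conn
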