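import Mathlib
import Pool.Agent.Helper11_Conn.Ineq

/-!
Root component decomposition of weighted subgraphs of complete graphs.
-/

open Finset

namespace Helper11.Conn

section Graph
variable {V : Type*} [DecidableEq V]

/-- edges inside `A` -/
def EE (A : Finset V) : Finset (Sym2 V) := A.offDiag.image Sym2.mk.uncurry

lemma mem_EE {A : Finset V} {u v : V} : s(u, v) ∈ EE A ↔ u ∈ A ∧ v ∈ A ∧ u ≠ v := by
  unfold EE
  simp only [mem_image, mem_offDiag, Prod.exists, Function.uncurry_apply_pair]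
  constructor
  · rintro ⟨a, b, ⟨ha, hb, hab⟩, h⟩
    rcases Sym2.eq_iff.1 h with ⟨rfl, rfl⟩ | ⟨rfl, rfl⟩
    · exact ⟨ha, hb, hab⟩
    · exact ⟨hb, ha, hab.symm⟩
  · rintro ⟨ha, hb, hab⟩
    exact ⟨u, v, ⟨ha, hb, hab⟩, rfl⟩

lemma card_EE (A : Finset V) : (EE A).card = A.card.choose 2 := Sym2.card_image_offDiag A

lemma EE_mono {A B : Finset V} (h : A ⊆ B) : EE A ⊆ EE B := by
  intro e
  induction e using Sym2.ind with
  | _ u v =>
    rw [mem_EE, mem_EE]
    rintro ⟨h1, h2, h3⟩
    exact ⟨h h1, h h2, h3⟩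

lemma EE_disj {A B : Finset V} (h : Disjoint A B) : Disjoint (EE A) (EE B) := by
  rw [Finset.disjoint_left]
  intro e
  induction e using Sym2.ind with
  | _ u v =>
    rw [mem_EE, mem_EE]
    rintro ⟨h1, _, _⟩ ⟨h1', _, _⟩
    exact Finset.disjoint_left.1 h h1 h1'

/-- adjacency -/
def cr (F : Finset (Sym2 V)) (x y : V) : Prop := s(x, y) ∈ F

/-- `F` connects `A` -/
def Con (F : Finset (Sym2 V)) (A : Finset V) : Prop :=
  ∀ u ∈ A, ∀ v ∈ A, Relation.ReflTransGen (cr F) u v

omit [DecidableEq V] in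
lemma cr_symm (F : Finset (Sym2 V)) {x y : V} (h : cr F x y) : cr F y x := by
  unfold cr at *
  rw [Sym2.eq_swap]; exact h

omit [DecidableEq V] in
lemma rt_symm (F : Finset (Sym2 V)) {x y : V} (h : Relation.ReflTransGen (cr F) x y) :
    Relation.ReflTransGen (cr F) y x := by
  induction h with
  | refl => exact Relation.ReflTransGen.refl
  | tail _ h2 ih => exact Relation.ReflTransGen.head (cr_symm F h2) ih

open Classical in
/-- component of `a` in `A` -/
noncomputable def comp (F : Finset (Sym2 V)) (A : Finset V) (a : V) : Finset V :=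
  A.filter (fun v => Relation.ReflTransGen (cr F) a v)

omit [DecidableEq V] in
lemma comp_sub (F : Finset (Sym2 V)) (A : Finset V) (a : V) : comp F A a ⊆ A := by
  classical
  unfold comp; exact filter_subset _ _

omit [DecidableEq V] in
lemma mem_comp (F : Finset (Sym2 V)) (A : Finset V) (a v : V) :
    v ∈ comp F A a ↔ v ∈ A ∧ Relation.ReflTransGen (cr F) a v := by
  classical
  unfold comp; simp

lemma path_stays {A A' : Finset V} {a : V} (ha : a ∈ A') {F1 F2 : Finset (Sym2 V)}
    (h1 : F1 ⊆ EE A') (h2 : F2 ⊆ EE (A \ A')) (v : V)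
    (h : Relation.ReflTransGen (cr (F1 ∪ F2)) a v) :
    v ∈ A' ∧ Relation.ReflTransGen (cr F1) a v := by
  induction h with
  | refl => exact ⟨ha, Relation.ReflTransGen.refl⟩
  | @tail w v _ hwv ih =>
    obtain ⟨i1, i2⟩ := ih
    unfold cr at hwv
    rcases mem_union.1 hwv with h | h
    · have := mem_EE.1 (h1 h)
      exact ⟨this.2.1, i2.tail h⟩
    · have := mem_EE.1 (h2 h)
      exact absurd i1 (mem_sdiff.1 this.1).2

lemma comp_iff {A A' : Finset V} {a : V} (hA : A' ⊆ A) (ha : a ∈ A') {F1 F2 : Finset (Sym2 V)}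
    (h1 : F1 ⊆ EE A') (h2 : F2 ⊆ EE (A \ A')) :
    comp (F1 ∪ F2) A a = A' ↔ Con F1 A' := by
  constructor
  · intro h
    have key : ∀ v ∈ A', Relation.ReflTransGen (cr F1) a v := by
      intro v hv
      rw [← h, mem_comp] at hv
      exact (path_stays ha h1 h2 v hv.2).2
    intro u hu v hv
    exact (rt_symm F1 (key u hu)).trans (key v hv)
  · intro h
    ext v
    rw [mem_comp]
    constructor
    · rintro ⟨_, hv⟩
      exact (path_stays ha h1 h2 v hv).1
    · intro hv
      refine ⟨hA hv, ?_⟩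
      have := h a ha v hv
      have hle : cr F1 ≤ cr (F1 ∪ F2) := fun x y hxy => mem_union_left _ hxy
      exact Relation.ReflTransGen.mono hle _ _ this

lemma comp_split {A : Finset V} {a : V} {F : Finset (Sym2 V)} (hF : F ⊆ EE A) :
    F ⊆ EE (comp F A a) ∪ EE (A \ comp F A a) := by
  intro e
  induction e using Sym2.ind with
  | _ u v =>
    intro he
    have hA := mem_EE.1 (hF he)
    rw [mem_union, mem_EE, mem_EE]
    have key : u ∈ comp F A a ↔ v ∈ comp F A a := by
      rw [mem_comp, mem_comp]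
      constructor
      · rintro ⟨_, h⟩
        exact ⟨hA.2.1, h.tail he⟩
      · rintro ⟨_, h⟩
        exact ⟨hA.1, h.tail (cr_symm F (x := u) (y := v) he)⟩
    by_cases hu : u ∈ comp F A a
    · left; exact ⟨hu, key.1 hu, hA.2.2⟩
    · right
      exact ⟨mem_sdiff.2 ⟨hA.1, hu⟩, mem_sdiff.2 ⟨hA.2.1, fun h => hu (key.2 h)⟩, hA.2.2⟩

variable (w wb : Sym2 V → ℝ)

/-- weight of `F` inside `A` -/
noncomputable def wt (A : Finset V) (F : Finset (Sym2 V)) : ℝ := (∏ e ∈ F, w e) * ∏ e ∈ EE A \ F, wb e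

open Classical in
/-- total weight of connected `F` -/
noncomputable def Ks (A : Finset V) : ℝ := ∑ F ∈ (EE A).powerset with Con F A, wt w wb A F

/-- total weight -/
noncomputable def Tot (A : Finset V) : ℝ := ∏ e ∈ EE A, (w e + wb e)

/-- cross edges -/
def cross (A A' : Finset V) : Finset (Sym2 V) := EE A \ (EE A' ∪ EE (A \ A'))

lemma Tot_eq (A : Finset V) : Tot w wb A = ∑ F ∈ (EE A).powerset, wt w wb A F := by
  unfold Tot wt; rw [Finset.prod_add]

lemma wt_split {A A' : Finset V} (hA : A' ⊆ A) {F1 F2 : Finset (Sym2 V)}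
    (h1 : F1 ⊆ EE A') (h2 : F2 ⊆ EE (A \ A')) :
    wt w wb A (F1 ∪ F2) = wt w wb A' F1 * wt w wb (A \ A') F2 * ∏ e ∈ cross A A', wb e := by
  unfold wt
  have d0 : Disjoint (EE A') (EE (A \ A')) := EE_disj (Finset.disjoint_sdiff)
  have d1 : Disjoint F1 F2 := Finset.disjoint_of_subset_left h1 (Finset.disjoint_of_subset_right h2 d0)
  rw [Finset.prod_union d1]
  have s1 : EE A' ⊆ EE A := EE_mono hA
  have s2 : EE (A \ A') ⊆ EE A := EE_mono sdiff_subset
  have e : EE A \ (F1 ∪ F2) = ((EE A' \ F1) ∪ (EE (A \ A') \ F2)) ∪ cross A A' := by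
    ext x
    unfold cross
    simp only [mem_sdiff, mem_union]
    have t1 := @s1 x
    have t2 := @s2 x
    have t3 := @h1 x
    have t4 := @h2 x
    have t5 : x ∈ EE A' → x ∉ EE (A \ A') := fun h => Finset.disjoint_left.1 d0 h
    tauto
  have d2 : Disjoint (EE A' \ F1) (EE (A \ A') \ F2) :=
    Finset.disjoint_of_subset_left sdiff_subset (Finset.disjoint_of_subset_right sdiff_subset d0)
  have d3 : Disjoint ((EE A' \ F1) ∪ (EE (A \ A') \ F2)) (cross A A') := by
    unfold cross
    apply Finset.disjoint_of_subset_left (Finset.union_subset_union sdiff_subset sdiff_subset)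
    exact Finset.disjoint_sdiff
  rw [e, Finset.prod_union d3, Finset.prod_union d2]
  ring

lemma fiber_sum {A A' : Finset V} {a : V} (hA : A' ⊆ A) (ha : a ∈ A') :
    ∑ F ∈ (EE A).powerset.filter (fun F => comp F A a = A'), wt w wb A F =
      Ks w wb A' * Tot w wb (A \ A') * ∏ e ∈ cross A A', wb e := by
  classical
  rw [Tot_eq]
  unfold Ks
  rw [Finset.sum_mul_sum, ← Finset.sum_product', Finset.sum_mul]
  have s1 : EE A' ⊆ EE A := EE_mono hA
  have s2 : EE (A \ A') ⊆ EE A := EE_mono sdiff_subset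
  have d0 : Disjoint (EE A') (EE (A \ A')) := EE_disj (Finset.disjoint_sdiff)
  symm
  apply Finset.sum_nbij' (fun p : Finset (Sym2 V) × Finset (Sym2 V) => p.1 ∪ p.2)
    (fun F => (F ∩ EE A', F ∩ EE (A \ A')))
  · rintro ⟨F1, F2⟩ hp
    simp only [mem_product, mem_filter, mem_powerset] at hp ⊢
    obtain ⟨⟨h1, hc⟩, h2⟩ := hp
    exact ⟨Finset.union_subset (h1.trans s1) (h2.trans s2), (comp_iff hA ha h1 h2).2 hc⟩
  · intro F hF
    simp only [mem_product, mem_filter, mem_powerset] at hF ⊢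
    obtain ⟨hF1, hF2⟩ := hF
    have hsp := comp_split (a := a) hF1
    rw [hF2] at hsp
    have e : (F ∩ EE A') ∪ (F ∩ EE (A \ A')) = F := by
      rw [← Finset.inter_union_distrib_left]
      exact Finset.inter_eq_left.2 hsp
    refine ⟨⟨inter_subset_right, ?_⟩, inter_subset_right⟩
    rw [← comp_iff hA ha (inter_subset_right) (inter_subset_right) (F2 := F ∩ EE (A \ A')), e]
    exact hF2
  · rintro ⟨F1, F2⟩ hp
    simp only [mem_product, mem_filter, mem_powerset] at hp ⊢
    obtain ⟨⟨h1, hc⟩, h2⟩ := hp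
    have t1 : (F1 ∪ F2) ∩ EE A' = F1 := by
      rw [Finset.union_inter_distrib_right, Finset.inter_eq_left.2 h1]
      have : F2 ∩ EE A' = ∅ := by
        rw [← Finset.disjoint_iff_inter_eq_empty]
        exact Finset.disjoint_of_subset_left h2 d0.symm
      rw [this, Finset.union_empty]
    have t2 : (F1 ∪ F2) ∩ EE (A \ A') = F2 := by
      rw [Finset.union_inter_distrib_right, Finset.inter_eq_left.2 h2]
      have : F1 ∩ EE (A \ A') = ∅ := by
        rw [← Finset.disjoint_iff_inter_eq_empty]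
        exact Finset.disjoint_of_subset_left h1 d0
      rw [this, Finset.empty_union]
    rw [t1, t2]
  · intro F hF
    simp only [mem_filter, mem_powerset] at hF ⊢
    obtain ⟨hF1, hF2⟩ := hF
    have hsp := comp_split (a := a) hF1
    rw [hF2] at hsp
    rw [← Finset.inter_union_distrib_left]
    exact Finset.inter_eq_left.2 hsp
  · rintro ⟨F1, F2⟩ hp
    simp only [mem_product, mem_filter, mem_powerset] at hp ⊢
    obtain ⟨⟨h1, hc⟩, h2⟩ := hp
    rw [wt_split w wb hA h1 h2]

/-- Root component recursion. -/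
theorem root_rec (A : Finset V) (a : V) (ha : a ∈ A) :
    ∑ A' ∈ A.powerset.filter (fun A' => a ∈ A'), Ks w wb A' * Tot w wb (A \ A') *
      ∏ e ∈ cross A A', wb e = Tot w wb A := by
  classical
  rw [Tot_eq w wb A]
  rw [← Finset.sum_fiberwise_of_maps_to (t := A.powerset.filter (fun A' => a ∈ A'))
    (g := fun F => comp F A a)]
  · apply Finset.sum_congr rfl
    intro A' hA'
    rw [mem_filter, mem_powerset] at hA'
    rw [fiber_sum w wb hA'.1 hA'.2]
  · intro F _
    rw [mem_filter, mem_powerset]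
    refine ⟨comp_sub _ _ _, ?_⟩
    rw [mem_comp]
    exact ⟨ha, Relation.ReflTransGen.refl⟩

end Graph

end Helper11.Conn
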