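import Mathlib
import Pool.Agent.Helper11_Conn.Graph

/-!
Identification of the weighted numbers of connected graphs containing a star or two disjoint edges.
-/

open Finset PowerSeries

namespace Helper11.Conn

lemma series_rec (q : ℝ) (G : ℝ⟦X⟧) (r : ℕ) :
    ∑ i ∈ range (r + 1), (r.choose i : ℝ) * ((i.factorial : ℝ) * coeff i G * q ^ ((r - i).choose 2)) =
      (r.factorial : ℝ) * coeff r (G * Phi q) := by
  rw [coeff_mul, Finset.Nat.sum_antidiagonal_eq_sum_range_succ
    (fun i j => coeff i G * coeff j (Phi q)), Finset.mul_sum]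
  apply Finset.sum_congr rfl
  intro i hi
  have hi' : i ≤ r := by simpa [Nat.lt_succ_iff] using hi
  rw [coeff_Phi, Nat.cast_choose ℝ hi']
  have f1 : (i.factorial : ℝ) ≠ 0 := by positivity
  have f2 : ((r - i).factorial : ℝ) ≠ 0 := by positivity
  field_simp

section Graph
variable {V : Type*} [DecidableEq V]

lemma sum_supersets (T A : Finset V) (hTA : T ⊆ A) (h : ℕ → ℝ) :
    ∑ A' ∈ A.powerset.filter (fun A' => T ⊆ A'), h (A'.card - T.card) =
      ∑ i ∈ range (A.card - T.card + 1), ((A.card - T.card).choose i : ℝ) * h i := by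
  have h1 := Finset.sum_powerset_apply_card (x := A \ T) h
  rw [Finset.card_sdiff_of_subset hTA] at h1
  simp only [nsmul_eq_mul] at h1
  rw [← h1]
  apply Finset.sum_nbij' (fun A' => A' \ T) (fun B => B ∪ T)
  · intro A' hA'
    simp only [mem_filter, mem_powerset] at hA' ⊢
    exact Finset.sdiff_subset_sdiff hA'.1 (Finset.Subset.refl _)
  · intro B hB
    simp only [mem_filter, mem_powerset] at hB ⊢
    exact ⟨Finset.union_subset (hB.trans sdiff_subset) hTA, subset_union_right⟩
  · intro A' hA'
    simp only [mem_filter, mem_powerset] at hA'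
    exact Finset.sdiff_union_of_subset hA'.2
  · intro B hB
    simp only [mem_powerset] at hB
    have hd : Disjoint B T := Finset.disjoint_of_subset_left hB Finset.sdiff_disjoint
    show (B ∪ T) \ T = B
    rw [Finset.union_sdiff_right, Finset.sdiff_eq_self_of_disjoint hd]
  · intro A' hA'
    simp only [mem_filter, mem_powerset] at hA'
    rw [Finset.card_sdiff_of_subset hA'.2]

lemma ident (q : ℝ) (T : Finset V) (f : Finset V → ℝ) (g R : ℕ → ℝ)
    (hf : ∀ A, T ⊆ A → ∑ A' ∈ A.powerset.filter (fun A' => T ⊆ A'),
      f A' * q ^ ((A.card - A'.card).choose 2) = R (A.card - T.card))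
    (hg : ∀ r, ∑ i ∈ range (r + 1), (r.choose i : ℝ) * (g i * q ^ ((r - i).choose 2)) = R r) :
    ∀ A, T ⊆ A → f A = g (A.card - T.card) := by
  intro A
  induction hn : A.card using Nat.strong_induction_on generalizing A with
  | _ n ih =>
    intro hTA
    have h1 := hf A hTA
    have h2 : ∑ A' ∈ A.powerset.filter (fun A' => T ⊆ A'),
        g (A'.card - T.card) * q ^ ((A.card - A'.card).choose 2) = R (A.card - T.card) := by
      rw [← hg (A.card - T.card)]
      have h3 := sum_supersets T A hTA (fun i => g i * q ^ ((A.card - T.card - i).choose 2))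
      rw [← h3]
      apply Finset.sum_congr rfl
      intro A' hA'
      simp only [mem_filter, mem_powerset] at hA'
      have c1 := Finset.card_le_card hA'.1
      have c2 := Finset.card_le_card hA'.2
      have e : A.card - A'.card = A.card - T.card - (A'.card - T.card) := by omega
      rw [e]
    have h4 : ∑ A' ∈ A.powerset.filter (fun A' => T ⊆ A'),
        (f A' - g (A'.card - T.card)) * q ^ ((A.card - A'.card).choose 2) = 0 := by
      simp only [sub_mul, Finset.sum_sub_distrib]
      rw [h1, h2]; ring
    rw [Finset.sum_eq_single A] at h4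
    · rw [Nat.sub_self] at h4
      simp only [Nat.choose_zero_succ, pow_zero, mul_one] at h4
      rw [← hn]; linarith
    · intro A' hA' hne
      simp only [mem_filter, mem_powerset] at hA'
      have hlt : A'.card < n := by
        rw [← hn]
        exact Finset.card_lt_card (lt_of_le_of_ne hA'.1 hne)
      rw [ih A'.card hlt A' rfl hA'.2]
      ring
    · intro h
      exact absurd (mem_filter.2 ⟨mem_powerset.2 (Finset.Subset.refl _), hTA⟩) h

/-- absent weight -/
noncomputable def wS (S : Finset (Sym2 V)) : Sym2 V → ℝ := fun e => if e ∈ S then 0 else 1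

/-- total `α`-weight of `F ⊇ S` connecting `A` -/
noncomputable def KS (α : ℝ) (S : Finset (Sym2 V)) (A : Finset V) : ℝ := Ks (fun _ => α) (wS S) A

lemma Tot_S (α : ℝ) (S : Finset (Sym2 V)) (A : Finset V) :
    Tot (fun _ => α) (wS S) A = α ^ (EE A ∩ S).card * (1 + α) ^ (EE A \ S).card := by
  unfold Tot wS
  have e : ∀ e ∈ EE A, (α + if e ∈ S then (0 : ℝ) else 1) = if e ∈ S then α else 1 + α := by
    intro e _; split_ifs
    · ring
    · ring
  rw [Finset.prod_congr rfl e, Finset.prod_ite, Finset.prod_const, Finset.prod_const,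
    Finset.filter_mem_eq_inter, Finset.filter_notMem_eq_sdiff]

lemma cross_one (S : Finset (Sym2 V)) (A A' : Finset V) (h : ∀ e ∈ S, e ∈ EE A → e ∈ EE A' ∪ EE (A \ A')) :
    ∏ e ∈ cross A A', wS S e = 1 := by
  apply Finset.prod_eq_one
  intro e he
  unfold cross at he
  rw [mem_sdiff] at he
  unfold wS
  rw [if_neg]
  intro hS
  exact he.2 (h e hS he.1)

lemma cross_zero (S : Finset (Sym2 V)) (A A' : Finset V) (e : Sym2 V) (hS : e ∈ S) (he : e ∈ EE A)
    (h : e ∉ EE A' ∪ EE (A \ A')) :
    ∏ e ∈ cross A A', wS S e = 0 := by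
  apply Finset.prod_eq_zero (i := e)
  · unfold cross; rw [mem_sdiff]; exact ⟨he, h⟩
  · unfold wS; rw [if_pos hS]

lemma Ks_congr (w wb wb' : Sym2 V → ℝ) (A : Finset V) (h : ∀ e ∈ EE A, wb e = wb' e) :
    Ks w wb A = Ks w wb' A := by
  classical
  unfold Ks
  apply Finset.sum_congr rfl
  intro F _
  unfold wt
  congr 1
  apply Finset.prod_congr rfl
  intro e he
  exact h e (mem_sdiff.1 he).1

/-- star edges -/
def star (a : V) (L : Finset V) : Finset (Sym2 V) := L.image (fun x => s(a, x))

lemma card_star (a : V) (L : Finset V) : (star a L).card = L.card := by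
  unfold star
  apply Finset.card_image_of_injective
  intro x y h
  have := Sym2.eq_iff.1 h
  rcases this with ⟨_, h⟩ | ⟨h1, h2⟩
  · exact h
  · rw [← h1, h2]

lemma star_sub (a : V) (L A : Finset V) (ha : a ∉ L) (hA : insert a L ⊆ A) : star a L ⊆ EE A := by
  intro e he
  unfold star at he
  obtain ⟨x, hx, rfl⟩ := mem_image.1 he
  rw [mem_EE]
  exact ⟨hA (mem_insert_self _ _), hA (mem_insert_of_mem hx), fun h => ha (h ▸ hx)⟩

lemma choose_arith (r l : ℕ) :
    (r + (l + 1)).choose 2 - l = l.choose 2 + ((l + 1) * r + r.choose 2) := by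
  have h : ∀ n : ℕ, 2 * n.choose 2 = n * (n - 1) := by
    intro n
    rw [Nat.choose_two_right]
    exact Nat.mul_div_cancel' (Nat.even_mul_pred_self n).two_dvd
  have key : (r + (l + 1)).choose 2 = l + (l.choose 2 + ((l + 1) * r + r.choose 2)) := by
    have h1 := h (r + (l + 1))
    have h2 := h l
    have h3 := h r
    have e1 : r + (l + 1) - 1 = r + l := by omega
    rw [e1] at h1
    have : 2 * (r + (l + 1)).choose 2 = 2 * (l + (l.choose 2 + ((l + 1) * r + r.choose 2))) := by
      rw [h1]
      have : 2 * (l + (l.choose 2 + ((l + 1) * r + r.choose 2))) =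
          2 * l + (2 * l.choose 2) + 2 * ((l + 1) * r) + 2 * r.choose 2 := by ring
      rw [this, h2, h3]
      rcases l with _ | l <;> rcases r with _ | r <;> simp <;> ring
    omega
  omega

theorem KS_star (α : ℝ) (a : V) (L : Finset V) (ha : a ∉ L) (A : Finset V) (hA : insert a L ⊆ A) :
    KS α (star a L) A = ((A.card - (L.card + 1)).factorial : ℝ) *
      (α ^ L.card * (1 + α) ^ (L.card.choose 2) *
        coeff (A.card - (L.card + 1)) (P (1 + α) (L.card + 1))) := by
  have hT : (insert a L).card = L.card + 1 := Finset.card_insert_of_notMem ha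
  have key := ident (1 + α) (insert a L) (KS α (star a L))
    (fun i => (i.factorial : ℝ) * (α ^ L.card * (1 + α) ^ (L.card.choose 2) *
        coeff i (P (1 + α) (L.card + 1))))
    (fun r => α ^ L.card * (1 + α) ^ ((r + (L.card + 1)).choose 2 - L.card)) ?_ ?_ A hA
  · rw [hT] at key
    exact key
  · intro A hA
    have hr := root_rec (fun _ => α) (wS (star a L)) A a (hA (mem_insert_self _ _))
    have hS := star_sub a L A ha hA
    rw [Tot_S] at hr
    have c1 : (EE A ∩ star a L).card = L.card := by
      rw [Finset.inter_eq_right.2 hS, card_star]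
    have c2 : (EE A \ star a L).card = A.card.choose 2 - L.card := by
      rw [Finset.card_sdiff_of_subset hS, card_star, card_EE]
    have hcard : A.card - (insert a L).card + (L.card + 1) = A.card := by
      have := Finset.card_le_card hA
      rw [hT] at this ⊢
      omega
    rw [hcard]
    rw [c1, c2] at hr
    rw [← hr]
    rw [← Finset.sum_filter_of_ne (s := A.powerset.filter (fun A' => a ∈ A'))
      (p := fun A' => insert a L ⊆ A')]
    · have hset : (A.powerset.filter (fun A' => a ∈ A')).filter (fun A' => insert a L ⊆ A') =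
          A.powerset.filter (fun A' => insert a L ⊆ A') := by
        ext A'
        simp only [mem_filter]
        constructor
        · rintro ⟨⟨h1, _⟩, h3⟩; exact ⟨h1, h3⟩
        · rintro ⟨h1, h3⟩; exact ⟨⟨h1, h3 (mem_insert_self _ _)⟩, h3⟩
      rw [hset]
      apply Finset.sum_congr rfl
      intro A' hA'
      simp only [mem_filter, mem_powerset] at hA'
      have hS' := star_sub a L A' ha hA'.2
      rw [cross_one (star a L) A A' (fun e he _ => mem_union_left _ (hS' he)), mul_one]
      rw [Tot_S]
      have d0 : Disjoint (EE A') (EE (A \ A')) := EE_disj (Finset.disjoint_sdiff)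
      have d1 : Disjoint (EE (A \ A')) (star a L) :=
        (Finset.disjoint_of_subset_left hS' d0).symm
      rw [Finset.disjoint_iff_inter_eq_empty.1 d1, Finset.sdiff_eq_self_of_disjoint d1,
        Finset.card_empty, pow_zero, one_mul, card_EE, Finset.card_sdiff_of_subset hA'.1]
      rfl
    · intro A' hA' hne
      simp only [mem_filter, mem_powerset] at hA'
      intro x hx
      rcases mem_insert.1 hx with rfl | hxL
      · exact hA'.2
      · by_contra hx'
        apply hne
        have hmem : s(a, x) ∈ star a L := mem_image.2 ⟨x, hxL, rfl⟩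
        rw [cross_zero (star a L) A A' s(a, x) hmem (hS hmem), mul_zero]
        rw [mem_union, mem_EE, mem_EE]
        rintro (h | h)
        · exact hx' h.2.1
        · exact (mem_sdiff.1 h.1).2 hA'.2
  · intro r
    have hs := series_rec (1 + α) (C (α ^ L.card * (1 + α) ^ (L.card.choose 2)) *
      P (1 + α) (L.card + 1)) r
    rw [mul_assoc, coeff_C_mul, P_mul, coeff_rescale, coeff_Phi] at hs
    simp only [coeff_C_mul] at hs
    rw [choose_arith]
    have f1 : (r.factorial : ℝ) ≠ 0 := by positivity
    have : (r.factorial : ℝ) * (α ^ L.card * (1 + α) ^ L.card.choose 2 *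
        (((1 + α) ^ (L.card + 1)) ^ r * ((1 + α) ^ r.choose 2 / (r.factorial : ℝ)))) =
        α ^ L.card * (1 + α) ^ (L.card.choose 2 + ((L.card + 1) * r + r.choose 2)) := by
      rw [pow_add (1 + α) (L.card.choose 2), pow_add (1 + α) ((L.card + 1) * r), pow_mul]
      field_simp
    rw [← this, ← hs]

lemma KS_congr (α : ℝ) (S S' : Finset (Sym2 V)) (A : Finset V) (h : ∀ e ∈ EE A, e ∈ S ↔ e ∈ S') :
    KS α S A = KS α S' A := by
  unfold KS
  apply Ks_congr
  intro e he
  unfold wS
  simp only [h e he]

theorem KS_disj (α : ℝ) (a b c d : V) (hab : a ≠ b) (hac : a ≠ c) (had : a ≠ d) (hbc : b ≠ c)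
    (hbd : b ≠ d) (hcd : c ≠ d) (A : Finset V) (hA : {a, b, c, d} ⊆ A) :
    KS α {s(a, b), s(c, d)} A = ((A.card - 4).factorial : ℝ) * (α ^ 2 * Dq α (A.card - 4)) := by
  set T : Finset V := {a, b, c, d} with hTdef
  have hT : T.card = 4 := by
    rw [hTdef, Finset.card_insert_of_notMem, Finset.card_insert_of_notMem,
      Finset.card_insert_of_notMem, Finset.card_singleton]
    · simpa using hcd
    · simp [hbc, hbd]
    · simp [hab, hac, had]
  set S : Finset (Sym2 V) := {s(a, b), s(c, d)} with hSdef
  have hScard : S.card = 2 := by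
    rw [hSdef, Finset.card_pair]
    intro h
    rcases Sym2.eq_iff.1 h with ⟨h1, _⟩ | ⟨h1, _⟩
    · exact hac h1
    · exact had h1
  have mem1 : s(a, b) ∈ S := by simp [hSdef]
  have mem2 : s(c, d) ∈ S := by simp [hSdef]
  have memS : ∀ e, e ∈ S ↔ e = s(a, b) ∨ e = s(c, d) := by intro e; simp [hSdef]
  have key := ident (1 + α) T (KS α S)
    (fun i => (i.factorial : ℝ) * (α ^ 2 * Dq α i))
    (fun r => α ^ 2 * (1 + α) ^ ((r + 4).choose 2 - 2) -
      ∑ i ∈ range (r + 1), (r.choose i : ℝ) * (((i.factorial : ℝ) * (α * rho α i)) *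
        (α * (1 + α) ^ ((r - i + 2).choose 2 - 1)))) ?_ ?_ A hA
  · rw [hT] at key
    exact key
  · intro A hA
    have haA : a ∈ A := hA (by simp [hTdef])
    have hbA : b ∈ A := hA (by simp [hTdef])
    have hcA : c ∈ A := hA (by simp [hTdef])
    have hdA : d ∈ A := hA (by simp [hTdef])
    have hr := root_rec (fun _ => α) (wS S) A a haA
    have hS : S ⊆ EE A := by
      intro e he
      rcases (memS e).1 he with rfl | rfl
      · exact mem_EE.2 ⟨haA, hbA, hab⟩
      · exact mem_EE.2 ⟨hcA, hdA, hcd⟩
    rw [Tot_S] at hr
    have c1 : (EE A ∩ S).card = 2 := by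
      rw [Finset.inter_eq_right.2 hS, hScard]
    have c2 : (EE A \ S).card = A.card.choose 2 - 2 := by
      rw [Finset.card_sdiff_of_subset hS, hScard, card_EE]
    have hA4 : 4 ≤ A.card := by
      have := Finset.card_le_card hA
      omega
    rw [c1, c2] at hr
    rw [hT, show A.card - 4 + 4 = A.card by omega]
    rw [← hr]
    -- split the sum over A' ∋ a
    have hz : ∀ A' ∈ A.powerset.filter (fun A' => a ∈ A'),
        Ks (fun _ => α) (wS S) A' * Tot (fun _ => α) (wS S) (A \ A') * ∏ e ∈ cross A A', wS S e =
        (if T ⊆ A' then KS α S A' * (1 + α) ^ ((A.card - A'.card).choose 2) else 0) +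
        (if A' ⊆ A \ {c, d} ∧ b ∈ A' then (KS α {s(a, b)} A') *
          (α * (1 + α) ^ ((A.card - A'.card).choose 2 - 1)) else 0) := by
      intro A' hA'
      simp only [mem_filter, mem_powerset] at hA'
      obtain ⟨hA'1, haA'⟩ := hA'
      have d0 : Disjoint (EE A') (EE (A \ A')) := EE_disj (Finset.disjoint_sdiff)
      have hcardD : (A \ A').card = A.card - A'.card := Finset.card_sdiff_of_subset hA'1
      by_cases hb : b ∈ A'
      · by_cases hc : c ∈ A'
        · by_cases hd : d ∈ A'
          · -- T ⊆ A'
            have hTA' : T ⊆ A' := by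
              intro x hx
              simp only [hTdef, mem_insert, mem_singleton] at hx
              rcases hx with rfl | rfl | rfl | rfl <;> assumption
            have hn : ¬ (A' ⊆ A \ {c, d} ∧ b ∈ A') := by
              rintro ⟨h, _⟩
              have := h hc
              simp at this
            rw [if_pos hTA', if_neg hn, add_zero]
            have hS' : S ⊆ EE A' := by
              intro e he
              rcases (memS e).1 he with rfl | rfl
              · exact mem_EE.2 ⟨haA', hb, hab⟩
              · exact mem_EE.2 ⟨hc, hd, hcd⟩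
            rw [cross_one S A A' (fun e he _ => mem_union_left _ (hS' he)), mul_one, Tot_S]
            have d1 : Disjoint (EE (A \ A')) S := (Finset.disjoint_of_subset_left hS' d0).symm
            rw [Finset.disjoint_iff_inter_eq_empty.1 d1, Finset.sdiff_eq_self_of_disjoint d1,
              Finset.card_empty, pow_zero, one_mul, card_EE, hcardD]
            rfl
          · -- c in, d out
            have hn1 : ¬ T ⊆ A' := fun h => hd (h (by simp [hTdef]))
            have hn2 : ¬ (A' ⊆ A \ {c, d} ∧ b ∈ A') := by
              rintro ⟨h, _⟩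
              have := h hc
              simp at this
            rw [if_neg hn1, if_neg hn2, add_zero]
            rw [cross_zero S A A' s(c, d) mem2 (hS mem2), mul_zero]
            rw [mem_union, mem_EE, mem_EE]
            rintro (h | h)
            · exact hd h.2.1
            · exact (mem_sdiff.1 h.1).2 hc
        · by_cases hd : d ∈ A'
          · have hn1 : ¬ T ⊆ A' := fun h => hc (h (by simp [hTdef]))
            have hn2 : ¬ (A' ⊆ A \ {c, d} ∧ b ∈ A') := by
              rintro ⟨h, _⟩
              have := h hd
              simp at this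
            rw [if_neg hn1, if_neg hn2, add_zero]
            rw [cross_zero S A A' s(c, d) mem2 (hS mem2), mul_zero]
            rw [mem_union, mem_EE, mem_EE]
            rintro (h | h)
            · exact hc h.1
            · exact (mem_sdiff.1 h.2.1).2 hd
          · -- both out
            have hn1 : ¬ T ⊆ A' := fun h => hc (h (by simp [hTdef]))
            have hp : A' ⊆ A \ {c, d} ∧ b ∈ A' := by
              refine ⟨?_, hb⟩
              intro x hx
              rw [mem_sdiff]
              refine ⟨hA'1 hx, ?_⟩
              simp only [mem_insert, mem_singleton]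
              rintro (rfl | rfl)
              · exact hc hx
              · exact hd hx
            rw [if_neg hn1, if_pos hp, zero_add]
            have hab' : s(a, b) ∈ EE A' := mem_EE.2 ⟨haA', hb, hab⟩
            have hcd' : s(c, d) ∈ EE (A \ A') :=
              mem_EE.2 ⟨mem_sdiff.2 ⟨hcA, hc⟩, mem_sdiff.2 ⟨hdA, hd⟩, hcd⟩
            rw [cross_one S A A' (by
              intro e he _
              rcases (memS e).1 he with rfl | rfl
              · exact mem_union_left _ hab'
              · exact mem_union_right _ hcd'), mul_one, Tot_S]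
            have i1 : EE (A \ A') ∩ S = {s(c, d)} := by
              ext e
              simp only [mem_inter, mem_singleton]
              constructor
              · rintro ⟨h1, h2⟩
                rcases (memS e).1 h2 with rfl | rfl
                · exact absurd h1 (Finset.disjoint_left.1 d0 hab')
                · rfl
              · rintro rfl
                exact ⟨hcd', mem2⟩
            have i2 : (EE (A \ A') \ S).card = (A.card - A'.card).choose 2 - 1 := by
              rw [← Finset.sdiff_inter_self_left, i1, Finset.card_sdiff_of_subset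
                (Finset.singleton_subset_iff.2 hcd'), Finset.card_singleton, card_EE, hcardD]
            rw [i1, i2, Finset.card_singleton, pow_one]
            congr 1
            apply KS_congr
            intro e he
            rw [memS, mem_singleton]
            constructor
            · rintro (h | h)
              · exact h
              · rw [h] at he
                exact absurd hcd' (Finset.disjoint_left.1 d0 he)
            · intro h; exact Or.inl h
      · have hn1 : ¬ T ⊆ A' := fun h => hb (h (by simp [hTdef]))
        rw [if_neg hn1, if_neg (fun h => hb h.2), add_zero]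
        rw [cross_zero S A A' s(a, b) mem1 (hS mem1), mul_zero]
        rw [mem_union, mem_EE, mem_EE]
        rintro (h | h)
        · exact hb h.2.1
        · exact (mem_sdiff.1 h.1).2 haA'
    rw [Finset.sum_congr rfl hz, Finset.sum_add_distrib]
    rw [← Finset.sum_filter, ← Finset.sum_filter]
    have hset1 : (A.powerset.filter (fun A' => a ∈ A')).filter (fun A' => T ⊆ A') =
        A.powerset.filter (fun A' => T ⊆ A') := by
      ext A'
      simp only [mem_filter]
      constructor
      · rintro ⟨⟨h1, _⟩, h3⟩; exact ⟨h1, h3⟩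
      · rintro ⟨h1, h3⟩; exact ⟨⟨h1, h3 (by simp [hTdef])⟩, h3⟩
    have hset2 : (A.powerset.filter (fun A' => a ∈ A')).filter (fun A' => A' ⊆ A \ {c, d} ∧ b ∈ A') =
        (A \ {c, d}).powerset.filter (fun A' => {a, b} ⊆ A') := by
      ext A'
      simp only [mem_filter, mem_powerset]
      constructor
      · rintro ⟨⟨_, h2⟩, h3, h4⟩
        refine ⟨h3, ?_⟩
        intro x hx
        simp only [mem_insert, mem_singleton] at hx
        rcases hx with rfl | rfl <;> assumption
      · rintro ⟨h1, h2⟩
        exact ⟨⟨h1.trans sdiff_subset, h2 (by simp)⟩, h1, h2 (by simp)⟩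
    rw [hset1, hset2]
    have hsub2 : ({a, b} : Finset V) ⊆ A \ {c, d} := by
      intro x hx
      simp only [mem_insert, mem_singleton] at hx
      rw [mem_sdiff]
      rcases hx with rfl | rfl
      · exact ⟨haA, by simp [hac, had]⟩
      · exact ⟨hbA, by simp [hbc, hbd]⟩
    have hcab : ({a, b} : Finset V).card = 2 := Finset.card_pair hab
    have hccd : (A \ {c, d}).card = A.card - 2 := by
      rw [Finset.card_sdiff_of_subset (by
        intro x hx
        simp only [mem_insert, mem_singleton] at hx
        rcases hx with rfl | rfl <;> assumption), Finset.card_pair hcd]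
    have h2 := sum_supersets {a, b} (A \ {c, d}) hsub2
      (fun i => ((i.factorial : ℝ) * (α * rho α i)) *
        (α * (1 + α) ^ ((A.card - 4 - i + 2).choose 2 - 1)))
    rw [hcab, hccd, show A.card - 2 - 2 = A.card - 4 by omega] at h2
    rw [← h2]
    have h3 : ∀ A' ∈ (A \ {c, d}).powerset.filter (fun A' => {a, b} ⊆ A'),
        KS α {s(a, b)} A' * (α * (1 + α) ^ ((A.card - A'.card).choose 2 - 1)) =
        (((A'.card - 2).factorial : ℝ) * (α * rho α (A'.card - 2))) *
        (α * (1 + α) ^ ((A.card - 4 - (A'.card - 2) + 2).choose 2 - 1)) := by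
      intro A' hA'
      simp only [mem_filter, mem_powerset] at hA'
      have hk := KS_star α a {b} (by simpa using hab) A' hA'.2
      have hst : star a {b} = {s(a, b)} := by unfold star; simp
      rw [hst] at hk
      simp only [Finset.card_singleton, Nat.choose_succ_self, pow_zero, pow_one, mul_one] at hk
      rw [hk]
      have q1 := Finset.card_le_card hA'.1
      have q2 := Finset.card_le_card hA'.2
      rw [hccd] at q1
      rw [hcab] at q2
      have e : A.card - 4 - (A'.card - 2) + 2 = A.card - A'.card := by omega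
      rw [e]
      rfl
    rw [Finset.sum_congr rfl h3]
    ring
  · intro r
    have hs := series_rec (1 + α) (C (α ^ 2) * (C ((1 + α) ^ 4) * P (1 + α) 4 -
      P (1 + α) 2 * P (1 + α) 2)) r
    have hs2 := series_rec (1 + α) (C α * P (1 + α) 2) r
    have e0 : ∀ i, coeff i (C (α ^ 2) * (C ((1 + α) ^ 4) * P (1 + α) 4 -
      P (1 + α) 2 * P (1 + α) 2)) = α ^ 2 * Dq α i := by
      intro i
      rw [coeff_C_mul, map_sub, coeff_C_mul]
      rfl
    simp only [e0] at hs
    rw [hs]
    have e1 : C (α ^ 2) * (C ((1 + α) ^ 4) * P (1 + α) 4 - P (1 + α) 2 * P (1 + α) 2) *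
        Phi (1 + α) = C (α ^ 2) * (C ((1 + α) ^ 4) * rescale ((1 + α) ^ 4) (Phi (1 + α)) -
          P (1 + α) 2 * rescale ((1 + α) ^ 2) (Phi (1 + α))) := by
      rw [← P_mul (1 + α) 4, ← P_mul (1 + α) 2]; ring
    rw [e1, coeff_C_mul, map_sub, coeff_C_mul, coeff_rescale, coeff_Phi, coeff_mul]
    rw [Finset.Nat.sum_antidiagonal_eq_sum_range_succ
      (fun i j => coeff i (P (1 + α) 2) * coeff j (rescale ((1 + α) ^ 2) (Phi (1 + α))))]
    have f1 : (r.factorial : ℝ) ≠ 0 := by positivity
    have e2 : ∀ i ∈ range (r + 1), (r.choose i : ℝ) * (((i.factorial : ℝ) * (α * rho α i)) *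
        (α * (1 + α) ^ ((r - i + 2).choose 2 - 1))) =
        (r.factorial : ℝ) * (α ^ 2 * (coeff i (P (1 + α) 2) *
          coeff (r - i) (rescale ((1 + α) ^ 2) (Phi (1 + α))))) := by
      intro i hi
      have hi' : i ≤ r := by simpa [Nat.lt_succ_iff] using hi
      rw [coeff_rescale, coeff_Phi, Nat.cast_choose ℝ hi']
      have f2 : (i.factorial : ℝ) ≠ 0 := by positivity
      have f3 : ((r - i).factorial : ℝ) ≠ 0 := by positivity
      have ea := choose_arith (r - i) 1
      rw [show r - i + (1 + 1) = r - i + 2 from rfl] at ea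
      simp only [Nat.choose_succ_self, zero_add] at ea
      rw [ea, pow_add, ← pow_mul]
      unfold rho
      field_simp
    rw [Finset.sum_congr rfl e2, ← Finset.mul_sum, ← Finset.mul_sum]
    have ea := choose_arith r 3
    have eb : (r + 4).choose 2 - 2 = 4 + (4 * r + r.choose 2) := by
      have e3 : (3 : ℕ).choose 2 = 3 := rfl
      rw [show r + (3 + 1) = r + 4 from rfl, e3] at ea
      omega
    rw [eb, pow_add, pow_add, ← pow_mul]
    field_simp

end Graph

end Helper11.Conn
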