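import Mathlib
import Pool.Agent.Helper11_Conn.Count

/-!
The edge count identity and the inequality on complete graphs.
-/

open Finset PowerSeries

namespace Helper11.Conn

section Graph
variable {V : Type*} [DecidableEq V]

open Classical in
lemma KS_eq (α : ℝ) (S : Finset (Sym2 V)) (A : Finset V) (hS : S ⊆ EE A) :
    KS α S A = ∑ F ∈ (EE A).powerset with (Con F A ∧ S ⊆ F), α ^ F.card := by
  unfold KS Ks
  rw [← Finset.filter_filter, Finset.sum_filter (p := fun F => S ⊆ F)]
  apply Finset.sum_congr rfl
  intro F hF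
  have hF1 : F ⊆ EE A := mem_powerset.1 (mem_filter.1 hF).1
  unfold wt wS
  rw [Finset.prod_const]
  by_cases h : S ⊆ F
  · rw [if_pos h]
    rw [Finset.prod_eq_one, mul_one]
    intro e he
    rw [mem_sdiff] at he
    rw [if_neg]
    intro heS
    exact he.2 (h heS)
  · rw [if_neg h]
    obtain ⟨e, heS, heF⟩ := Finset.not_subset.1 h
    rw [Finset.prod_eq_zero (i := e), mul_zero]
    · exact mem_sdiff.2 ⟨hS heS, heF⟩
    · rw [if_pos heS]

open Classical in
lemma sum_single (α : ℝ) (A : Finset V) :
    ∑ f ∈ EE A, KS α {f} A = ∑ F ∈ (EE A).powerset with Con F A, (F.card : ℝ) * α ^ F.card := by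
  classical
  have h1 : ∀ f ∈ EE A, KS α {f} A =
      ∑ F ∈ (EE A).powerset with Con F A, if f ∈ F then α ^ F.card else 0 := by
    intro f hf
    rw [KS_eq α {f} A (Finset.singleton_subset_iff.2 hf), ← Finset.filter_filter, Finset.sum_filter]
    apply Finset.sum_congr rfl
    intro F _
    simp only [Finset.singleton_subset_iff]
  rw [Finset.sum_congr rfl h1, Finset.sum_comm]
  apply Finset.sum_congr rfl
  intro F hF
  have hF1 : F ⊆ EE A := mem_powerset.1 (mem_filter.1 hF).1
  rw [← Finset.sum_filter, Finset.sum_const, Finset.filter_mem_eq_inter,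
    Finset.inter_eq_right.2 hF1, nsmul_eq_mul]

end Graph

theorem edgeId {α : ℝ} (hα : 0 < α) : EdgeId α := by
  classical
  intro m
  rcases m with _ | m
  · rw [zeta_zero]; simp [dd]
  -- A = univ in Fin (m+2)
  set A : Finset (Fin (m + 2)) := univ with hA
  have hcard : A.card = m + 2 := by rw [hA, Finset.card_univ, Fintype.card_fin]
  have hK0 : ∀ β : ℝ, ∑ F ∈ (EE A).powerset with Con F A, β ^ F.card =
      ((m + 1).factorial : ℝ) * (β ^ (m + 1) * Zs (1 + β) (m + 1)) := by
    intro β
    have h := KS_star β (0 : Fin (m + 2)) ∅ (by simp) A (by simp [hA])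
    have hst : star (0 : Fin (m + 2)) ∅ = ∅ := by unfold star; simp
    rw [hst] at h
    rw [KS_eq β ∅ A (Finset.empty_subset _)] at h
    simp only [Finset.empty_subset, and_true, Finset.card_empty, Nat.choose_zero_succ, pow_zero,
      mul_one, one_mul, zero_add] at h
    rw [hcard, show m + 2 - 1 = m + 1 from rfl] at h
    rw [h]
    have : coeff (m + 1) (P (1 + β) 1) = kap β (m + 1) := rfl
    rw [this, kap_eq]
  have d1 : HasDerivAt (fun β : ℝ => ∑ F ∈ (EE A).powerset with Con F A, β ^ F.card)
      (∑ F ∈ (EE A).powerset with Con F A, (F.card : ℝ) * α ^ (F.card - 1)) α := by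
    apply HasDerivAt.fun_sum
    intro F _
    exact hasDerivAt_pow F.card α
  have d2 : HasDerivAt (fun β : ℝ => ((m + 1).factorial : ℝ) * (β ^ (m + 1) * Zs (1 + β) (m + 1)))
      (((m + 1).factorial : ℝ) * ((((m + 1 : ℕ) : ℝ) * α ^ m) * Zs (1 + α) (m + 1) +
        α ^ (m + 1) * Zd (1 + α) (m + 1))) α := by
    apply HasDerivAt.const_mul
    apply HasDerivAt.mul
    · exact hasDerivAt_pow (m + 1) α
    · have h1 : HasDerivAt (fun β : ℝ => 1 + β) 1 α := (hasDerivAt_id α).const_add 1
      have := HasDerivAt.comp α (Zs_hasDeriv (1 + α) (m + 1)) h1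
      simp only [mul_one] at this
      exact this
  have hfun : (fun β : ℝ => ∑ F ∈ (EE A).powerset with Con F A, β ^ F.card) =
      fun β : ℝ => ((m + 1).factorial : ℝ) * (β ^ (m + 1) * Zs (1 + β) (m + 1)) := by
    funext β; exact hK0 β
  rw [hfun] at d1
  have hu := d1.unique d2
  have hs : ∑ F ∈ (EE A).powerset with Con F A, (F.card : ℝ) * α ^ F.card =
      α * (((m + 1).factorial : ℝ) * ((((m + 1 : ℕ) : ℝ) * α ^ m) * Zs (1 + α) (m + 1) +
        α ^ (m + 1) * Zd (1 + α) (m + 1))) := by
    rw [← hu, Finset.mul_sum]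
    apply Finset.sum_congr rfl
    intro F _
    rcases Nat.eq_zero_or_pos F.card with h0 | h0
    · rw [h0]; simp
    · have : α ^ F.card = α * α ^ (F.card - 1) := by
        rw [← pow_succ']; congr 1; omega
      rw [this]; ring
  rw [← sum_single] at hs
  have hk : ∀ f ∈ EE A, KS α {f} A = (m.factorial : ℝ) * (α * rho α m) := by
    intro f
    induction f using Sym2.ind with
    | _ u v =>
      intro hf
      rw [mem_EE] at hf
      have h := KS_star α u {v} (by simpa using hf.2.2) A (by simp [hA])
      have hst : star u {v} = {s(u, v)} := by unfold star; simp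
      rw [hst] at h
      simp only [Finset.card_singleton, Nat.choose_succ_self, pow_zero, pow_one, mul_one] at h
      rw [h, hcard]
      rfl
  rw [Finset.sum_congr rfl hk, Finset.sum_const, card_EE, hcard, nsmul_eq_mul] at hs
  have hch : ((m + 2).choose 2 : ℝ) = ((m : ℝ) + 2) * ((m : ℝ) + 1) / 2 := by
    rw [Nat.cast_choose_two]
    push_cast
    ring
  rw [hch, Nat.factorial_succ] at hs
  have hz := Zs_pos (show 0 < 1 + α by linarith) (m + 1)
  have hdk := dd_kap hα m
  rw [kap_eq] at hdk
  unfold zeta
  push_cast at hs ⊢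
  have f1 : (0 : ℝ) < (m.factorial : ℝ) := by positivity
  have f2 : (0 : ℝ) < (m : ℝ) + 1 := by positivity
  have f3 : 0 < α ^ (m + 1) := by positivity
  set Z := Zs (1 + α) (m + 1)
  set D := Zd (1 + α) (m + 1)
  set r := rho α m
  -- hs : (m+2)(m+1)/2 * (m! * (α r)) = α * ((m+1) m! * ((m+1) α^m Z + α^(m+1) D))
  have e1 : ((m : ℝ) + 2) * (α * r) = 2 * (α ^ (m + 1) * (((m : ℝ) + 1) * Z + α * D)) := by
    have : (m.factorial : ℝ) * ((m : ℝ) + 1) * (((m : ℝ) + 2) * (α * r)) =
        (m.factorial : ℝ) * ((m : ℝ) + 1) * (2 * (α ^ (m + 1) * (((m : ℝ) + 1) * Z + α * D))) := by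
      rw [pow_succ] at hs ⊢
      linear_combination 2 * hs
    exact mul_left_cancel₀ (by positivity) this
  rw [← hdk] at e1
  have e2 : α ^ (m + 1) * (((m : ℝ) + 2) * dd α (m + 1) * Z) =
      α ^ (m + 1) * (2 * (((m : ℝ) + 1) * Z + α * D)) := by
    linear_combination e1
  have e3 := mul_left_cancel₀ f3.ne' e2
  have e4 : 2 * (((m : ℝ) + 1) + α * (D / Z)) = (2 * (((m : ℝ) + 1) * Z + α * D)) / Z := by
    field_simp
  rw [e4, ← e3]
  field_simp
  ring

/-- The inequality on a complete graph, in terms of `KS`. -/
theorem KS_ineq {V : Type*} [DecidableEq V] {α : ℝ} (hα : 0 < α) (A : Finset V) (e f : Sym2 V)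
    (he : e ∈ EE A) (hf : f ∈ EE A) (hef : e ≠ f) :
    KS α ∅ A * KS α {e, f} A ≤ KS α {e} A * KS α {f} A := by
  classical
  have hE := edgeId hα
  have hd := dd_mono hα hE
  have ha := aa_convex hα hE
  -- single edge and empty formulas
  have h1 : ∀ g ∈ EE A, KS α {g} A = ((A.card - 2).factorial : ℝ) * (α * rho α (A.card - 2)) := by
    intro g
    induction g using Sym2.ind with
    | _ u v =>
      intro hg
      rw [mem_EE] at hg
      have h := KS_star α u {v} (by simpa using hg.2.2) A (by
        intro x hx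
        simp only [mem_insert, mem_singleton] at hx
        rcases hx with rfl | rfl
        · exact hg.1
        · exact hg.2.1)
      have hst : star u {v} = {s(u, v)} := by unfold star; simp
      rw [hst] at h
      simp only [Finset.card_singleton, Nat.choose_succ_self, pow_zero, pow_one, mul_one] at h
      rw [h]
      rfl
  have h0 : ∀ a ∈ A, KS α ∅ A = ((A.card - 1).factorial : ℝ) * kap α (A.card - 1) := by
    intro a haA
    have h := KS_star α a ∅ (by simp) A (by simpa using haA)
    have hst : star a ∅ = (∅ : Finset (Sym2 V)) := by unfold star; simp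
    rw [hst] at h
    simp only [Finset.card_empty, Nat.choose_zero_succ, pow_zero, mul_one, one_mul, zero_add] at h
    exact h
  rw [h1 e he, h1 f hf]
  -- adjacent case
  have hadj : ∀ a b c : V, a ∈ A → b ∈ A → c ∈ A → a ≠ b → a ≠ c → b ≠ c →
      KS α ∅ A * KS α {s(a, b), s(a, c)} A ≤ ((A.card - 2).factorial : ℝ) * (α * rho α (A.card - 2)) *
        (((A.card - 2).factorial : ℝ) * (α * rho α (A.card - 2))) := by
    intro a b c haA hbA hcA hab hac hbc
    have hsub : insert a ({b, c} : Finset V) ⊆ A := by
      intro x hx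
      simp only [mem_insert, mem_singleton] at hx
      rcases hx with rfl | rfl | rfl <;> assumption
    have hnot : a ∉ ({b, c} : Finset V) := by simp [hab, hac]
    have h := KS_star α a {b, c} hnot A hsub
    have hst : star a {b, c} = {s(a, b), s(a, c)} := by
      unfold star; rw [Finset.image_insert, Finset.image_singleton]
    have hc2 : ({b, c} : Finset V).card = 2 := Finset.card_pair hbc
    rw [hst, hc2] at h
    have hc3 : 3 ≤ A.card := by
      have := Finset.card_le_card hsub
      rw [Finset.card_insert_of_notMem hnot, hc2] at this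
      exact this
    obtain ⟨M, hM⟩ : ∃ M, A.card = M + 3 := ⟨A.card - 3, by omega⟩
    rw [h0 a haA, h, hM]
    have key := adj_ineq hα hd M
    have e1 : M + 3 - 1 = M + 2 := rfl
    have e2 : M + 3 - 2 = M + 1 := rfl
    have e3 : M + 3 - (2 + 1) = M := rfl
    rw [e1, e2, e3]
    have f1 : ((M + 2).factorial : ℝ) = ((M : ℝ) + 2) * ((M + 1).factorial : ℝ) := by
      rw [Nat.factorial_succ (M + 1)]; push_cast; ring
    have f2 : ((M + 1).factorial : ℝ) = ((M : ℝ) + 1) * (M.factorial : ℝ) := by
      rw [Nat.factorial_succ M]; push_cast; ring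
    have e4 : (2 : ℕ).choose 2 = 1 := rfl
    rw [e4, pow_one]
    have pos : 0 ≤ ((M + 1).factorial : ℝ) * (M.factorial : ℝ) * α ^ 2 := by positivity
    have key2 := mul_le_mul_of_nonneg_left key pos
    calc ((M + 2).factorial : ℝ) * kap α (M + 2) * ((M.factorial : ℝ) *
          (α ^ 2 * (1 + α) * coeff M (P (1 + α) (2 + 1))))
        = ((M + 1).factorial : ℝ) * (M.factorial : ℝ) * α ^ 2 *
          (((M : ℝ) + 2) * kap α (M + 2) * ((1 + α) * coeff M (P (1 + α) 3))) := by
          rw [f1]; ring
      _ ≤ _ := key2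
      _ = _ := by
          have : ((M + 1).factorial : ℝ) * (α * rho α (M + 1)) *
            (((M + 1).factorial : ℝ) * (α * rho α (M + 1))) =
            ((M + 1).factorial : ℝ) * ((M + 1).factorial : ℝ) * (α * rho α (M + 1)) ^ 2 := by ring
          rw [this]
          nth_rewrite 3 [f2]
          ring
  revert he hf hef
  induction e using Sym2.ind with
  | _ a b =>
    induction f using Sym2.ind with
    | _ c d =>
      intro he hf hef
      rw [mem_EE] at he hf
      obtain ⟨haA, hbA, hab⟩ := he
      obtain ⟨hcA, hdA, hcd⟩ := hf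
      by_cases h_ac : a = c
      · subst h_ac
        have hbd : b ≠ d := fun h => hef (by rw [h])
        exact hadj a b d haA hbA hdA hab hcd hbd
      by_cases h_ad : a = d
      · subst h_ad
        have hbc : b ≠ c := fun h => hef (by rw [h, Sym2.eq_swap])
        have e : s(c, a) = s(a, c) := Sym2.eq_swap
        rw [e]
        exact hadj a b c haA hbA hcA hab hcd.symm hbc
      by_cases h_bc : b = c
      · subst h_bc
        have e : s(a, b) = s(b, a) := Sym2.eq_swap
        rw [e]
        exact hadj b a d hbA haA hdA hab.symm hcd h_ad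
      by_cases h_bd : b = d
      · subst h_bd
        have e : s(a, b) = s(b, a) := Sym2.eq_swap
        have e' : s(c, b) = s(b, c) := Sym2.eq_swap
        rw [e, e']
        exact hadj b a c hbA haA hcA hab.symm hcd.symm h_ac
      -- disjoint
      have hsub : ({a, b, c, d} : Finset V) ⊆ A := by
        intro x hx
        simp only [mem_insert, mem_singleton] at hx
        rcases hx with rfl | rfl | rfl | rfl <;> assumption
      have h := KS_disj α a b c d hab h_ac h_ad h_bc h_bd hcd A hsub
      have hc4 : 4 ≤ A.card := by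
        have := Finset.card_le_card hsub
        rw [Finset.card_insert_of_notMem, Finset.card_insert_of_notMem,
          Finset.card_insert_of_notMem, Finset.card_singleton] at this
        · exact this
        · simpa using hcd
        · simp [h_bc, h_bd]
        · simp [hab, h_ac, h_ad]
      obtain ⟨M, hM⟩ : ∃ M, A.card = M + 4 := ⟨A.card - 4, by omega⟩
      rw [h0 a haA, h, hM]
      have key := disj_ineq hα ha M
      have e1 : M + 4 - 1 = M + 3 := rfl
      have e2 : M + 4 - 2 = M + 2 := rfl
      have e3 : M + 4 - 4 = M := by omega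
      rw [e1, e2, e3]
      have f1 : ((M + 3).factorial : ℝ) = ((M : ℝ) + 3) * ((M + 2).factorial : ℝ) := by
        rw [Nat.factorial_succ (M + 2)]; push_cast; ring
      have f2 : ((M + 2).factorial : ℝ) = ((M : ℝ) + 2) * (((M : ℝ) + 1) * (M.factorial : ℝ)) := by
        rw [Nat.factorial_succ (M + 1), Nat.factorial_succ M]; push_cast; ring
      have pos : 0 ≤ ((M + 2).factorial : ℝ) * (M.factorial : ℝ) * α ^ 2 := by positivity
      have key2 := mul_le_mul_of_nonneg_left key pos
      calc ((M + 3).factorial : ℝ) * kap α (M + 3) * ((M.factorial : ℝ) * (α ^ 2 * Dq α M))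
          = ((M + 2).factorial : ℝ) * (M.factorial : ℝ) * α ^ 2 *
            (((M : ℝ) + 3) * kap α (M + 3) * Dq α M) := by
            rw [f1]; ring
        _ ≤ _ := key2
        _ = _ := by
            have : ((M + 2).factorial : ℝ) * (α * rho α (M + 2)) *
              (((M + 2).factorial : ℝ) * (α * rho α (M + 2))) =
              ((M + 2).factorial : ℝ) * ((M + 2).factorial : ℝ) * (α * rho α (M + 2)) ^ 2 := by ring
            rw [this]
            nth_rewrite 3 [f2]
            ring

end Helper11.Conn
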