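import Mathlib
import Pool.Agent.Helper11_Conn.Edge

/-!
Passing from a complete graph to a complete block of an arbitrary graph.
-/

open Finset

namespace Helper11.Conn

section
variable {V : Type*} [DecidableEq V]

/-- every vertex is joined to `B` by edges of `F` -/
def Span (F : Finset (Sym2 V)) (B : Finset V) : Prop :=
  ∀ v : V, ∃ b ∈ B, Relation.ReflTransGen (cr F) b v

/-- `F` connects everything -/
def ConAll (F : Finset (Sym2 V)) : Prop := ∀ u v : V, Relation.ReflTransGen (cr F) u v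

lemma conAll_iff (B : Finset V) (hB : B.Nonempty) (E2 : Finset (Sym2 V))
    (hblock : ∀ u ∈ B, ∀ v ∈ B, Relation.ReflTransGen (cr E2) u v → u = v)
    (F1 F2 : Finset (Sym2 V)) (h1 : F1 ⊆ EE B) (h2 : F2 ⊆ E2) :
    ConAll (F1 ∪ F2) ↔ Con F1 B ∧ Span F2 B := by
  have hle1 : cr F1 ≤ cr (F1 ∪ F2) := fun x y hxy => mem_union_left _ hxy
  have hle2 : cr F2 ≤ cr (F1 ∪ F2) := fun x y hxy => mem_union_right _ hxy
  have hle3 : cr F2 ≤ cr E2 := fun x y hxy => h2 hxy
  constructor
  · intro h
    have key : ∀ u ∈ B, ∀ w, Relation.ReflTransGen (cr (F1 ∪ F2)) u w →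
        ∃ b ∈ B, Relation.ReflTransGen (cr F1) u b ∧ Relation.ReflTransGen (cr F2) b w := by
      intro u hu w hw
      induction hw with
      | refl => exact ⟨u, hu, Relation.ReflTransGen.refl, Relation.ReflTransGen.refl⟩
      | @tail w w' _ hww ih =>
        obtain ⟨b, hb, hub, hbw⟩ := ih
        rcases mem_union.1 hww with hm | hm
        · have hm' := mem_EE.1 (h1 hm)
          have : b = w := hblock b hb w hm'.1 (Relation.ReflTransGen.mono hle3 _ _ hbw)
          subst this
          exact ⟨w', hm'.2.1, hub.tail hm, Relation.ReflTransGen.refl⟩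
        · exact ⟨b, hb, hub, hbw.tail hm⟩
    constructor
    · intro u hu v hv
      obtain ⟨b, hb, hub, hbv⟩ := key u hu v (h u v)
      have : b = v := hblock b hb v hv (Relation.ReflTransGen.mono hle3 _ _ hbv)
      subst this
      exact hub
    · intro v
      obtain ⟨u, hu⟩ := hB
      obtain ⟨b, hb, _, hbv⟩ := key u hu v (h u v)
      exact ⟨b, hb, hbv⟩
  · rintro ⟨hc, hs⟩ u v
    obtain ⟨b, hb, hbu⟩ := hs u
    obtain ⟨b', hb', hbv⟩ := hs v
    have a1 := Relation.ReflTransGen.mono hle2 _ _ (rt_symm F2 hbu)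
    have a2 := Relation.ReflTransGen.mono hle1 _ _ (hc b hb b' hb')
    have a3 := Relation.ReflTransGen.mono hle2 _ _ hbv
    exact (a1.trans a2).trans a3

variable (E2 : Finset (Sym2 V)) (B : Finset V) (α : ℝ)

open Classical in
/-- total weight on the edge set `EE B ∪ E2` -/
noncomputable def KA (S : Finset (Sym2 V)) : ℝ :=
  ∑ F ∈ (EE B ∪ E2).powerset with (ConAll F ∧ S ⊆ F), α ^ F.card

open Classical in
/-- weight of the part outside the block -/
noncomputable def KR (S : Finset (Sym2 V)) : ℝ :=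
  ∑ F ∈ E2.powerset with (Span F B ∧ S ⊆ F), α ^ F.card

lemma KA_factor (hB : B.Nonempty) (hd : Disjoint (EE B) E2)
    (hblock : ∀ u ∈ B, ∀ v ∈ B, Relation.ReflTransGen (cr E2) u v → u = v)
    (S1 S2 : Finset (Sym2 V)) (h1 : S1 ⊆ EE B) (h2 : S2 ⊆ E2) :
    KA E2 B α (S1 ∪ S2) = KS α S1 B * KR E2 B α S2 := by
  classical
  rw [KS_eq α S1 B h1]
  unfold KA KR
  rw [Finset.sum_mul_sum, ← Finset.sum_product']
  symm
  apply Finset.sum_nbij' (fun p : Finset (Sym2 V) × Finset (Sym2 V) => p.1 ∪ p.2)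
    (fun F => (F ∩ EE B, F ∩ E2))
  · rintro ⟨F1, F2⟩ hp
    simp only [mem_product, mem_filter, mem_powerset] at hp ⊢
    obtain ⟨⟨g1, gc, gs⟩, g2, gsp, gs2⟩ := hp
    exact ⟨Finset.union_subset_union g1 g2, (conAll_iff B hB E2 hblock F1 F2 g1 g2).2 ⟨gc, gsp⟩,
      Finset.union_subset_union gs gs2⟩
  · intro F hF
    simp only [mem_product, mem_filter, mem_powerset] at hF ⊢
    obtain ⟨hF1, hF2, hF3⟩ := hF
    have e : (F ∩ EE B) ∪ (F ∩ E2) = F := by
      rw [← Finset.inter_union_distrib_left]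
      exact Finset.inter_eq_left.2 hF1
    have hc := (conAll_iff B hB E2 hblock (F ∩ EE B) (F ∩ E2) inter_subset_right
      inter_subset_right).1 (by rw [e]; exact hF2)
    exact ⟨⟨inter_subset_right, hc.1, Finset.subset_inter (subset_union_left.trans hF3) h1⟩,
      inter_subset_right, hc.2, Finset.subset_inter (subset_union_right.trans hF3) h2⟩
  · rintro ⟨F1, F2⟩ hp
    simp only [mem_product, mem_filter, mem_powerset] at hp ⊢
    obtain ⟨⟨g1, gc, gs⟩, g2, gsp, gs2⟩ := hp
    have t1 : (F1 ∪ F2) ∩ EE B = F1 := by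
      rw [Finset.union_inter_distrib_right, Finset.inter_eq_left.2 g1]
      have : F2 ∩ EE B = ∅ := by
        rw [← Finset.disjoint_iff_inter_eq_empty]
        exact Finset.disjoint_of_subset_left g2 hd.symm
      rw [this, Finset.union_empty]
    have t2 : (F1 ∪ F2) ∩ E2 = F2 := by
      rw [Finset.union_inter_distrib_right, Finset.inter_eq_left.2 g2]
      have : F1 ∩ E2 = ∅ := by
        rw [← Finset.disjoint_iff_inter_eq_empty]
        exact Finset.disjoint_of_subset_left g1 hd
      rw [this, Finset.empty_union]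
    rw [t1, t2]
  · intro F hF
    simp only [mem_filter, mem_powerset] at hF ⊢
    rw [← Finset.inter_union_distrib_left]
    exact Finset.inter_eq_left.2 hF.1
  · rintro ⟨F1, F2⟩ hp
    simp only [mem_product, mem_filter, mem_powerset] at hp ⊢
    obtain ⟨⟨g1, gc, gs⟩, g2, gsp, gs2⟩ := hp
    have hdisj : Disjoint F1 F2 :=
      Finset.disjoint_of_subset_left g1 (Finset.disjoint_of_subset_right g2 hd)
    rw [Finset.card_union_of_disjoint hdisj, pow_add]

theorem KA_ineq (hα : 0 < α) (hB : B.Nonempty) (hd : Disjoint (EE B) E2)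
    (hblock : ∀ u ∈ B, ∀ v ∈ B, Relation.ReflTransGen (cr E2) u v → u = v)
    (e f : Sym2 V) (he : e ∈ EE B) (hf : f ∈ EE B ∪ E2) (hef : e ≠ f) :
    KA E2 B α ∅ * KA E2 B α {e, f} ≤ KA E2 B α {e} * KA E2 B α {f} := by
  have hes : ({e} : Finset (Sym2 V)) ⊆ EE B := Finset.singleton_subset_iff.2 he
  have k0 := KA_factor E2 B α hB hd hblock ∅ ∅ (Finset.empty_subset _) (Finset.empty_subset _)
  have ke := KA_factor E2 B α hB hd hblock {e} ∅ hes (Finset.empty_subset _)
  rw [Finset.empty_union] at k0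
  rw [Finset.union_empty] at ke
  rcases mem_union.1 hf with hf | hf
  · have hfs : ({f} : Finset (Sym2 V)) ⊆ EE B := Finset.singleton_subset_iff.2 hf
    have hefs : ({e, f} : Finset (Sym2 V)) ⊆ EE B := by
      intro x hx
      simp only [mem_insert, mem_singleton] at hx
      rcases hx with rfl | rfl <;> assumption
    have kf := KA_factor E2 B α hB hd hblock {f} ∅ hfs (Finset.empty_subset _)
    have kef := KA_factor E2 B α hB hd hblock {e, f} ∅ hefs (Finset.empty_subset _)
    rw [Finset.union_empty] at kf kef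
    rw [k0, ke, kf, kef]
    have key := KS_ineq hα B e f he hf hef
    nlinarith [mul_self_nonneg (KR E2 B α ∅)]
  · have hfs : ({f} : Finset (Sym2 V)) ⊆ E2 := Finset.singleton_subset_iff.2 hf
    have kf := KA_factor E2 B α hB hd hblock ∅ {f} (Finset.empty_subset _) hfs
    have kef := KA_factor E2 B α hB hd hblock {e} {f} hes hfs
    have eq : ({e} : Finset (Sym2 V)) ∪ {f} = {e, f} := rfl
    rw [eq] at kef
    rw [Finset.empty_union] at kf
    rw [k0, ke, kf, kef]
    exact le_of_eq (by ring)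

end

end Helper11.Conn
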